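import Pool.Agent.H86.Cafe.Defs

/-!
# Café rendezvous: independent blocks

The block strategy: on the first day the player is at `h`, afterwards he uses independent blocks
of `m` days with law `ν`.
-/

set_option autoImplicit false

open MeasureTheory
open scoped ENNReal

namespace Pool.Agent.H86.Cafe

/-- The sequence with first value `h` followed by the blocks `b 0, b 1, …` of length `m`. -/
def flat {C : Type} (m : ℕ) [NeZero m] (h : C) (b : ℕ → Fin m → C) : ℕ → C
  | 0 => h
  | t + 1 => b (t / m) ⟨t % m, Nat.mod_lt _ (NeZero.pos m)⟩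

/-- The law of the block strategy. -/
noncomputable def blockLaw {C : Type} [MeasurableSpace C] (m : ℕ) [NeZero m] (h : C)
    (ν : Measure (Fin m → C)) : Measure (ℕ → C) :=
  (Measure.infinitePi (fun _ : ℕ => ν)).map (flat m h)

theorem block_measurable_flat {C : Type} [MeasurableSpace C] (m : ℕ) [NeZero m] (h : C) :
    Measurable (flat m h : (ℕ → Fin m → C) → ℕ → C) := by
  rw [measurable_pi_iff]
  intro t
  cases t with
  | zero => exact measurable_const
  | succ t =>
    exact (measurable_pi_apply (⟨t % m, Nat.mod_lt _ (NeZero.pos m)⟩ : Fin m)).comp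
      (measurable_pi_apply (t / m))

instance {C : Type} [MeasurableSpace C] (m : ℕ) [NeZero m] (h : C)
    (ν : Measure (Fin m → C)) [IsProbabilityMeasure ν] :
    IsProbabilityMeasure (blockLaw m h ν) :=
  Measure.isProbabilityMeasure_map (block_measurable_flat m h).aemeasurable

/-- Probability that two independent blocks do not meet in the first `r` days. -/
noncomputable def noMeet {C : Type} [MeasurableSpace C] (m : ℕ) (ν : Measure (Fin m → C))
    (π : Equiv.Perm C) (r : ℕ) : ℝ≥0∞ :=
  (ν.prod ν) {p | ∀ s : Fin m, (s : ℕ) < r → p.1 s ≠ π (p.2 s)}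

/-- Tail-sum formula for the meeting time. -/
theorem block_meetTime_eq_tsum {C : Type} (x y : ℕ → C) :
    meetTime x y = ∑' t : ℕ, Set.indicator {q : ℕ | ∀ s < q, x s ≠ y s} (fun _ => (1 : ℝ≥0∞)) t := by
  classical
  by_cases H : ∃ t, x t = y t
  · have hT : x (Nat.find H) = y (Nat.find H) := Nat.find_spec H
    have hmin : ∀ s < Nat.find H, x s ≠ y s := fun s hs => Nat.find_min H hs
    have h1 : meetTime x y = (Nat.find H : ℝ≥0∞) + 1 := by
      unfold meetTime
      apply le_antisymm
      · exact iInf₂_le (Nat.find H) hT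
      · refine le_iInf₂ fun t ht => ?_
        have : Nat.find H ≤ t := Nat.find_min' H ht
        gcongr
    have h2 : ∑' t : ℕ, Set.indicator {q : ℕ | ∀ s < q, x s ≠ y s} (fun _ => (1 : ℝ≥0∞)) t =
        ∑ t ∈ Finset.range (Nat.find H + 1), (1 : ℝ≥0∞) := by
      rw [tsum_eq_sum (s := Finset.range (Nat.find H + 1))]
      · refine Finset.sum_congr rfl fun t ht => ?_
        rw [Set.indicator_of_mem]
        intro s hs
        exact hmin s (by rw [Finset.mem_range] at ht; omega)
      · intro t ht
        rw [Set.indicator_of_notMem]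
        intro hmem
        rw [Finset.mem_range] at ht
        exact hmem (Nat.find H) (by omega) hT
    rw [h1, h2]
    simp
  · push Not at H
    have h1 : meetTime x y = ⊤ := by
      unfold meetTime
      simp [H]
    have h2 : ∀ t : ℕ, Set.indicator {q : ℕ | ∀ s < q, x s ≠ y s} (fun _ => (1 : ℝ≥0∞)) t = 1 := by
      intro t
      rw [Set.indicator_of_mem]
      intro s _
      exact H s
    rw [h1]
    simp_rw [h2]
    rw [ENNReal.tsum_const_eq_top_of_ne_zero one_ne_zero]

/-- The event of no meeting during the first `t` days. -/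
def blockNo {C : Type} (π : Equiv.Perm C) (t : ℕ) : Set ((ℕ → C) × (ℕ → C)) :=
  {p | ∀ s < t, p.1 s ≠ π (p.2 s)}

theorem block_measurableSet_no {C : Type} [Finite C] [MeasurableSpace C]
    [MeasurableSingletonClass C] (π : Equiv.Perm C) (t : ℕ) : MeasurableSet (blockNo π t) := by
  have : blockNo π t = ⋂ s ∈ Finset.range t,
      (fun p : (ℕ → C) × (ℕ → C) => (p.1 s, p.2 s)) ⁻¹' {c : C × C | c.1 ≠ π c.2} := by
    ext p
    simp [blockNo]
  rw [this]
  refine Finset.measurableSet_biInter _ fun s _ => ?_
  refine MeasurableSet.preimage (Set.toFinite _).measurableSet ?_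
  exact ((measurable_pi_apply s).comp measurable_fst).prodMk
    ((measurable_pi_apply s).comp measurable_snd)

theorem block_meetTime_eq {C : Type} (π : Equiv.Perm C) (p : (ℕ → C) × (ℕ → C)) :
    meetTime p.1 (fun t => π (p.2 t)) =
      ∑' t : ℕ, (blockNo π t).indicator (fun _ => (1 : ℝ≥0∞)) p := by
  rw [block_meetTime_eq_tsum]
  refine tsum_congr fun t => ?_
  by_cases h : p ∈ blockNo π t
  · rw [Set.indicator_of_mem h, Set.indicator_of_mem]
    exact h
  · rw [Set.indicator_of_notMem h, Set.indicator_of_notMem]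
    exact h

theorem block_measurable_meetTime {C : Type} [Finite C] [MeasurableSpace C]
    [MeasurableSingletonClass C] (π : Equiv.Perm C) :
    Measurable (fun p : (ℕ → C) × (ℕ → C) => meetTime p.1 (fun t => π (p.2 t))) := by
  simp_rw [block_meetTime_eq]
  exact Measurable.tsum fun t =>
    measurable_const.indicator (block_measurableSet_no π t)

/-- Transport to the space of blocks. -/
theorem block_lintegral {C : Type} [Finite C] [MeasurableSpace C]
    [MeasurableSingletonClass C] (m : ℕ) [NeZero m] (h : C) (ν : Measure (Fin m → C))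
    [IsProbabilityMeasure ν] (π : Equiv.Perm C) :
    ∫⁻ x, ∫⁻ y, meetTime x (fun t => π (y t)) ∂(blockLaw m h ν) ∂(blockLaw m h ν) =
      ∫⁻ b, ∫⁻ b', meetTime (flat m h b) (fun t => π (flat m h b' t))
        ∂(Measure.infinitePi (fun _ : ℕ => ν)) ∂(Measure.infinitePi (fun _ : ℕ => ν)) := by
  have hm := block_measurable_meetTime π
  have h1 : Measurable fun x : ℕ → C =>
      ∫⁻ y, meetTime x (fun t => π (y t)) ∂(blockLaw m h ν) :=
    Measurable.lintegral_prod_right hm
  rw [blockLaw, lintegral_map (by exact h1) (block_measurable_flat m h)]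
  refine lintegral_congr fun b => ?_
  rw [lintegral_map _ (block_measurable_flat m h)]
  exact hm.comp (measurable_const.prodMk measurable_id)

theorem block_box {B : Type} [Finite B] [MeasurableSpace B] [MeasurableSingletonClass B]
    (ν : Measure B) [IsProbabilityMeasure ν] (s : Finset ℕ) (T : ℕ → Set (B × B)) :
    ∫⁻ b, (Measure.infinitePi (fun _ : ℕ => ν)) {b' : ℕ → B | ∀ i ∈ s, (b i, b' i) ∈ T i}
      ∂(Measure.infinitePi (fun _ : ℕ => ν)) = ∏ i ∈ s, (ν.prod ν) (T i) := by
  have h1 : ∀ b : ℕ → B,
      (Measure.infinitePi (fun _ : ℕ => ν)) {b' : ℕ → B | ∀ i ∈ s, (b i, b' i) ∈ T i} =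
        ∏ i ∈ s, ν (Prod.mk (b i) ⁻¹' T i) := by
    intro b
    rw [← Measure.infinitePi_pi (μ := fun _ : ℕ => ν) (s := s)
      (t := fun i => Prod.mk (b i) ⁻¹' T i) (fun i _ => (Set.toFinite _).measurableSet)]
    rfl
  simp_rw [h1]
  have hg : ∀ i : ℕ, Measurable (fun c : B => ν (Prod.mk c ⁻¹' T i)) := fun i =>
    measurable_measure_prodMk_left (Set.toFinite _).measurableSet
  have h2 := ProbabilityTheory.lintegral_prod_eq_prod_lintegral_of_indepFun
    (μ := Measure.infinitePi (fun _ : ℕ => ν)) s
    (fun i (b : ℕ → B) => ν (Prod.mk (b i) ⁻¹' T i))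
    (ProbabilityTheory.iIndepFun_infinitePi (P := fun _ : ℕ => ν)
      (X := fun i (c : B) => ν (Prod.mk c ⁻¹' T i)) hg)
    (fun i => (hg i).comp (measurable_pi_apply i))
  rw [h2]
  refine Finset.prod_congr rfl fun i _ => ?_
  rw [Measure.prod_apply (Set.toFinite _).measurableSet]
  have h3 : Measure.map (fun x : ℕ → B => x i) (Measure.infinitePi (fun _ : ℕ => ν)) = ν :=
    Measure.infinitePi_map_eval (fun _ : ℕ => ν) i
  have h4 := lintegral_map (μ := Measure.infinitePi (fun _ : ℕ => ν)) (hg i)
    (measurable_pi_apply i)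
  rw [h3] at h4
  exact h4.symm

theorem block_prob_no {C : Type} [Finite C] [MeasurableSpace C]
    [MeasurableSingletonClass C] (m : ℕ) [NeZero m] (h : C) (ν : Measure (Fin m → C))
    [IsProbabilityMeasure ν] (π : Equiv.Perm C) (hπ : π h ≠ h) (k : ℕ) (r : Fin m) :
    ∫⁻ b, (Measure.infinitePi (fun _ : ℕ => ν))
      {b' | (flat m h b, flat m h b') ∈ blockNo π (m * k + r + 1)}
      ∂(Measure.infinitePi (fun _ : ℕ => ν)) = noMeet m ν π m ^ k * noMeet m ν π r := by
  have hm : 0 < m := NeZero.pos m
  have h1 : ∀ b : ℕ → Fin m → C,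
      {b' : ℕ → Fin m → C | (flat m h b, flat m h b') ∈ blockNo π (m * k + r + 1)} =
      {b' : ℕ → Fin m → C | ∀ i ∈ Finset.range (k + 1), (b i, b' i) ∈
        {p : (Fin m → C) × (Fin m → C) | ∀ s : Fin m, m * i + s < m * k + r →
          p.1 s ≠ π (p.2 s)}} := by
    intro b
    ext b'
    simp only [Set.mem_ofPred_eq, blockNo, Finset.mem_range]
    constructor
    · intro H i _ s hs
      have := H (m * i + s + 1) (by omega)
      have e1 : (m * i + (s : ℕ)) / m = i := by
        rw [Nat.mul_add_div hm, Nat.div_eq_of_lt s.2, Nat.add_zero]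
      have e2 : (m * i + (s : ℕ)) % m = s := by
        rw [Nat.mul_add_mod, Nat.mod_eq_of_lt s.2]
      simpa only [flat, e1, e2] using this
    · intro H s hs
      cases s with
      | zero => simpa [flat] using fun h' => hπ h'.symm
      | succ s =>
        have hs' : s < m * k + r := by omega
        have hdiv : s / m < k + 1 := by
          rw [Nat.div_lt_iff_lt_mul hm]
          have := r.2
          nlinarith [Nat.mul_comm m k]
        have := H (s / m) hdiv ⟨s % m, Nat.mod_lt _ hm⟩
          (by simpa only [Nat.div_add_mod] using hs')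
        simpa only [flat] using this
  simp_rw [h1]
  rw [block_box, Finset.prod_range_succ]
  congr 1
  · rw [Finset.prod_congr rfl (g := fun _ => noMeet m ν π m)]
    · simp
    · intro i hi
      rw [Finset.mem_range] at hi
      unfold noMeet
      congr 1
      ext p
      have hlt : ∀ s : Fin m, m * i + (s : ℕ) < m * k + r := by
        intro s
        have h5 := s.2
        have h6 : m * (i + 1) ≤ m * k := Nat.mul_le_mul_left m hi
        rw [Nat.mul_add, Nat.mul_one] at h6
        omega
      constructor
      · intro H s _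
        exact H s (hlt s)
      · intro H s _
        exact H s s.2
  · unfold noMeet
    congr 1
    ext p
    constructor
    · intro H s hs
      exact H s (by omega)
    · intro H s hs
      exact H s (by omega)

/-- Expected meeting time for a fixed relative labelling `π` which moves the first café. -/
theorem lintegral_meetTime_block {C : Type} [Fintype C] [DecidableEq C] [MeasurableSpace C]
    [MeasurableSingletonClass C] (m : ℕ) [NeZero m] (h : C) (ν : Measure (Fin m → C))
    [IsProbabilityMeasure ν] (π : Equiv.Perm C) (hπ : π h ≠ h) :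
    ∫⁻ x, ∫⁻ y, meetTime x (fun t => π (y t)) ∂(blockLaw m h ν) ∂(blockLaw m h ν) =
      1 + (∑ r ∈ Finset.range m, noMeet m ν π r) * (1 - noMeet m ν π m)⁻¹ := by
  rw [block_lintegral]
  have hfl := block_measurable_flat (C := C) m h
  have hE : ∀ t : ℕ, MeasurableSet
      {q : (ℕ → Fin m → C) × (ℕ → Fin m → C) | (flat m h q.1, flat m h q.2) ∈ blockNo π t} :=
    fun t => (block_measurableSet_no π t).preimage
      ((hfl.comp measurable_fst).prodMk (hfl.comp measurable_snd))
  have h1 : ∀ b : ℕ → Fin m → C,
      ∫⁻ b', meetTime (flat m h b) (fun t => π (flat m h b' t))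
        ∂(Measure.infinitePi (fun _ : ℕ => ν)) =
      ∑' t : ℕ, (Measure.infinitePi (fun _ : ℕ => ν))
        {b' | (flat m h b, flat m h b') ∈ blockNo π t} := by
    intro b
    have h2 : ∀ b' : ℕ → Fin m → C, meetTime (flat m h b) (fun t => π (flat m h b' t)) =
        ∑' t : ℕ, {b' : ℕ → Fin m → C | (flat m h b, flat m h b') ∈ blockNo π t}.indicator
          (fun _ => (1 : ℝ≥0∞)) b' :=
      fun b' => block_meetTime_eq π (flat m h b, flat m h b')
    simp_rw [h2]
    have h3 : ∀ t : ℕ, MeasurableSet
        {b' : ℕ → Fin m → C | (flat m h b, flat m h b') ∈ blockNo π t} :=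
      fun t => (hE t).preimage (measurable_const.prodMk measurable_id)
    rw [lintegral_tsum fun t => (measurable_const.indicator (h3 t)).aemeasurable]
    refine tsum_congr fun t => ?_
    rw [lintegral_indicator (h3 t)]
    simp
  simp_rw [h1]
  have h5 : ∀ t : ℕ, AEMeasurable (fun b : ℕ → Fin m → C =>
      (Measure.infinitePi (fun _ : ℕ => ν))
        {b' : ℕ → Fin m → C | (flat m h b, flat m h b') ∈ blockNo π t})
      (Measure.infinitePi (fun _ : ℕ => ν)) :=
    fun t => (measurable_measure_prodMk_left (hE t)).aemeasurable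
  rw [lintegral_tsum h5]
  rw [tsum_eq_zero_add' ENNReal.summable]
  congr 1
  · have : ∀ b : ℕ → Fin m → C,
        {b' : ℕ → Fin m → C | (flat m h b, flat m h b') ∈ blockNo π 0} = Set.univ := by
      intro b
      ext b'
      simp [blockNo]
    simp_rw [this]
    simp
  · rw [← (Nat.divModEquiv m).symm.tsum_eq]
    have h4 : ∀ (k : ℕ) (r : Fin m),
        ∫⁻ b, (Measure.infinitePi (fun _ : ℕ => ν))
          {b' | (flat m h b, flat m h b') ∈ blockNo π ((Nat.divModEquiv m).symm (k, r) + 1)}
          ∂(Measure.infinitePi (fun _ : ℕ => ν)) = noMeet m ν π m ^ k * noMeet m ν π r := by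
      intro k r
      have : (Nat.divModEquiv m).symm (k, r) = m * k + r := by
        simp [Nat.divModEquiv, Nat.mul_comm]
      rw [this]
      exact block_prob_no m h ν π hπ k r
    rw [tsum_congr (g := fun c : ℕ × Fin m => noMeet m ν π m ^ c.1 * noMeet m ν π c.2)
      (fun c => h4 c.1 c.2)]
    rw [ENNReal.tsum_prod (f := fun (k : ℕ) (r : Fin m) => noMeet m ν π m ^ k * noMeet m ν π r)]
    simp_rw [ENNReal.tsum_mul_left, ENNReal.tsum_mul_right]
    rw [ENNReal.tsum_geometric, tsum_fintype, Finset.sum_range, mul_comm]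

/-- If `π` fixes the first café the players meet on the first day. -/
theorem lintegral_meetTime_fix {C : Type} [Fintype C] [DecidableEq C] [MeasurableSpace C]
    [MeasurableSingletonClass C] (m : ℕ) [NeZero m] (h : C) (ν : Measure (Fin m → C))
    [IsProbabilityMeasure ν] (π : Equiv.Perm C) (hπ : π h = h) :
    ∫⁻ x, ∫⁻ y, meetTime x (fun t => π (y t)) ∂(blockLaw m h ν) ∂(blockLaw m h ν) = 1 := by
  rw [block_lintegral]
  have h1 : ∀ b b' : ℕ → Fin m → C,
      meetTime (flat m h b) (fun t => π (flat m h b' t)) = 1 := by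
    intro b b'
    unfold meetTime
    apply le_antisymm
    · refine (iInf₂_le 0 ?_).trans (by simp)
      simp [flat, hπ]
    · refine le_iInf₂ fun t _ => ?_
      exact le_add_self
  simp_rw [h1]
  simp

end Pool.Agent.H86.Cafe
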