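import Pool.Agent.H86.Cafe.Walk

/-!
# The test of a range of rows
-/

set_option autoImplicit false

namespace Pool.Agent.H86.Cafe

/-- The field `i` of width `32`. -/
def ext (x i : ℕ) : ℕ := Nat.land (Nat.shiftRight x (Nat.mul 32 i)) 4294967295

theorem ext_eq (x i : ℕ) : ext x i = fld 32 x i := by
  unfold ext fld
  change (x >>> (32 * i)) &&& 4294967295 = _
  have : (4294967295 : ℕ) = 2 ^ 32 - 1 := by norm_num
  rw [this, Nat.and_two_pow_sub_one_eq_mod, Nat.shiftRight_eq_div_pow]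

def colsOf (b x : ℕ) : ℕ := Nat.shiftRight x (Nat.mul 32 b)

def rowsOf (b m x : ℕ) : ℕ :=
  Nat.land (Nat.shiftRight x (Nat.mul 32 b)) (Nat.sub (Nat.pow 2 (Nat.mul 32 m)) 1)

theorem fld_colsOf (b x j : ℕ) : fld 32 (colsOf b x) j = fld 32 x (b + j) := by
  unfold colsOf fld
  change x >>> (32 * b) / 2 ^ (32 * j) % 2 ^ 32 = _
  rw [Nat.shiftRight_eq_div_pow, Nat.div_div_eq_div_mul, ← pow_add, Nat.mul_add]

theorem fld_rowsOf (b m x j : ℕ) (hj : j < m) : fld 32 (rowsOf b m x) j = fld 32 x (b + j) := by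
  rw [← fld_colsOf]
  unfold rowsOf
  change fld 32 ((colsOf b x) &&& (2 ^ (32 * m) - 1)) j = _
  apply Nat.eq_of_testBit_eq
  intro i
  by_cases hi : i < 32
  · rw [testBit_fld _ _ _ _ hi, testBit_fld _ _ _ _ hi, Nat.testBit_and,
      Nat.testBit_two_pow_sub_one]
    have : 32 * j + i < 32 * m := by omega
    simp [this]
  · have h1 : ∀ z : ℕ, (fld 32 z j).testBit i = false := fun z =>
      Nat.testBit_lt_two_pow (lt_of_lt_of_le (fld_lt 32 z j)
        (Nat.pow_le_pow_right (by norm_num) (by omega)))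
    rw [h1, h1]

theorem colsOf_rep {N b x : ℕ} (hb : b ≤ N) (hx : x < 2 ^ (32 * N)) :
    Rep 32 (N - b) (colsOf b x) (fun j => fld 32 x (b + j)) := by
  have h1 : Rep 32 (b + (N - b)) x (fld 32 x) := by
    rw [show b + (N - b) = N by omega]
    exact rep_self hx
  exact h1.shiftRight

/-- Concatenation of pieces of 6000 bits. -/
noncomputable def cc (l : List ℕ) : ℕ :=
  List.rec 0 (fun h _ ih => Nat.add h (Nat.mul ih (Nat.pow 2 6000))) l

/-- The low and the high halves of the fields of width 32, one after the other (4452 fields). -/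
noncomputable def unp (x : ℕ) : ℕ :=
  Nat.add (Nat.land x (Nat.mul 65535 (repOnes 32 2226)))
    (Nat.mul (Nat.land (Nat.shiftRight x 16) (Nat.mul 65535 (repOnes 32 2226)))
      (Nat.pow 2 71232))

/-- Data: offset, bound of the entries, packed entries. -/
abbrev Dat := List (ℕ × ℕ × ℕ)

/-- Data from the offsets and bounds and from the packed entries. -/
def mkD (l : List (ℕ × ℕ)) (Q : List ℕ) : Dat := List.zipWith (fun a q => (a.1, a.2, q)) l Q

theorem mkD_map (l : List (ℕ × ℕ)) (Q : List ℕ) (h : l.length = Q.length) :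
    (mkD l Q).map (fun h => h.2.2) = Q := by
  induction l generalizing Q with
  | nil =>
    have : Q = [] := List.length_eq_zero_iff.1 h.symm
    subst this
    rfl
  | cons a l ih =>
    cases Q with
    | nil => simp at h
    | cons q Q =>
      have := ih Q (by simpa using h)
      simp only [mkD, List.zipWith_cons_cons, List.map_cons] at this ⊢
      rw [this]

/-- The pairs of the row part and the column part of the data. -/
noncomputable def rcOf (b m : ℕ) (D : Dat) : List (ℕ × ℕ) :=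
  List.rec [] (fun h _ ih => (rowsOf b m h.2.2, colsOf b h.2.2) :: ih) D

noncomputable def dot (i : ℕ) (l : List (ℕ × ℕ)) : ℕ :=
  List.rec 0 (fun h _ ih => Nat.add (Nat.mul (ext h.1 i) h.2) ih) l

/-- The same sum from the list of the packed columns. -/
noncomputable def dotQ (b m i : ℕ) (l : List ℕ) : ℕ :=
  List.rec 0 (fun h _ ih => Nat.add (Nat.mul (ext (rowsOf b m h) i) (colsOf b h)) ih) l

theorem dotQ_eq (b m i : ℕ) (D : Dat) :
    dotQ b m i (D.map fun h => h.2.2) = dot i (rcOf b m D) := by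
  induction D with
  | nil => rfl
  | cons h D ih =>
    change Nat.add (Nat.mul (ext (rowsOf b m h.2.2) i) (colsOf b h.2.2))
      (dotQ b m i (D.map fun h => h.2.2)) =
      Nat.add (Nat.mul (ext (rowsOf b m h.2.2) i) (colsOf b h.2.2)) (dot i (rcOf b m D))
    rw [ih]

noncomputable def tpl (D : Dat) : ℕ :=
  List.rec 0 (fun h _ ih => Nat.add (Nat.mul h.1 h.2.2) ih) D

/-- The data are bounded. -/
noncomputable def dchk (N : ℕ) (D : Dat) : Bool :=
  List.rec true (fun h _ ih => and (and (Nat.blt h.2.2 (Nat.pow 2 (Nat.mul 32 N)))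
    (and (Nat.beq (Nat.land h.2.2 (Nat.mul 2147483648 (repOnes 32 N))) 0)
    (chkGE (Nat.mul 2147483648 (repOnes 32 N)) (Nat.mul h.2.1 (repOnes 32 N)) h.2.2)))
    ih) D

noncomputable def lck (N S K b m : ℕ) (Q : List ℕ) (rT cT : ℕ) (i a8 : ℕ) : Bool :=
  chkGE (Nat.mul 2147483648 (repOnes 32 (Nat.sub N b)))
    (Nat.add (Nat.mul S (spread a8))
      (Nat.add cT (Nat.mul (ext rT (Nat.sub i b)) (repOnes 32 (Nat.sub N b)))))
    (Nat.add (Nat.mul K (repOnes 32 (Nat.sub N b))) (dotQ b m (Nat.sub i b) Q))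

def alT : List ℕ := [0, 0, 0, 0, 0, 0, 1, 1, 1, 1, 1, 1, 1, 1, 1, 1, 1, 1, 1, 1, 1, 1, 1, 1]

def root (Nb : ℕ) : ℕ := concat (Nat.mul 8 Nb) (alT.map fun v => Nat.mul v (ones Nb))

/-- The test of the rows `b, …, b + m - 1` against the columns `b, b + 1, …`. -/
noncomputable def chunk (N S K : ℕ) (D : Dat) (Q : List ℕ) (t : T) (zl : ℕ → ℕ → ℕ)
    (alit : ℕ → ℕ) (b m : ℕ) : Bool :=
  walk (Nat.sub N b) b m
    (fun s a => mskOf (Nat.sub N b) (fun c => sprN 1 8 13 (Nat.shiftRight (zl s c) b) 13) a)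
    (fun s => Nat.mul 255 (sprN 1 8 13 (Nat.shiftRight (alit s) b) 13))
    (lck N S K b m Q (rowsOf b m (tpl D)) (colsOf b (tpl D)))
    t 0 0 (root (Nat.sub N b)) 0

/-! ## Soundness -/

/-- Sum over the data. -/
def dsum (D : Dat) (F : ℕ × ℕ × ℕ → ℕ) : ℕ := (D.map F).sum

theorem dsum_cons (h : ℕ × ℕ × ℕ) (D : Dat) (F : ℕ × ℕ × ℕ → ℕ) :
    dsum (h :: D) F = F h + dsum D F := by
  simp [dsum]

theorem dsum_le (D : Dat) (F G : ℕ × ℕ × ℕ → ℕ) (h : ∀ q ∈ D, F q ≤ G q) :
    dsum D F ≤ dsum D G := by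
  induction D with
  | nil => simp [dsum]
  | cons q D ih =>
    rw [dsum_cons, dsum_cons]
    have h1 := h q (by simp)
    have h2 := ih fun q' hq' => h q' (by simp [hq'])
    omega

def DOK (N : ℕ) (D : Dat) : Prop :=
  ∀ h ∈ D, h.2.2 < 2 ^ (32 * N) ∧ ∀ j < N, fld 32 h.2.2 j ≤ h.2.1

theorem lt_of_land_top {f : ℕ} (hf : f < 2 ^ 32) (h : f &&& 2147483648 = 0) : f < 2 ^ 31 := by
  apply Nat.lt_pow_two_of_testBit
  intro i hi
  by_cases h31 : i = 31
  · subst h31
    have h1 : (f &&& 2 ^ 31).testBit 31 = false := by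
      have : (2 : ℕ) ^ 31 = 2147483648 := by norm_num
      rw [this, h, Nat.zero_testBit]
    rw [Nat.testBit_and, Nat.testBit_two_pow_self, Bool.and_true] at h1
    exact h1
  · exact Nat.testBit_lt_two_pow (lt_of_lt_of_le hf (Nat.pow_le_pow_right (by norm_num) (by omega)))

theorem dchk_sound (N : ℕ) (D : Dat) (hB : ∀ h ∈ D, h.2.1 < 2 ^ 31) (hc : dchk N D = true) :
    DOK N D := by
  induction D with
  | nil => intro h hh; simp at hh
  | cons h D ih =>
    have hc' : and (and (Nat.blt h.2.2 (Nat.pow 2 (Nat.mul 32 N)))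
      (and (Nat.beq (Nat.land h.2.2 (Nat.mul 2147483648 (repOnes 32 N))) 0)
      (chkGE (Nat.mul 2147483648 (repOnes 32 N)) (Nat.mul h.2.1 (repOnes 32 N)) h.2.2)))
      (dchk N D) = true := hc
    simp only [Bool.and_eq_true] at hc'
    obtain ⟨⟨h1, h2, h4⟩, h3⟩ := hc'
    have hlt : h.2.2 < 2 ^ (32 * N) :=
      Nat.lt_of_lt_of_le (Nat.lt_succ_self _) (Nat.le_of_ble_eq_true h1)
    have hbd := hB h (by simp)
    have ho : Rep 32 N (Nat.mul 2147483648 (repOnes 32 N)) (fun _ => 2 ^ (32 - 1)) := by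
      have := repConst_rep 32 N 2147483648 (by norm_num) (by norm_num)
      exact this
    have ha := repConst_rep 32 N h.2.1 (by norm_num) (by
      calc h.2.1 < 2 ^ 31 := hbd
        _ < 2 ^ 32 := by norm_num)
    have hrep := rep_self (w := 32) hlt
    have hz := hrep.land ho
    have h2' : Nat.land h.2.2 (Nat.mul 2147483648 (repOnes 32 N)) = 0 := Nat.eq_of_beq_eq_true h2
    have hlow : ∀ j < N, fld 32 h.2.2 j < 2 ^ 31 := by
      intro j hj
      apply lt_of_land_top (fld_lt _ _ _)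
      have hz1 := hz.eq j hj
      have hz2 : fld 32 (Nat.land h.2.2 (Nat.mul 2147483648 (repOnes 32 N))) j =
        fld 32 h.2.2 j &&& 2 ^ (32 - 1) := hz1
      rw [h2'] at hz2
      have hz3 : fld 32 0 j = 0 := by simp [fld]
      rw [hz3] at hz2
      exact hz2.symm
    intro q hq
    rcases List.mem_cons.1 hq with rfl | hq'
    · refine ⟨hlt, ?_⟩
      exact chkGE_sound (w := 32) (by norm_num) ho ha hrep (fun j _ => hbd)
        (fun j hj => (hlow j hj).le) h4
    · exact ih (fun h' hh' => hB h' (by simp [hh'])) h3 q hq'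

/-- The packed sum `∑ off_k P_k`. -/
theorem tpl_rep {N : ℕ} (D : Dat) (hD : DOK N D) (hs : dsum D (fun h => h.1 * h.2.1) < 2 ^ 32) :
    Rep 32 N (tpl D) (fun j => dsum D (fun h => h.1 * fld 32 h.2.2 j)) := by
  induction D with
  | nil => exact Rep.congr (zero_rep 32 N) fun j _ => by simp [dsum]
  | cons h D ih =>
    rw [dsum_cons] at hs
    have ih' := ih (fun q hq => hD q (by simp [hq])) (by omega)
    have hh := hD h (by simp)
    have hb1 : ∀ j < N, h.1 * fld 32 h.2.2 j ≤ h.1 * h.2.1 := fun j hj =>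
      Nat.mul_le_mul_left _ (hh.2 j hj)
    have hb2 : ∀ j < N, dsum D (fun h => h.1 * fld 32 h.2.2 j) ≤ dsum D (fun h => h.1 * h.2.1) :=
      fun j hj => dsum_le D _ _ fun q hq =>
        Nat.mul_le_mul_left _ ((hD q (by simp [hq])).2 j hj)
    have h1 := (rep_self (w := 32) hh.1).mul_const h.1 (by
      intro j hj; have := hb1 j hj; omega)
    have h2 := h1.add ih' (by
      intro j hj; have := hb1 j hj; have := hb2 j hj; omega)
    refine Rep.congr h2 ?_
    intro j _
    rw [dsum_cons]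

theorem dot_rep {N b m i : ℕ} (hb : b ≤ N) (hbi : b + i < N) (hi : i < m) (D : Dat)
    (hD : DOK N D) (hs : dsum D (fun h => h.2.1 * h.2.1) < 2 ^ 32) :
    Rep 32 (N - b) (dot i (rcOf b m D))
      (fun j => dsum D (fun h => fld 32 h.2.2 (b + i) * fld 32 h.2.2 (b + j))) := by
  induction D with
  | nil => exact Rep.congr (zero_rep 32 _) fun j _ => by simp [dsum]
  | cons h D ih =>
    rw [dsum_cons] at hs
    have ih' := ih (fun q hq => hD q (by simp [hq])) (by omega)
    have hh := hD h (by simp)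
    have hb1 : ∀ j < N - b, fld 32 h.2.2 (b + i) * fld 32 h.2.2 (b + j) ≤ h.2.1 * h.2.1 :=
      fun j hj => Nat.mul_le_mul (hh.2 _ hbi) (hh.2 _ (by omega))
    have hb2 : ∀ j < N - b, dsum D (fun h => fld 32 h.2.2 (b + i) * fld 32 h.2.2 (b + j)) ≤
        dsum D (fun h => h.2.1 * h.2.1) := fun j hj => dsum_le D _ _ fun q hq =>
      Nat.mul_le_mul ((hD q (by simp [hq])).2 _ hbi) ((hD q (by simp [hq])).2 _ (by omega))
    have h1 := (colsOf_rep hb hh.1).mul_const (fld 32 h.2.2 (b + i)) (by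
      intro j hj; have := hb1 j hj; omega)
    have h2 := h1.add ih' (by
      intro j hj; have := hb1 j hj; have := hb2 j hj; omega)
    have e : dot i (rcOf b m (h :: D)) =
        fld 32 h.2.2 (b + i) * colsOf b h.2.2 + dot i (rcOf b m D) := by
      change ext (rowsOf b m h.2.2) i * colsOf b h.2.2 + dot i (rcOf b m D) = _
      rw [ext_eq, fld_rowsOf _ _ _ _ hi]
    rw [e]
    refine Rep.congr h2 ?_
    intro j _
    rw [dsum_cons]

theorem lck_sound {N S K b m i a8 : ℕ} {D : Dat} {Q : List ℕ} {f : ℕ → ℕ} (hN : N ≤ 8192)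
    (hQ : Q = D.map fun h => h.2.2) (hb : b ≤ i)
    (him : i < b + m) (hiN : i < N) (hD : DOK N D)
    (h1 : dsum D (fun h => h.2.1 * h.2.1) + K ≤ 2 ^ 31)
    (h2 : 2 * dsum D (fun h => h.1 * h.2.1) + S * 255 < 2 ^ 31)
    (ha : Rep 8 (N - b) a8 f)
    (hc : lck N S K b m Q (rowsOf b m (tpl D)) (colsOf b (tpl D)) i a8 = true) :
    ∀ j < N - b, K + dsum D (fun h => fld 32 h.2.2 i * fld 32 h.2.2 (b + j)) ≤
      S * f j + (dsum D (fun h => h.1 * fld 32 h.2.2 (b + j)) +
        dsum D (fun h => h.1 * fld 32 h.2.2 i)) := by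
  have hbi : b + (i - b) = i := by omega
  have ht := tpl_rep D hD (by omega)
  have htb : ∀ j < N, dsum D (fun h => h.1 * fld 32 h.2.2 j) ≤ dsum D (fun h => h.1 * h.2.1) :=
    fun j hj => dsum_le D _ _ fun q hq => Nat.mul_le_mul_left _ ((hD q hq).2 j hj)
  have hfb : ∀ j < N - b, f j < 256 := fun j hj => ha.f_lt hj
  have hw := spread_rep (by omega) ha
  have hcT := (colsOf_rep (b := b) (by omega) ht.lt).congr
    (g := fun j => dsum D (fun h => h.1 * fld 32 h.2.2 (b + j)))
    (fun j hj => ht.eq (b + j) (by omega))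
  have hrT : ext (rowsOf b m (tpl D)) (i - b) = dsum D (fun h => h.1 * fld 32 h.2.2 i) := by
    rw [ext_eq, fld_rowsOf _ _ _ _ (by omega), hbi]
    exact ht.eq i hiN
  have hSf : ∀ j < N - b, S * f j ≤ S * 255 := fun j hj =>
    Nat.mul_le_mul_left _ (by have := hfb j hj; omega)
  have a1 := hw.mul_const S (by intro j hj; have := hSf j hj; omega)
  have a2 := repConst_rep 32 (N - b) (dsum D (fun h => h.1 * fld 32 h.2.2 i)) (by norm_num) (by
    have := htb i hiN
    omega)
  have a3 := hcT.add a2 (by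
    intro j hj
    have e1 := htb i hiN
    have e2 := htb (b + j) (by omega)
    omega)
  have a4 := a1.add a3 (by
    intro j hj
    have e1 := htb i hiN
    have e2 := htb (b + j) (by omega)
    have e3 := hSf j hj
    omega)
  have b1 := repConst_rep 32 (N - b) K (by norm_num) (by omega)
  have b2 := dot_rep (i := i - b) (m := m) (b := b) (by omega) (by omega) (by omega) D hD
    (by omega)
  rw [hbi] at b2
  have hprod : ∀ j < N - b, dsum D (fun h => fld 32 h.2.2 i * fld 32 h.2.2 (b + j)) ≤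
      dsum D (fun h => h.2.1 * h.2.1) := fun j hj => dsum_le D _ _ fun q hq =>
    Nat.mul_le_mul ((hD q hq).2 _ hiN) ((hD q hq).2 _ (by omega))
  have b3 := b1.add b2 (by
    intro j hj
    have := hprod j hj
    omega)
  have ho : Rep 32 (N - b) (Nat.mul 2147483648 (repOnes 32 (N - b))) (fun _ => 2 ^ (32 - 1)) := by
    have := repConst_rep 32 (N - b) 2147483648 (by norm_num) (by norm_num)
    exact this
  have hc' : chkGE (Nat.mul 2147483648 (repOnes 32 (N - b)))
    (S * spread a8 + (colsOf b (tpl D) + Nat.mul (dsum D (fun h => h.1 * fld 32 h.2.2 i))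
      (repOnes 32 (N - b))))
    (Nat.mul K (repOnes 32 (N - b)) + dot (i - b) (rcOf b m D)) = true := by
    rw [← hrT, ← dotQ_eq, ← hQ]
    exact hc
  exact chkGE_sound (w := 32) (by norm_num) ho a4 b3 (by
    intro j hj
    have e1 := htb i hiN
    have e2 := htb (b + j) (by omega)
    have e3 := hSf j hj
    norm_num at h2 ⊢
    omega) (by
    intro j hj
    have := hprod j hj
    norm_num at h1 ⊢
    omega) hc'

theorem root_rep (Nb : ℕ) : ∃ F, Rep 8 (24 * Nb) (root Nb) F ∧
    ∀ p < 24, ∀ j < Nb, F (Nb * p + j) = al 1 p := by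
  obtain ⟨G, hG, hGF⟩ := concat_rep Nb (fun p _ => al 1 p)
    (alT.map fun v => Nat.mul v (ones Nb)) (by
      intro p hp
      have hp' : p < 24 := by simpa [alT] using hp
      have h1 : ∀ q : Fin 24, alT[(q : ℕ)]'(by simp [alT]) = al 1 q := by decide
      rw [List.getElem_map, h1 ⟨p, hp'⟩]
      exact const_rep Nb _ (lt_of_le_of_lt (al_le 1 p) (by norm_num)))
  have e : (alT.map fun v => Nat.mul v (ones Nb)).length = 24 := by simp [alT]
  rw [e] at hG hGF
  exact ⟨G, hG, hGF⟩

theorem spr18_rep {N x : ℕ} {f : ℕ → ℕ} (hN : N ≤ 8192) (h : Rep 1 N x f) :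
    Rep 8 N (sprN 1 8 13 x 13) f := by
  have h1 := h.extend (8192 - N)
  rw [show N + (8192 - N) = 2 ^ 13 by norm_num; omega] at h1
  have h2 := sprN_rep (a := 1) (b := 8) (T := 13) (by norm_num) (by norm_num) h1 13 le_rfl
  simp only [Nat.sub_self, pow_zero, mul_one] at h2
  have h3 : Rep 8 (N + (8192 - N)) (sprN 1 8 13 x 13) (fun j => if j < N then f j else 0) := by
    rw [show N + (8192 - N) = 2 ^ 13 by norm_num; omega]
    exact h2
  have h4 := h3.restrict (by
    intro j hj _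
    simp [show ¬ j < N by omega])
  exact h4.congr fun j hj => by simp [hj]

theorem shift1_rep {N b x : ℕ} {f : ℕ → ℕ} (hb : b ≤ N) (h : Rep 1 N x f) :
    Rep 1 (N - b) (Nat.shiftRight x b) (fun j => f (b + j)) := by
  have h1 : Rep 1 (b + (N - b)) x f := by
    rw [show b + (N - b) = N by omega]
    exact h
  have h2 := h1.shiftRight
  rw [one_mul] at h2
  exact h2

theorem chunk_sound {N S K b m : ℕ} {D : Dat} {Q : List ℕ} {t : T} {zl : ℕ → ℕ → ℕ}
    {alit : ℕ → ℕ} (hN : N ≤ 8192) (ht : t.size = N) (hQ : Q = D.map fun h => h.2.2)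
    (hD : DOK N D)
    (hz : ∀ s ≤ 10, ∀ c < 4, zl s c = t.zpl s c) (ha : ∀ s ≤ 10, alit s = t.apl s)
    (h1 : dsum D (fun h => h.2.1 * h.2.1) + K ≤ 2 ^ 31)
    (h2 : 2 * dsum D (fun h => h.1 * h.2.1) + S * 255 < 2 ^ 31)
    (hc : chunk N S K D Q t zl alit b m = true) :
    ∀ i, b ≤ i → i < b + m → i < N → ∀ j, b ≤ j → j < N →
      K + dsum D (fun h => fld 32 h.2.2 i * fld 32 h.2.2 j) ≤
      S * AS (t.path i) (t.path j) + (dsum D (fun h => h.1 * fld 32 h.2.2 j) +
        dsum D (fun h => h.1 * fld 32 h.2.2 i)) := by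
  intro i hbi him hiN j hbj hjN
  have hbN : b ≤ N := by omega
  have hmk : ∀ s ≤ 10, ∀ a < 4, ∃ F, Rep 8 (24 * (N - b))
      (mskOf (N - b) (fun c => sprN 1 8 13 (Nat.shiftRight (zl s c) b) 13) a) F ∧
      ∀ p < 24, ∀ j < N - b, F ((N - b) * p + j) =
        if (t.path (b + j))[s]? = some ((ivT.getD a []).getD p 0) then 0 else 1 := by
    intro s hs a ha4
    refine mskOf_rep (N - b) _ a ha4 (fun j => (t.path (b + j))[s]?) ?_
    intro c hc4
    have h3 := t.zpl_rep s c hc4
    rw [ht] at h3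
    rw [hz s hs c hc4]
    exact spr18_rep (by omega) (shift1_rep hbN h3)
  have hac : ∀ s ≤ 10, Rep 8 (N - b) (Nat.mul 255 (sprN 1 8 13 (Nat.shiftRight (alit s) b) 13))
      (fun j => if s < (t.path (b + j)).length then 255 else 0) := by
    intro s hs
    have h3 := t.apl_rep s
    rw [ht] at h3
    rw [ha s hs]
    have h4 := spr18_rep (by omega) (shift1_rep hbN h3)
    refine (h4.mul_const 255 ?_).congr ?_
    · intro j _
      split_ifs <;> norm_num
    · intro j _
      split_ifs <;> norm_num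
  have hw := walk_sound (N - b) b m (fun j => t.path (b + j))
    (fun s a => mskOf (N - b) (fun c => sprN 1 8 13 (Nat.shiftRight (zl s c) b) 13) a)
    (fun s => Nat.mul 255 (sprN 1 8 13 (Nat.shiftRight (alit s) b) 13))
    (lck N S K b m Q (rowsOf b m (tpl D)) (colsOf b (tpl D)))
    (fun j s c h => t.path_digit _ _ _ h) hmk hac t 0 0 (root (N - b)) 0 [] rfl (by norm_num)
    (Inv.nil _ _ _ (root_rep (N - b))) hc i (by rw [ht]; exact hiN) (by omega) (by omega)
  obtain ⟨a8, r1, r2⟩ := hw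
  rw [zero_add] at r1
  have h5 := lck_sound (f := fun j => AS ([] ++ t.path i) (t.path (b + j))) hN hQ hbi him hiN hD h1 h2
    r2 r1 (j - b) (by omega)
  rw [show b + (j - b) = j by omega] at h5
  simpa using h5

end Pool.Agent.H86.Cafe
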