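import Pool.Agent.H86.Cafe.Pack

/-!
# The packed evaluation of the lower bound for the remaining cost

A number `x` consists of `24` blocks of `N` bytes; the byte `j` of the block `p` is `1` if the
relabelling number `p` is still alive in the situation number `j`, and `0` otherwise.
-/

set_option autoImplicit false

namespace Pool.Agent.H86.Cafe

/-- The 24 permutations of `{0,1,2,3}` in lexicographic order, as lists of values. -/
def perms : List (List ℕ) :=
  [[0, 1, 2, 3], [0, 1, 3, 2], [0, 2, 1, 3], [0, 2, 3, 1], [0, 3, 1, 2], [0, 3, 2, 1],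
   [1, 0, 2, 3], [1, 0, 3, 2], [1, 2, 0, 3], [1, 2, 3, 0], [1, 3, 0, 2], [1, 3, 2, 0],
   [2, 0, 1, 3], [2, 0, 3, 1], [2, 1, 0, 3], [2, 1, 3, 0], [2, 3, 0, 1], [2, 3, 1, 0],
   [3, 0, 1, 2], [3, 0, 2, 1], [3, 1, 0, 2], [3, 1, 2, 0], [3, 2, 0, 1], [3, 2, 1, 0]]

/-- For every pair `(a, b)` (number `4 a + b`) the numbers of the permutations with `b ↦ a`. -/
def ixs : List (List ℕ) :=
  [[0, 1, 2, 3, 4, 5], [6, 7, 12, 13, 18, 19], [8, 10, 14, 16, 20, 22], [9, 11, 15, 17, 21, 23],
   [6, 7, 8, 9, 10, 11], [0, 1, 14, 15, 20, 21], [2, 4, 12, 17, 18, 23], [3, 5, 13, 16, 19, 22],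
   [12, 13, 14, 15, 16, 17], [2, 3, 8, 9, 22, 23], [0, 5, 6, 11, 19, 21], [1, 4, 7, 10, 18, 20],
   [18, 19, 20, 21, 22, 23], [4, 5, 10, 11, 16, 17], [1, 3, 7, 9, 13, 15], [0, 2, 6, 8, 12, 14]]

theorem ixs_spec : ixs = (List.range 16).map fun i =>
    (List.range 24).filter fun p => (perms.getD p []).getD (i % 4) 9 == i / 4 := by
  decide

/-- The number whose `N` bytes are all `1`. -/
def ones (N : ℕ) : ℕ := Nat.div (Nat.sub (Nat.pow 2 (Nat.mul 8 N)) 1) 255

def full (N : ℕ) : ℕ := Nat.sub (Nat.pow 2 (Nat.mul 8 N)) 1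

def blk (N x p : ℕ) : ℕ := Nat.land (Nat.shiftRight x (Nat.mul (Nat.mul 8 N) p)) (full N)

def sumB (N x : ℕ) (l : List ℕ) : ℕ := l.foldr (fun p s => Nat.add (blk N x p) s) 0

def all24 : List ℕ :=
  [0, 1, 2, 3, 4, 5, 6, 7, 8, 9, 10, 11, 12, 13, 14, 15, 16, 17, 18, 19, 20, 21, 22, 23]

def mP (N x : ℕ) : ℕ := sumB N x all24

def orP (N x c : ℕ) : ℕ := ixs.foldr (fun l s => Nat.lor (Nat.add (sumB N x l) c) s) 0

def QP (N x k : ℕ) : ℕ :=
  Nat.land (Nat.shiftRight (orP N x (Nat.mul (Nat.sub 8 k) (ones N))) 3) (ones N)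

def GP (N m k : ℕ) : ℕ :=
  Nat.land (Nat.shiftRight (Nat.add m (Nat.mul (Nat.sub 32 k) (ones N))) 5) (ones N)

/-- The packed lower bound. -/
def WP (N x : ℕ) : ℕ :=
  Nat.sub
    (Nat.add (Nat.mul 2 (mP N x)) (Nat.add (Nat.mul 3 (GP N (mP N x) 9))
      (Nat.add (Nat.mul 3 (GP N (mP N x) 11)) (Nat.add (Nat.mul 4 (GP N (mP N x) 14))
        (Nat.add (Nat.mul 2 (GP N (mP N x) 18)) (Nat.mul 12 (GP N (mP N x) 24)))))))
    (Nat.add (GP N (mP N x) 1) (Nat.add (Nat.mul 3 (GP N (mP N x) 10))
      (Nat.add (Nat.mul 3 (GP N (mP N x) 12)) (Nat.add (QP N x 2)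
        (Nat.add (QP N x 3) (Nat.add (QP N x 4) (Nat.mul 2 (QP N x 6))))))))

/-! ## Specification -/

def sumS (a : ℕ → ℕ) (l : List ℕ) : ℕ := l.foldr (fun p s => a p + s) 0

def mS (a : ℕ → ℕ) : ℕ := sumS a all24

def QS (a : ℕ → ℕ) (k : ℕ) : ℕ := if ∃ l ∈ ixs, k ≤ sumS a l then 1 else 0

def GS (m k : ℕ) : ℕ := if k ≤ m then 1 else 0

/-- The lower bound for the remaining cost if the alive permutations are those with `a p = 1`. -/
def WS (a : ℕ → ℕ) : ℕ :=
  (2 * mS a + (3 * GS (mS a) 9 + (3 * GS (mS a) 11 + (4 * GS (mS a) 14 +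
    (2 * GS (mS a) 18 + 12 * GS (mS a) 24))))) -
  (GS (mS a) 1 + (3 * GS (mS a) 10 + (3 * GS (mS a) 12 + (QS a 2 + (QS a 3 + (QS a 4 +
    2 * QS a 6))))))

theorem GS_le (m k : ℕ) : GS m k ≤ 1 := by unfold GS; split_ifs <;> omega

theorem QS_le (a : ℕ → ℕ) (k : ℕ) : QS a k ≤ 1 := by unfold QS; split_ifs <;> omega

theorem sumS_congr {a a' : ℕ → ℕ} {l : List ℕ} (h : ∀ p ∈ l, a p = a' p) :
    sumS a l = sumS a' l := by
  induction l with
  | nil => rfl
  | cons p l ih =>
    simp only [sumS, List.foldr_cons] at ih ⊢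
    rw [h p (by simp), ih fun q hq => h q (by simp [hq])]

theorem sumS_le_length {a : ℕ → ℕ} {l : List ℕ} (h : ∀ p ∈ l, a p ≤ 1) :
    sumS a l ≤ l.length := by
  induction l with
  | nil => simp [sumS]
  | cons p l ih =>
    simp only [sumS, List.foldr_cons, List.length_cons] at ih ⊢
    have := h p (by simp)
    have := ih fun q hq => h q (by simp [hq])
    omega

theorem ixs_lt : ∀ l ∈ ixs, l.length = 6 ∧ ∀ p ∈ l, p < 24 := by decide

theorem all24_lt : ∀ p ∈ all24, p < 24 := by decide

theorem sumS_sublist (a : ℕ → ℕ) {l l' : List ℕ} (h : l.Sublist l') : sumS a l ≤ sumS a l' := by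
  induction h with
  | slnil => exact le_refl _
  | cons p _ ih =>
    simp only [sumS, List.foldr_cons] at ih ⊢
    omega
  | cons_cons p _ ih =>
    simp only [sumS, List.foldr_cons] at ih ⊢
    omega

theorem ixs_sublist : ∀ l ∈ ixs, l.Sublist all24 := by decide

theorem sum_ix_le (a : ℕ → ℕ) {l : List ℕ} (hl : l ∈ ixs) : sumS a l ≤ mS a :=
  sumS_sublist a (ixs_sublist l hl)

theorem WS_congr {a a' : ℕ → ℕ} (h : ∀ p < 24, a p = a' p) : WS a = WS a' := by
  have h1 : mS a = mS a' := sumS_congr fun p hp => h p (all24_lt p hp)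
  have h2 : ∀ k, QS a k = QS a' k := by
    intro k
    unfold QS
    have : (∃ l ∈ ixs, k ≤ sumS a l) ↔ (∃ l ∈ ixs, k ≤ sumS a' l) := by
      constructor
      · rintro ⟨l, hl, hk⟩
        exact ⟨l, hl, by rwa [← sumS_congr fun p hp => h p ((ixs_lt l hl).2 p hp)]⟩
      · rintro ⟨l, hl, hk⟩
        exact ⟨l, hl, by rwa [sumS_congr fun p hp => h p ((ixs_lt l hl).2 p hp)]⟩
    simp only [this]
  unfold WS
  rw [h1, h2, h2, h2, h2]

/-- no underflow in the definition of `WS` -/
theorem WS_sub_le (a : ℕ → ℕ) :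
    GS (mS a) 1 + (3 * GS (mS a) 10 + (3 * GS (mS a) 12 + (QS a 2 + (QS a 3 + (QS a 4 +
      2 * QS a 6))))) ≤
    2 * mS a + (3 * GS (mS a) 9 + (3 * GS (mS a) 11 + (4 * GS (mS a) 14 +
      (2 * GS (mS a) 18 + 12 * GS (mS a) 24)))) := by
  have hQ : ∀ k, QS a k = 0 ∨ (QS a k = 1 ∧ k ≤ mS a) := by
    intro k
    unfold QS
    split_ifs with h
    · obtain ⟨l, hl, hk⟩ := h
      exact Or.inr ⟨rfl, hk.trans (sum_ix_le a hl)⟩
    · exact Or.inl rfl
  have h2 := hQ 2
  have h3 := hQ 3
  have h4 := hQ 4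
  have h6 := hQ 6
  unfold GS
  split_ifs <;> omega

/-! ## Correctness -/

theorem ones_rep (N : ℕ) : Rep 8 N (ones N) (fun _ => 1) := by
  have h := rep_of_sum (w := 8) N (fun _ => 1) (by intro j _; norm_num)
  have h2 : ∑ j ∈ Finset.range N, 1 * 2 ^ (8 * j) = ones N := by
    unfold ones
    change _ = (2 ^ (8 * N) - 1) / 255
    have h3 : (∑ j ∈ Finset.range N, 1 * 2 ^ (8 * j)) * 255 = 2 ^ (8 * N) - 1 := by
      have h4 := Nat.geomSum_eq (m := 256) (by norm_num) N
      have h5 : ∀ j, 1 * 2 ^ (8 * j) = 256 ^ j := fun j => by rw [pow_mul]; norm_num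
      simp only [h5]
      rw [h4, show (2 : ℕ) ^ (8 * N) = 256 ^ N by rw [pow_mul]; norm_num]
      apply Nat.div_mul_cancel
      have := Nat.sub_dvd_pow_sub_pow 256 1 N
      simpa using this
    rw [← h3, Nat.mul_div_cancel _ (by norm_num)]
  rw [h2] at h
  exact h

theorem const_rep (N c : ℕ) (hc : c < 256) : Rep 8 N (Nat.mul c (ones N)) (fun _ => c) := by
  have := (ones_rep N).mul_const c (by intro j _; norm_num; exact hc)
  simpa using this

theorem blk_rep {N x : ℕ} {F : ℕ → ℕ} (h : Rep 8 (24 * N) x F) {p : ℕ} (hp : p < 24) :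
    Rep 8 N (blk N x p) (fun j => F (N * p + j)) := by
  have e : 24 * N = N * p + (N + (23 - p) * N) := by
    have : 24 = p + (1 + (23 - p)) := by omega
    conv_lhs => rw [this]
    ring
  rw [e] at h
  have h1 := h.shiftRight
  have h2 := h1.low
  have e2 : blk N x p = (x >>> (8 * (N * p))) &&& (2 ^ (8 * N) - 1) := by
    unfold blk full
    change (x >>> (8 * N * p)) &&& (2 ^ (8 * N) - 1) = _
    rw [Nat.mul_assoc]
  rw [e2]
  exact h2

theorem sumB_rep {N x : ℕ} {F : ℕ → ℕ} (h : Rep 8 (24 * N) x F) (hF : ∀ q < 24 * N, F q ≤ 1)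
    (l : List ℕ) (hl : ∀ p ∈ l, p < 24) (hlen : l.length ≤ 24) :
    Rep 8 N (sumB N x l) (fun j => sumS (fun p => F (N * p + j)) l) := by
  induction l with
  | nil =>
    have := (const_rep N 0 (by norm_num))
    have e : Nat.mul 0 (ones N) = 0 := Nat.zero_mul _
    rw [e] at this
    exact this
  | cons p l ih =>
    have ih' := ih (fun q hq => hl q (by simp [hq])) (by simp at hlen; omega)
    have hb := blk_rep h (hl p (by simp))
    have hq : ∀ q ∈ p :: l, ∀ j < N, F (N * q + j) ≤ 1 := by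
      intro q hq j hj
      apply hF
      have hq24 := hl q hq
      calc N * q + j < N * q + N := by omega
        _ = N * (q + 1) := by ring
        _ ≤ N * 24 := Nat.mul_le_mul_left N (by omega)
        _ = 24 * N := by ring
    have hadd := hb.add ih' (by
      intro j hj
      have h1 := hq p (by simp) j hj
      have h2 := sumS_le_length (a := fun p => F (N * p + j)) (l := l)
        (fun q hq' => hq q (by simp [hq']) j hj)
      simp only [List.length_cons] at hlen
      norm_num
      omega)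
    exact hadd

theorem testBit_three_iff {v : ℕ} (hv : v < 16) : v.testBit 3 = decide (8 ≤ v) := by
  interval_cases v <;> decide

theorem testBit_five_iff {v : ℕ} (hv : v < 64) : v.testBit 5 = decide (32 ≤ v) := by
  interval_cases v <;> decide

theorem land_one_shift (v b : ℕ) : (v >>> b) &&& 1 = if v.testBit b then 1 else 0 := by
  rw [Nat.and_one_is_mod, Nat.testBit]
  rcases Nat.mod_two_eq_zero_or_one (v >>> b) with h | h
  · rw [h]
    simp [Nat.and_comm 1, Nat.and_one_is_mod, h]
  · rw [h]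
    simp [Nat.and_comm 1, Nat.and_one_is_mod, h]

theorem GP_rep {N m : ℕ} {M : ℕ → ℕ} (h : Rep 8 N m M) (hM : ∀ j < N, M j ≤ 24) (k : ℕ)
    (hk : k ≤ 32) (hk1 : 1 ≤ k) : Rep 8 N (GP N m k) (fun j => GS (M j) k) := by
  have h1 := h.add (const_rep N (32 - k) (by omega)) (by
    intro j hj
    have := hM j hj
    norm_num
    omega)
  have h2 := h1.shiftMask 5 (ones_rep N) (by norm_num) (by intro j _; norm_num)
  refine h2.congr ?_
  intro j hj
  have := hM j hj
  rw [land_one_shift, testBit_five_iff (by omega)]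
  unfold GS
  by_cases hkm : k ≤ M j
  · rw [if_pos hkm, if_pos]
    simp
    omega
  · rw [if_neg hkm, if_neg]
    simp
    omega

theorem orP_rep {N x : ℕ} {F : ℕ → ℕ} (h : Rep 8 (24 * N) x F) (hF : ∀ q < 24 * N, F q ≤ 1)
    (c : ℕ) (hc : c ≤ 8) (L : List (List ℕ)) (hL : ∀ l ∈ L, l ∈ ixs) :
    Rep 8 N (L.foldr (fun l s => Nat.lor (Nat.add (sumB N x l) (Nat.mul c (ones N))) s) 0)
      (fun j => L.foldr (fun l s => (sumS (fun p => F (N * p + j)) l + c) ||| s) 0) := by
  induction L with
  | nil =>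
    have := (const_rep N 0 (by norm_num))
    have e : Nat.mul 0 (ones N) = 0 := Nat.zero_mul _
    rw [e] at this
    exact this
  | cons l L ih =>
    have hl := hL l (by simp)
    have h1 := sumB_rep h hF l (ixs_lt l hl).2 (by rw [(ixs_lt l hl).1]; norm_num)
    have h2 := h1.add (const_rep N c (by omega)) (by
      intro j hj
      have := sumS_le_length (a := fun p => F (N * p + j)) (l := l) (by
        intro q hq
        apply hF
        have hq24 := (ixs_lt l hl).2 q hq
        calc N * q + j < N * q + N := by omega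
          _ = N * (q + 1) := by ring
          _ ≤ N * 24 := Nat.mul_le_mul_left N (by omega)
          _ = 24 * N := by ring)
      rw [(ixs_lt l hl).1] at this
      norm_num
      omega)
    exact h2.lor (ih fun l' hl' => hL l' (by simp [hl']))

theorem testBit_foldr_or (L : List (List ℕ)) (s : List ℕ → ℕ) (b : ℕ) :
    (L.foldr (fun l t => s l ||| t) 0).testBit b = L.any fun l => (s l).testBit b := by
  induction L with
  | nil => simp
  | cons l L ih => simp only [List.foldr_cons, Nat.testBit_or, ih, List.any_cons]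

theorem QP_rep {N x : ℕ} {F : ℕ → ℕ} (h : Rep 8 (24 * N) x F) (hF : ∀ q < 24 * N, F q ≤ 1)
    (k : ℕ) (hk : k ≤ 8) : Rep 8 N (QP N x k) (fun j => QS (fun p => F (N * p + j)) k) := by
  have h1 := orP_rep h hF (8 - k) (by omega) ixs (fun l hl => hl)
  have h2 := h1.shiftMask 3 (ones_rep N) (by norm_num) (by intro j _; norm_num)
  refine h2.congr ?_
  intro j hj
  rw [land_one_shift, testBit_foldr_or]
  unfold QS
  have hb : ∀ l ∈ ixs, (sumS (fun p => F (N * p + j)) l + (8 - k)).testBit 3 =
      decide (k ≤ sumS (fun p => F (N * p + j)) l) := by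
    intro l hl
    have := sumS_le_length (a := fun p => F (N * p + j)) (l := l) (by
      intro q hq
      apply hF
      have hq24 := (ixs_lt l hl).2 q hq
      calc N * q + j < N * q + N := by omega
        _ = N * (q + 1) := by ring
        _ ≤ N * 24 := Nat.mul_le_mul_left N (by omega)
        _ = 24 * N := by ring)
    rw [(ixs_lt l hl).1] at this
    by_cases hk2 : k ≤ 6
    · by_cases hk1 : 1 ≤ k ∨ sumS (fun p => F (N * p + j)) l + (8 - k) < 16
      · rw [testBit_three_iff (by omega)]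
        congr 1
        apply propext
        omega
      · rw [testBit_three_iff (by omega)]
        congr 1
        apply propext
        omega
    · rw [testBit_three_iff (by omega)]
      congr 1
      apply propext
      omega
  have hany : (ixs.any fun l => (sumS (fun p => F (N * p + j)) l + (8 - k)).testBit 3) = true ↔
      ∃ l ∈ ixs, k ≤ sumS (fun p => F (N * p + j)) l := by
    rw [List.any_eq_true]
    constructor
    · rintro ⟨l, hl, hl'⟩
      rw [hb l hl, decide_eq_true_eq] at hl'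
      exact ⟨l, hl, hl'⟩
    · rintro ⟨l, hl, hl'⟩
      exact ⟨l, hl, by rw [hb l hl, decide_eq_true_eq]; exact hl'⟩
  simp only [hany]

theorem WP_rep {N x : ℕ} {F : ℕ → ℕ} (h : Rep 8 (24 * N) x F) (hF : ∀ q < 24 * N, F q ≤ 1) :
    Rep 8 N (WP N x) (fun j => WS (fun p => F (N * p + j))) := by
  have hm : Rep 8 N (mP N x) (fun j => mS (fun p => F (N * p + j))) :=
    sumB_rep h hF all24 all24_lt (by decide)
  have hm24 : ∀ j < N, mS (fun p => F (N * p + j)) ≤ 24 := by
    intro j hj
    have := sumS_le_length (a := fun p => F (N * p + j)) (l := all24) (by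
      intro q hq
      apply hF
      have hq24 := all24_lt q hq
      calc N * q + j < N * q + N := by omega
        _ = N * (q + 1) := by ring
        _ ≤ N * 24 := Nat.mul_le_mul_left N (by omega)
        _ = 24 * N := by ring)
    exact this.trans (by decide)
  have hG : ∀ k, 1 ≤ k → k ≤ 32 → Rep 8 N (GP N (mP N x) k)
      (fun j => GS (mS (fun p => F (N * p + j))) k) := fun k h1 h2 => GP_rep hm hm24 k h2 h1
  have hGb : ∀ k j, GS (mS (fun p => F (N * p + j))) k ≤ 1 := fun k j => GS_le _ _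
  have hQb : ∀ k j, QS (fun p => F (N * p + j)) k ≤ 1 := fun k j => QS_le _ _
  have a1 := (hG 24 (by norm_num) (by norm_num)).mul_const 12 (by
    intro j hj; have := hGb 24 j; norm_num; omega)
  have a2 := ((hG 18 (by norm_num) (by norm_num)).mul_const 2 (by
    intro j hj; have := hGb 18 j; norm_num; omega)).add a1 (by
    intro j hj; have := hGb 18 j; have := hGb 24 j; norm_num; omega)
  have a3 := ((hG 14 (by norm_num) (by norm_num)).mul_const 4 (by
    intro j hj; have := hGb 14 j; norm_num; omega)).add a2 (by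
    intro j hj; have := hGb 14 j; have := hGb 18 j; have := hGb 24 j; norm_num; omega)
  have a4 := ((hG 11 (by norm_num) (by norm_num)).mul_const 3 (by
    intro j hj; have := hGb 11 j; norm_num; omega)).add a3 (by
    intro j hj; have := hGb 11 j; have := hGb 14 j; have := hGb 18 j; have := hGb 24 j
    norm_num; omega)
  have a5 := ((hG 9 (by norm_num) (by norm_num)).mul_const 3 (by
    intro j hj; have := hGb 9 j; norm_num; omega)).add a4 (by
    intro j hj; have := hGb 9 j; have := hGb 11 j; have := hGb 14 j; have := hGb 18 j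
    have := hGb 24 j; norm_num; omega)
  have a6 := (hm.mul_const 2 (by
    intro j hj; have := hm24 j hj; norm_num; omega)).add a5 (by
    intro j hj; have := hm24 j hj; have := hGb 9 j; have := hGb 11 j; have := hGb 14 j
    have := hGb 18 j; have := hGb 24 j; norm_num; omega)
  have b1 := (QP_rep h hF 6 (by norm_num)).mul_const 2 (by
    intro j hj; have := hQb 6 j; norm_num; omega)
  have b2 := (QP_rep h hF 4 (by norm_num)).add b1 (by
    intro j hj; have := hQb 6 j; have := hQb 4 j; norm_num; omega)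
  have b3 := (QP_rep h hF 3 (by norm_num)).add b2 (by
    intro j hj; have := hQb 6 j; have := hQb 4 j; have := hQb 3 j; norm_num; omega)
  have b4 := (QP_rep h hF 2 (by norm_num)).add b3 (by
    intro j hj; have := hQb 6 j; have := hQb 4 j; have := hQb 3 j; have := hQb 2 j
    norm_num; omega)
  have b5 := ((hG 12 (by norm_num) (by norm_num)).mul_const 3 (by
    intro j hj; have := hGb 12 j; norm_num; omega)).add b4 (by
    intro j hj; have := hQb 6 j; have := hQb 4 j; have := hQb 3 j; have := hQb 2 j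
    have := hGb 12 j; norm_num; omega)
  have b6 := ((hG 10 (by norm_num) (by norm_num)).mul_const 3 (by
    intro j hj; have := hGb 10 j; norm_num; omega)).add b5 (by
    intro j hj; have := hQb 6 j; have := hQb 4 j; have := hQb 3 j; have := hQb 2 j
    have := hGb 12 j; have := hGb 10 j; norm_num; omega)
  have b7 := (hG 1 (by norm_num) (by norm_num)).add b6 (by
    intro j hj; have := hQb 6 j; have := hQb 4 j; have := hQb 3 j; have := hQb 2 j
    have := hGb 12 j; have := hGb 10 j; have := hGb 1 j; norm_num; omega)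
  exact a6.sub b7 (fun j _ => WS_sub_le _)

end Pool.Agent.H86.Cafe
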