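import Pool.Agent.H86.Cafe.WStep

/-!
# Unrolled version of the packed lower bound
-/

set_option autoImplicit false

namespace Pool.Agent.H86.Cafe

/-- Group of six blocks. -/
def grp (N x g : ℕ) : ℕ :=
  Nat.land (Nat.shiftRight x (Nat.mul (Nat.mul 48 N) g)) (Nat.sub (Nat.pow 2 (Nat.mul 48 N)) 1)

/-- Block of a group. -/
def blq (N y p : ℕ) : ℕ := Nat.land (Nat.shiftRight y (Nat.mul (Nat.mul 8 N) p)) (full N)

def thr (o m k : ℕ) : ℕ :=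
  Nat.land (Nat.shiftRight (Nat.add m (Nat.mul (Nat.sub 32 k) o)) 5) o

def wfin (o m u v : ℕ) : ℕ :=
  Nat.sub (Nat.add (Nat.mul 2 m) (Nat.add (Nat.mul 3 (thr o m 9)) (Nat.add (Nat.mul 3 (thr o m
  11)) (Nat.add (Nat.mul 4 (thr o m 14)) (Nat.mul 2 (thr o m 18)))))) (Nat.add (thr o m 1)
  (Nat.add (Nat.mul 3 (thr o m 10)) (Nat.add (Nat.mul 3 (thr o m 12)) (Nat.add (Nat.lor
  (Nat.land (Nat.shiftRight u 1) o) (Nat.land (Nat.shiftRight u 2) o)) (Nat.add (Nat.lor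
  (Nat.land v o) (Nat.land (Nat.shiftRight u 2) o)) (Nat.add (Nat.land (Nat.shiftRight u 2) o)
  (Nat.mul 2 (Nat.land (Nat.shiftRight v 1) o))))))))

def w16 (o s0 s1 s2 s3 s4 s5 s6 s7 s8 s9 s10 s11 s12 s13 s14 s15 : ℕ) : ℕ :=
  wfin o (Nat.add s0 (Nat.add s4 (Nat.add s8 s12))) (Nat.lor s0 (Nat.lor s1 (Nat.lor s2 (Nat.lor
  s3 (Nat.lor s4 (Nat.lor s5 (Nat.lor s6 (Nat.lor s7 (Nat.lor s8 (Nat.lor s9 (Nat.lor s10
  (Nat.lor s11 (Nat.lor s12 (Nat.lor s13 (Nat.lor s14 (Nat.lor s15 0)))))))))))))))) (Nat.lor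
  (Nat.land (Nat.shiftRight s0 1) s0) (Nat.lor (Nat.land (Nat.shiftRight s1 1) s1) (Nat.lor
  (Nat.land (Nat.shiftRight s2 1) s2) (Nat.lor (Nat.land (Nat.shiftRight s3 1) s3) (Nat.lor
  (Nat.land (Nat.shiftRight s4 1) s4) (Nat.lor (Nat.land (Nat.shiftRight s5 1) s5) (Nat.lor
  (Nat.land (Nat.shiftRight s6 1) s6) (Nat.lor (Nat.land (Nat.shiftRight s7 1) s7) (Nat.lor
  (Nat.land (Nat.shiftRight s8 1) s8) (Nat.lor (Nat.land (Nat.shiftRight s9 1) s9) (Nat.lor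
  (Nat.land (Nat.shiftRight s10 1) s10) (Nat.lor (Nat.land (Nat.shiftRight s11 1) s11) (Nat.lor
  (Nat.land (Nat.shiftRight s12 1) s12) (Nat.lor (Nat.land (Nat.shiftRight s13 1) s13) (Nat.lor
  (Nat.land (Nat.shiftRight s14 1) s14) (Nat.lor (Nat.land (Nat.shiftRight s15 1) s15)
  0))))))))))))))))

def w24 (o b0 b1 b2 b3 b4 b5 b6 b7 b8 b9 b10 b11 b12 b13 b14 b15 b16 b17 b18 b19 b20 b21 b22
    b23 : ℕ) : ℕ :=
  w16 o (Nat.add b0 (Nat.add b1 (Nat.add b2 (Nat.add b3 (Nat.add b4 b5))))) (Nat.add b6 (Nat.add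
  b7 (Nat.add b12 (Nat.add b13 (Nat.add b18 b19))))) (Nat.add b8 (Nat.add b10 (Nat.add b14
  (Nat.add b16 (Nat.add b20 b22))))) (Nat.add b9 (Nat.add b11 (Nat.add b15 (Nat.add b17 (Nat.add
  b21 b23))))) (Nat.add b6 (Nat.add b7 (Nat.add b8 (Nat.add b9 (Nat.add b10 b11))))) (Nat.add b0
  (Nat.add b1 (Nat.add b14 (Nat.add b15 (Nat.add b20 b21))))) (Nat.add b2 (Nat.add b4 (Nat.add
  b12 (Nat.add b17 (Nat.add b18 b23))))) (Nat.add b3 (Nat.add b5 (Nat.add b13 (Nat.add b16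
  (Nat.add b19 b22))))) (Nat.add b12 (Nat.add b13 (Nat.add b14 (Nat.add b15 (Nat.add b16
  b17))))) (Nat.add b2 (Nat.add b3 (Nat.add b8 (Nat.add b9 (Nat.add b22 b23))))) (Nat.add b0
  (Nat.add b5 (Nat.add b6 (Nat.add b11 (Nat.add b19 b21))))) (Nat.add b1 (Nat.add b4 (Nat.add b7
  (Nat.add b10 (Nat.add b18 b20))))) (Nat.add b18 (Nat.add b19 (Nat.add b20 (Nat.add b21
  (Nat.add b22 b23))))) (Nat.add b4 (Nat.add b5 (Nat.add b10 (Nat.add b11 (Nat.add b16 b17)))))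
  (Nat.add b1 (Nat.add b3 (Nat.add b7 (Nat.add b9 (Nat.add b13 b15))))) (Nat.add b0 (Nat.add b2
  (Nat.add b6 (Nat.add b8 (Nat.add b12 b14)))))

def w4 (N y0 y1 y2 y3 : ℕ) : ℕ :=
  w24 (ones N) (blq N y0 0) (blq N y0 1) (blq N y0 2) (blq N y0 3) (blq N y0 4) (blq N y0 5)
  (blq N y1 0) (blq N y1 1) (blq N y1 2) (blq N y1 3) (blq N y1 4) (blq N y1 5) (blq N y2 0)
  (blq N y2 1) (blq N y2 2) (blq N y2 3) (blq N y2 4) (blq N y2 5) (blq N y3 0) (blq N y3 1)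
  (blq N y3 2) (blq N y3 3) (blq N y3 4) (blq N y3 5)

/-- Unrolled version of `WP` (without the last threshold). -/
def WP2 (N x : ℕ) : ℕ := w4 N (grp N x 0) (grp N x 1) (grp N x 2) (grp N x 3)

def m24 (b0 b1 b2 b3 b4 b5 b6 b7 b8 b9 b10 b11 b12 b13 b14 b15 b16 b17 b18 b19 b20 b21 b22
    b23 : ℕ) : ℕ :=
  (Nat.add b0 (Nat.add b1 (Nat.add b2 (Nat.add b3 (Nat.add b4 (Nat.add b5 (Nat.add b6 (Nat.add
  b7 (Nat.add b8 (Nat.add b9 (Nat.add b10 (Nat.add b11 (Nat.add b12 (Nat.add b13 (Nat.add b14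
  (Nat.add b15 (Nat.add b16 (Nat.add b17 (Nat.add b18 (Nat.add b19 (Nat.add b20 (Nat.add b21
  (Nat.add b22 b23)))))))))))))))))))))))

def m4 (N y0 y1 y2 y3 : ℕ) : ℕ :=
  m24 (blq N y0 0) (blq N y0 1) (blq N y0 2) (blq N y0 3) (blq N y0 4) (blq N y0 5) (blq N y1 0)
  (blq N y1 1) (blq N y1 2) (blq N y1 3) (blq N y1 4) (blq N y1 5) (blq N y2 0) (blq N y2 1)
  (blq N y2 2) (blq N y2 3) (blq N y2 4) (blq N y2 5) (blq N y3 0) (blq N y3 1) (blq N y3 2)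
  (blq N y3 3) (blq N y3 4) (blq N y3 5)

/-- Unrolled version of `mP`. -/
def mP2 (N x : ℕ) : ℕ := m4 N (grp N x 0) (grp N x 1) (grp N x 2) (grp N x 3)

theorem blq_eq (N x g p : ℕ) (hp : p < 6) : blq N (grp N x g) p = blk N x (6 * g + p) := by
  unfold blq grp blk full
  change (((x >>> (48 * N * g)) &&& (2 ^ (48 * N) - 1)) >>> (8 * N * p)) &&& (2 ^ (8 * N) - 1) =
    (x >>> (8 * N * (6 * g + p))) &&& (2 ^ (8 * N) - 1)
  apply Nat.eq_of_testBit_eq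
  intro i
  simp only [Nat.testBit_and, Nat.testBit_shiftRight, Nat.testBit_two_pow_sub_one]
  by_cases hi : i < 8 * N
  · have h1 : 8 * N * p + i < 48 * N := by
      calc 8 * N * p + i < 8 * N * p + 8 * N := by omega
        _ = 8 * N * (p + 1) := by ring
        _ ≤ 8 * N * 6 := Nat.mul_le_mul_left _ (by omega)
        _ = 48 * N := by ring
    have h2 : 48 * N * g + (8 * N * p + i) = 8 * N * (6 * g + p) + i := by ring
    simp only [hi, h1, h2, decide_true, Bool.and_true]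
  · simp only [hi, decide_false, Bool.and_false]

theorem mP2_eq (N x : ℕ) : mP2 N x = mP N x := by
  have h0 : ∀ a : ℕ, Nat.add a 0 = a := fun _ => rfl
  unfold mP2 m4
  simp only [blq_eq N x _ _ (show 0 < 6 by norm_num), blq_eq N x _ _ (show 1 < 6 by norm_num),
    blq_eq N x _ _ (show 2 < 6 by norm_num), blq_eq N x _ _ (show 3 < 6 by norm_num),
    blq_eq N x _ _ (show 4 < 6 by norm_num), blq_eq N x _ _ (show 5 < 6 by norm_num)]
  unfold m24 mP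
  simp only [all24, sumB, List.foldr_cons, List.foldr_nil, h0, Nat.mul_zero, Nat.mul_one,
    Nat.zero_add, Nat.add_zero, Nat.reduceMul, Nat.reduceAdd]

/-- The bitwise disjunction of the sums. -/
def uF (N x : ℕ) : ℕ := ixs.foldr (fun l s => Nat.lor (sumB N x l) s) 0

def vF (N x : ℕ) : ℕ :=
  ixs.foldr (fun l s => Nat.lor (Nat.land (Nat.shiftRight (sumB N x l) 1) (sumB N x l)) s) 0

theorem WP2_eq (N x : ℕ) : WP2 N x = wfin (ones N)
    (Nat.add (sumB N x [0, 1, 2, 3, 4, 5]) (Nat.add (sumB N x [6, 7, 8, 9, 10, 11])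
      (Nat.add (sumB N x [12, 13, 14, 15, 16, 17]) (sumB N x [18, 19, 20, 21, 22, 23]))))
    (uF N x) (vF N x) := by
  have h0 : ∀ a : ℕ, Nat.add a 0 = a := fun _ => rfl
  unfold WP2 w4
  simp only [blq_eq N x _ _ (show 0 < 6 by norm_num), blq_eq N x _ _ (show 1 < 6 by norm_num),
    blq_eq N x _ _ (show 2 < 6 by norm_num), blq_eq N x _ _ (show 3 < 6 by norm_num),
    blq_eq N x _ _ (show 4 < 6 by norm_num), blq_eq N x _ _ (show 5 < 6 by norm_num)]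
  unfold w24 w16 uF vF
  simp only [ixs, sumB, List.foldr_cons, List.foldr_nil, h0, Nat.mul_zero, Nat.mul_one,
    Nat.zero_add, Nat.add_zero, Nat.reduceMul, Nat.reduceAdd]

end Pool.Agent.H86.Cafe
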