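import Pool.Agent.H86.Cafe.Circuit2

/-!
# Correctness of the unrolled packed lower bound
-/

set_option autoImplicit false

namespace Pool.Agent.H86.Cafe

theorem mP2_rep {N x : ℕ} {F : ℕ → ℕ} (h : Rep 8 (24 * N) x F) (hF : ∀ q < 24 * N, F q ≤ 1) :
    Rep 8 N (mP2 N x) (fun j => mS (fun p => F (N * p + j))) := by
  rw [mP2_eq]
  exact mP_rep h hF

theorem foldr_lor_rep {N : ℕ} (L : List (List ℕ)) (g : List ℕ → ℕ) (G : List ℕ → ℕ → ℕ)
    (h : ∀ l ∈ L, Rep 8 N (g l) (G l)) :
    Rep 8 N (L.foldr (fun l s => Nat.lor (g l) s) 0)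
      (fun j => L.foldr (fun l s => G l j ||| s) 0) := by
  induction L with
  | nil =>
    have := (const_rep N 0 (by norm_num))
    have e : Nat.mul 0 (ones N) = 0 := Nat.zero_mul _
    rw [e] at this
    exact this
  | cons l L ih =>
    exact (h l (by simp)).lor (ih fun l' hl' => h l' (by simp [hl']))

theorem field_lt {N p j : ℕ} (hp : p < 24) (hj : j < N) : N * p + j < 24 * N := by
  calc N * p + j < N * p + N := by omega
    _ = N * (p + 1) := by ring
    _ ≤ N * 24 := Nat.mul_le_mul_left N (by omega)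
    _ = 24 * N := by ring

theorem ite_lor (b1 b2 : Bool) : ((if b1 then 1 else 0) ||| (if b2 then 1 else 0) : ℕ) =
    if (b1 || b2) then 1 else 0 := by
  cases b1 <;> cases b2 <;> rfl

theorem any_or (L : List (List ℕ)) (f g : List ℕ → Bool) :
    (L.any f || L.any g) = L.any fun l => (f l || g l) := by
  induction L with
  | nil => rfl
  | cons l L ih =>
    simp only [List.any_cons, ← ih]
    cases f l <;> cases g l <;> cases L.any f <;> cases L.any g <;> rfl

theorem QS_of_any (a : ℕ → ℕ) (k : ℕ) (f : List ℕ → Bool)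
    (h : ∀ l ∈ ixs, f l = decide (k ≤ sumS a l)) : (if ixs.any f then 1 else 0) = QS a k := by
  unfold QS
  have : (ixs.any f = true) ↔ ∃ l ∈ ixs, k ≤ sumS a l := by
    rw [List.any_eq_true]
    constructor
    · rintro ⟨l, hl, hl'⟩
      rw [h l hl, decide_eq_true_eq] at hl'
      exact ⟨l, hl, hl'⟩
    · rintro ⟨l, hl, hl'⟩
      exact ⟨l, hl, by rw [h l hl, decide_eq_true_eq]; exact hl'⟩
  simp only [this]

theorem WP2_rep {N x : ℕ} {F : ℕ → ℕ} (h : Rep 8 (24 * N) x F) (hF : ∀ q < 24 * N, F q ≤ 1)
    (hm18 : ∀ j < N, mS (fun p => F (N * p + j)) ≤ 18) :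
    Rep 8 N (WP2 N x) (fun j => WS (fun p => F (N * p + j))) := by
  rw [WP2_eq]
  have hs : ∀ l ∈ ixs, Rep 8 N (sumB N x l) (fun j => sumS (fun p => F (N * p + j)) l) :=
    fun l hl => sumB_rep h hF l (ixs_lt l hl).2 (by rw [(ixs_lt l hl).1]; norm_num)
  have hs6 : ∀ j < N, ∀ l ∈ ixs, sumS (fun p => F (N * p + j)) l ≤ 6 := by
    intro j hj l hl
    have := sumS_le_length (a := fun p => F (N * p + j)) (l := l) (by
      intro q hq
      exact hF _ (field_lt ((ixs_lt l hl).2 q hq) hj))
    rw [(ixs_lt l hl).1] at this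
    exact this
  have i0 : ([0, 1, 2, 3, 4, 5] : List ℕ) ∈ ixs := by decide
  have i1 : ([6, 7, 8, 9, 10, 11] : List ℕ) ∈ ixs := by decide
  have i2 : ([12, 13, 14, 15, 16, 17] : List ℕ) ∈ ixs := by decide
  have i3 : ([18, 19, 20, 21, 22, 23] : List ℕ) ∈ ixs := by decide
  have hm := (hs _ i0).add ((hs _ i1).add ((hs _ i2).add (hs _ i3) (by
    intro j hj
    have := hs6 j hj _ i2; have := hs6 j hj _ i3; norm_num; omega)) (by
    intro j hj
    have := hs6 j hj _ i1; have := hs6 j hj _ i2; have := hs6 j hj _ i3; norm_num; omega)) (by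
    intro j hj
    have := hs6 j hj _ i0; have := hs6 j hj _ i1; have := hs6 j hj _ i2
    have := hs6 j hj _ i3; norm_num; omega)
  have hm' := hm.congr (g := fun j => mS (fun p => F (N * p + j))) (by
    intro j _
    simp only [mS, sumS, all24, List.foldr_cons, List.foldr_nil]
    ring)
  have hu : Rep 8 N (uF N x) (fun j => ixs.foldr
      (fun l s => sumS (fun p => F (N * p + j)) l ||| s) 0) :=
    foldr_lor_rep ixs (fun l => sumB N x l) (fun l j => sumS (fun p => F (N * p + j)) l) hs
  have hv : Rep 8 N (vF N x) (fun j => ixs.foldr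
      (fun l s => ((sumS (fun p => F (N * p + j)) l >>> 1) &&&
        sumS (fun p => F (N * p + j)) l) ||| s) 0) :=
    foldr_lor_rep ixs (fun l => Nat.land (Nat.shiftRight (sumB N x l) 1) (sumB N x l))
      (fun l j => (sumS (fun p => F (N * p + j)) l >>> 1) &&& sumS (fun p => F (N * p + j)) l)
      (fun l hl => (hs l hl).shiftMask 1 (hs l hl) (by norm_num) (by
        intro j hj
        have := hs6 j hj l hl
        norm_num
        omega))
  have ho := ones_rep N
  have hm24 : ∀ j < N, mS (fun p => F (N * p + j)) ≤ 24 := fun j hj => (hm18 j hj).trans (by norm_num)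
  have hG : ∀ k, 1 ≤ k → k ≤ 32 → Rep 8 N (thr (ones N)
      (Nat.add (sumB N x [0, 1, 2, 3, 4, 5]) (Nat.add (sumB N x [6, 7, 8, 9, 10, 11])
      (Nat.add (sumB N x [12, 13, 14, 15, 16, 17]) (sumB N x [18, 19, 20, 21, 22, 23])))) k)
      (fun j => GS (mS (fun p => F (N * p + j))) k) := fun k h1 h2 => GP_rep hm' hm24 k h2 h1
  have hGb : ∀ k j, GS (mS (fun p => F (N * p + j))) k ≤ 1 := fun k j => GS_le _ _
  have hQb : ∀ k j, QS (fun p => F (N * p + j)) k ≤ 1 := fun k j => QS_le _ _
  -- the thresholds of the sums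
  have u1 := (hu.shiftMask 1 ho (by norm_num) (by intro j _; norm_num))
  have u2 := (hu.shiftMask 2 ho (by norm_num) (by intro j _; norm_num))
  have v0 := hv.land ho
  have v1 := (hv.shiftMask 1 ho (by norm_num) (by intro j _; norm_num))
  have bits : ∀ s : ℕ, s ≤ 6 → (s.testBit 2 = decide (4 ≤ s) ∧
      (s.testBit 1 || s.testBit 2) = decide (2 ≤ s) ∧
      (((s >>> 1) &&& s).testBit 0 || s.testBit 2) = decide (3 ≤ s) ∧
      ((s >>> 1) &&& s).testBit 1 = decide (6 ≤ s)) := by
    intro s hs
    interval_cases s <;> decide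
  have q4 := u2.congr (g := fun j => QS (fun p => F (N * p + j)) 4) (by
    intro j hj
    rw [land_one_shift, testBit_foldr_or]
    exact QS_of_any _ _ _ fun l hl => (bits _ (hs6 j hj l hl)).1)
  have q6 := v1.congr (g := fun j => QS (fun p => F (N * p + j)) 6) (by
    intro j hj
    rw [land_one_shift, testBit_foldr_or]
    exact QS_of_any _ _ _ fun l hl => (bits _ (hs6 j hj l hl)).2.2.2)
  have q2 := (u1.lor u2).congr (g := fun j => QS (fun p => F (N * p + j)) 2) (by
    intro j hj
    rw [land_one_shift, land_one_shift, testBit_foldr_or, testBit_foldr_or, ite_lor, any_or]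
    exact QS_of_any _ _ _ fun l hl => (bits _ (hs6 j hj l hl)).2.1)
  have q3 := (v0.lor u2).congr (g := fun j => QS (fun p => F (N * p + j)) 3) (by
    intro j hj
    have e : ∀ z : ℕ, z &&& 1 = if z.testBit 0 then 1 else 0 := fun z => by
      have := land_one_shift z 0
      rw [Nat.shiftRight_zero] at this
      exact this
    rw [land_one_shift, e, testBit_foldr_or, testBit_foldr_or, ite_lor, any_or]
    exact QS_of_any _ _ _ fun l hl => (bits _ (hs6 j hj l hl)).2.2.1)
  have a2 := (hG 18 (by norm_num) (by norm_num)).mul_const 2 (by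
    intro j hj; have := hGb 18 j; norm_num; omega)
  have a3 := ((hG 14 (by norm_num) (by norm_num)).mul_const 4 (by
    intro j hj; have := hGb 14 j; norm_num; omega)).add a2 (by
    intro j hj; have := hGb 14 j; have := hGb 18 j; norm_num; omega)
  have a4 := ((hG 11 (by norm_num) (by norm_num)).mul_const 3 (by
    intro j hj; have := hGb 11 j; norm_num; omega)).add a3 (by
    intro j hj; have := hGb 11 j; have := hGb 14 j; have := hGb 18 j; norm_num; omega)
  have a5 := ((hG 9 (by norm_num) (by norm_num)).mul_const 3 (by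
    intro j hj; have := hGb 9 j; norm_num; omega)).add a4 (by
    intro j hj; have := hGb 9 j; have := hGb 11 j; have := hGb 14 j; have := hGb 18 j
    norm_num; omega)
  have a6 := (hm'.mul_const 2 (by
    intro j hj; have := hm24 j hj; norm_num; omega)).add a5 (by
    intro j hj; have := hm24 j hj; have := hGb 9 j; have := hGb 11 j; have := hGb 14 j
    have := hGb 18 j; norm_num; omega)
  have b1 := q6.mul_const 2 (by
    intro j hj; have := hQb 6 j; norm_num; omega)
  have b2 := q4.add b1 (by
    intro j hj; have := hQb 6 j; have := hQb 4 j; norm_num; omega)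
  have b3 := q3.add b2 (by
    intro j hj; have := hQb 6 j; have := hQb 4 j; have := hQb 3 j; norm_num; omega)
  have b4 := q2.add b3 (by
    intro j hj; have := hQb 6 j; have := hQb 4 j; have := hQb 3 j; have := hQb 2 j
    norm_num; omega)
  have b5 := ((hG 12 (by norm_num) (by norm_num)).mul_const 3 (by
    intro j hj; have := hGb 12 j; norm_num; omega)).add b4 (by
    intro j hj; have := hQb 6 j; have := hQb 4 j; have := hQb 3 j; have := hQb 2 j
    have := hGb 12 j; norm_num; omega)
  have b6 := ((hG 10 (by norm_num) (by norm_num)).mul_const 3 (by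
    intro j hj; have := hGb 10 j; norm_num; omega)).add b5 (by
    intro j hj; have := hQb 6 j; have := hQb 4 j; have := hQb 3 j; have := hQb 2 j
    have := hGb 12 j; have := hGb 10 j; norm_num; omega)
  have b7 := (hG 1 (by norm_num) (by norm_num)).add b6 (by
    intro j hj; have := hQb 6 j; have := hQb 4 j; have := hQb 3 j; have := hQb 2 j
    have := hGb 12 j; have := hGb 10 j; have := hGb 1 j; norm_num; omega)
  have h24 : ∀ j < N, GS (mS (fun p => F (N * p + j))) 24 = 0 := by
    intro j hj
    have := hm18 j hj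
    unfold GS
    rw [if_neg]
    omega
  have hfin := a6.sub b7 (fun j hj => by
    have h1 := WS_sub_le (fun p => F (N * p + j))
    rw [h24 j hj] at h1
    simpa using h1)
  refine Rep.congr hfin ?_
  intro j hj
  unfold WS
  rw [h24 j hj, Nat.mul_zero, Nat.add_zero]

end Pool.Agent.H86.Cafe
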