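import Pool.Agent.H86.Cafe.Defs

set_option autoImplicit false

open MeasureTheory
open scoped ENNReal

namespace Pool.Agent.H86.Cafe

theorem meetTime_perm {C : Type} (σ τ : Equiv.Perm C) (x y : ℕ → C) :
    meetTime (fun t => σ (x t)) (fun t => τ (y t)) =
      meetTime x (fun t => (σ⁻¹ * τ) (y t)) := by
  unfold meetTime
  refine iInf_congr fun t => ?_
  have h : (σ (x t) = τ (y t)) ↔ (x t = (σ⁻¹ * τ) (y t)) := by
    rw [Equiv.Perm.mul_apply, Equiv.Perm.eq_inv_iff_eq]
  simp only [h]

/-- One step: if the players meet on the first day the time is `1`, otherwise one day is lost. -/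
theorem meetTime_succ {C : Type} [DecidableEq C] (x y : ℕ → C) :
    meetTime x y = if x 0 = y 0 then 1 else
      1 + meetTime (fun t => x (t + 1)) (fun t => y (t + 1)) := by
  unfold meetTime
  rw [← inf_iInf_nat_succ (fun t => ⨅ (_ : x t = y t), ((t : ℝ≥0∞) + 1))]
  by_cases h : x 0 = y 0
  · simp only [h, iInf_pos, Nat.cast_zero, zero_add, if_true]
    apply inf_eq_left.2
    refine le_iInf fun t => le_iInf fun _ => ?_
    push_cast
    exact le_add_self
  · simp only [h, iInf_false, le_top, inf_of_le_right, if_false]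
    rw [ENNReal.add_iInf]
    refine iInf_congr fun t => ?_
    by_cases h' : x (t + 1) = y (t + 1)
    · simp only [h', iInf_pos]
      push_cast
      ring
    · simp [h']

theorem one_le_meetTime {C : Type} (x y : ℕ → C) : 1 ≤ meetTime x y := by
  unfold meetTime
  refine le_iInf fun t => le_iInf fun _ => ?_
  exact le_add_self

/-- The expected time for the full symmetric group. -/
theorem expectedTime_univ {C : Type} [Fintype C] [DecidableEq C] [MeasurableSpace C]
    (μ : Measure (ℕ → C)) :
    expectedTime (Finset.univ : Finset (Equiv.Perm C)) μ =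
      ∫⁻ x, ∫⁻ y, cost x y / (Fintype.card (Equiv.Perm C) : ℝ≥0∞) ∂μ ∂μ := by
  unfold expectedTime cost
  have hc : (Fintype.card (Equiv.Perm C) : ℝ≥0∞) ≠ 0 := by
    simp [Fintype.card_ne_zero]
  have hct : (Fintype.card (Equiv.Perm C) : ℝ≥0∞) ≠ ∞ := ENNReal.natCast_ne_top _
  refine lintegral_congr fun x => lintegral_congr fun y => ?_
  have h1 : ∑ σ : Equiv.Perm C, ∑ τ : Equiv.Perm C,
      meetTime (fun t => σ (x t)) (fun t => τ (y t)) =
      (Fintype.card (Equiv.Perm C) : ℝ≥0∞) *
        ∑ π : Equiv.Perm C, meetTime x (fun t => π (y t)) := by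
    have h2 : ∀ σ : Equiv.Perm C, ∑ τ : Equiv.Perm C,
        meetTime (fun t => σ (x t)) (fun t => τ (y t)) =
        ∑ π : Equiv.Perm C, meetTime x (fun t => π (y t)) := by
      intro σ
      simp only [meetTime_perm]
      exact Equiv.sum_comp (Equiv.mulLeft σ⁻¹)
        (fun π : Equiv.Perm C => meetTime x (fun t => π (y t)))
    rw [Finset.sum_congr rfl fun σ _ => h2 σ, Finset.sum_const, Finset.card_univ, nsmul_eq_mul]
  rw [h1, Finset.card_univ, sq, ENNReal.mul_div_mul_left _ _ hc hct]

/-- `cost` does not depend on the labellings. -/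
theorem cost_relabel {C : Type} [Fintype C] [DecidableEq C] (ρ ρ' : C ≃ Fin 4) (x y : ℕ → C) :
    cost x y = cost (fun t => ρ (x t)) (fun t => ρ' (y t)) := by
  unfold cost
  refine Fintype.sum_equiv (Equiv.equivCongr ρ' ρ) _ _ ?_
  intro π
  unfold meetTime
  refine iInf_congr fun t => ?_
  have h : (x t = π (y t)) ↔ (ρ (x t) = (Equiv.equivCongr ρ' ρ π) (ρ' (y t))) := by
    simp [Equiv.equivCongr]
  simp only [h]

end Pool.Agent.H86.Cafe
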