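import Pool.Agent.H86.Cafe.WStep
import Pool.Agent.H86.Cafe.Game

/-!
# The remaining cost of two sequences
-/

set_option autoImplicit false

open scoped ENNReal

namespace Pool.Agent.H86.Cafe

/-- Sum of the meeting times over the relabellings which are not excluded by `E`. -/
noncomputable def rem (E : ℕ) (u v : ℕ → Fin 4) : ℝ≥0∞ :=
  ∑ p ∈ Finset.range 24,
    (al E p : ℝ≥0∞) * meetTime (fun t => ((u t : Fin 4) : ℕ)) (fun t => pv p (v t))

theorem mS_eq (a : ℕ → ℕ) : mS a = ∑ p ∈ Finset.range 24, a p := by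
  simp only [mS, sumS, all24, List.foldr_cons, List.foldr_nil, Finset.sum_range_succ,
    Finset.range_zero, Finset.sum_empty]
  ring

theorem al_lor (E a c p : ℕ) (ha : a < 4) (hc : c < 4) (hp : p < 24) :
    al (E ||| 2 ^ (4 * a + c)) p = al E p &&& (if pv p c = a then 0 else 1) := by
  have hpv : ∀ p < 24, ∀ b < 4, pv p b < 4 := by decide
  have h0 := hpv p hp 0 (by norm_num)
  have h1 := hpv p hp 1 (by norm_num)
  have h2 := hpv p hp 2 (by norm_num)
  have h3 := hpv p hp 3 (by norm_num)
  unfold al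
  simp only [Nat.testBit_or, Nat.testBit_two_pow]
  generalize E.testBit (4 * pv p 0 + 0) = t0
  generalize E.testBit (4 * pv p 1 + 1) = t1
  generalize E.testBit (4 * pv p 2 + 2) = t2
  generalize E.testBit (4 * pv p 3 + 3) = t3
  have hcs : c = 0 ∨ c = 1 ∨ c = 2 ∨ c = 3 := by omega
  rcases hcs with rfl | rfl | rfl | rfl
  · generalize pv p 0 = b0 at *
    have e1 : (4 * a + 0 = 4 * pv p 1 + 1) = False := by simp; omega
    have e2 : (4 * a + 0 = 4 * pv p 2 + 2) = False := by simp; omega
    have e3 : (4 * a + 0 = 4 * pv p 3 + 3) = False := by simp; omega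
    have e0 : (4 * a + 0 = 4 * b0 + 0) = (b0 = a) := by apply propext; omega
    simp only [e0, e1, e2, e3]
    by_cases hb : b0 = a <;> simp only [hb, if_true, if_false, decide_true, decide_false,
      Bool.or_true, Bool.or_false] <;> cases t0 <;> cases t1 <;> cases t2 <;> cases t3 <;> rfl
  · generalize pv p 1 = b1 at *
    have e1 : (4 * a + 1 = 4 * b1 + 1) = (b1 = a) := by apply propext; omega
    have e2 : (4 * a + 1 = 4 * pv p 2 + 2) = False := by simp; omega
    have e3 : (4 * a + 1 = 4 * pv p 3 + 3) = False := by simp; omega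
    have e0 : (4 * a + 1 = 4 * pv p 0 + 0) = False := by simp; omega
    simp only [e0, e1, e2, e3]
    by_cases hb : b1 = a <;> simp only [hb, if_true, if_false, decide_true, decide_false,
      Bool.or_true, Bool.or_false] <;> cases t0 <;> cases t1 <;> cases t2 <;> cases t3 <;> rfl
  · generalize pv p 2 = b2 at *
    have e1 : (4 * a + 2 = 4 * pv p 1 + 1) = False := by simp; omega
    have e2 : (4 * a + 2 = 4 * b2 + 2) = (b2 = a) := by apply propext; omega
    have e3 : (4 * a + 2 = 4 * pv p 3 + 3) = False := by simp; omega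
    have e0 : (4 * a + 2 = 4 * pv p 0 + 0) = False := by simp; omega
    simp only [e0, e1, e2, e3]
    by_cases hb : b2 = a <;> simp only [hb, if_true, if_false, decide_true, decide_false,
      Bool.or_true, Bool.or_false] <;> cases t0 <;> cases t1 <;> cases t2 <;> cases t3 <;> rfl
  · generalize pv p 3 = b3 at *
    have e1 : (4 * a + 3 = 4 * pv p 1 + 1) = False := by simp; omega
    have e2 : (4 * a + 3 = 4 * pv p 2 + 2) = False := by simp; omega
    have e3 : (4 * a + 3 = 4 * b3 + 3) = (b3 = a) := by apply propext; omega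
    have e0 : (4 * a + 3 = 4 * pv p 0 + 0) = False := by simp; omega
    simp only [e0, e1, e2, e3]
    by_cases hb : b3 = a <;> simp only [hb, if_true, if_false, decide_true, decide_false,
      Bool.or_true, Bool.or_false] <;> cases t0 <;> cases t1 <;> cases t2 <;> cases t3 <;> rfl

theorem al_zero_or_one (E p : ℕ) : al E p = 0 ∨ al E p = 1 := by
  have := al_le E p
  omega

theorem rem_succ (E : ℕ) (u v : ℕ → Fin 4) :
    rem E u v = (mS (al E) : ℝ≥0∞) +
      rem (E ||| 2 ^ (4 * (u 0 : ℕ) + (v 0 : ℕ))) (fun t => u (t + 1)) (fun t => v (t + 1)) := by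
  unfold rem
  rw [mS_eq, Nat.cast_sum, ← Finset.sum_add_distrib]
  refine Finset.sum_congr rfl fun p hp => ?_
  rw [meetTime_succ, al_lor E (u 0) (v 0) p (u 0).2 (v 0).2 (Finset.mem_range.1 hp)]
  by_cases h : ((u 0 : Fin 4) : ℕ) = pv p (v 0)
  · rcases al_zero_or_one E p with h1 | h1
    · simp [h, h1]
    · simp [h, h1]
  · have h' : ¬ (pv p (v 0) = ((u 0 : Fin 4) : ℕ)) := fun e => h e.symm
    rcases al_zero_or_one E p with h1 | h1
    · simp [h, h', h1]
    · simp [h, h', h1]

theorem WS_zero {a : ℕ → ℕ} (h : mS a = 0) : WS a = 0 := by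
  unfold WS
  have hG : ∀ k, 1 ≤ k → GS (mS a) k = 0 := by
    intro k hk
    unfold GS
    rw [if_neg]
    omega
  rw [hG 9 (by norm_num), hG 11 (by norm_num), hG 14 (by norm_num), hG 18 (by norm_num),
    hG 24 (by norm_num), h]
  simp

theorem lor_lt {E : ℕ} (hE : E < 65536) (u v : Fin 4) :
    E ||| 2 ^ (4 * (u : ℕ) + (v : ℕ)) < 65536 := by
  have h1 : E < 2 ^ 16 := hE
  have h2 : 2 ^ (4 * (u : ℕ) + (v : ℕ)) < 2 ^ 16 :=
    Nat.pow_lt_pow_right (by norm_num) (by have := u.2; have := v.2; omega)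
  exact Nat.or_lt_two_pow h1 h2

theorem WS_le_rem_aux (k : ℕ) : ∀ (E : ℕ), E < 65536 → ∀ u v : ℕ → Fin 4,
    (WS (al E) : ℝ≥0∞) ≤ rem E u v ∨ (k : ℝ≥0∞) ≤ rem E u v := by
  induction k with
  | zero => intro E _ u v; right; simp
  | succ k ih =>
    intro E hE u v
    rcases Nat.eq_zero_or_pos (mS (al E)) with hm | hm
    · left
      rw [WS_zero hm]
      simp
    · rw [rem_succ]
      have hlt := lor_lt hE (u 0) (v 0)
      rcases ih _ hlt (fun t => u (t + 1)) (fun t => v (t + 1)) with h | h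
      · left
        have h1 := WS_lor E hE (4 * (u 0 : ℕ) + (v 0 : ℕ)) (by
          have := (u 0).2; have := (v 0).2; omega)
        calc (WS (al E) : ℝ≥0∞)
            ≤ ((mS (al E) + WS (al (E ||| 2 ^ (4 * (u 0 : ℕ) + (v 0 : ℕ)))) : ℕ) : ℝ≥0∞) := by
              exact_mod_cast h1
          _ = (mS (al E) : ℝ≥0∞) + (WS (al (E ||| 2 ^ (4 * (u 0 : ℕ) + (v 0 : ℕ)))) : ℝ≥0∞) := by
              push_cast; rfl
          _ ≤ _ := by gcongr
      · right
        calc ((k + 1 : ℕ) : ℝ≥0∞) = 1 + (k : ℝ≥0∞) := by push_cast; ring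
          _ ≤ (mS (al E) : ℝ≥0∞) + _ := by
              gcongr
              exact_mod_cast hm

theorem WS_le_rem {E : ℕ} (hE : E < 65536) (u v : ℕ → Fin 4) :
    (WS (al E) : ℝ≥0∞) ≤ rem E u v := by
  rcases WS_le_rem_aux (WS (al E)) E hE u v with h | h <;> exact h

/-- One day: excluded pairs and accumulated cost. -/
def stp (q ab : ℕ × ℕ) : ℕ × ℕ := (q.1 ||| 2 ^ (4 * ab.1 + ab.2), q.2 + mS (al q.1))

/-- State after the days `2, 3, …` of two finite sequences (on the first day both are at `0`). -/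
def stf (as bs : List ℕ) : ℕ × ℕ := (List.zip as bs).foldl stp (1, 0)

/-- The lower bound for the cost after the first day. -/
def AS (as bs : List ℕ) : ℕ := (stf as bs).2 + WS (al (stf as bs).1)

theorem foldl_le (l : List (ℕ × ℕ)) : ∀ (E A : ℕ), E < 65536 → ∀ u v : ℕ → Fin 4,
    (∀ (t : ℕ) (ht : t < l.length), ((u t : Fin 4) : ℕ) = (l[t]).1 ∧
      ((v t : Fin 4) : ℕ) = (l[t]).2) →
    (((l.foldl stp (E, A)).2 + WS (al (l.foldl stp (E, A)).1) : ℕ) : ℝ≥0∞) ≤
      (A : ℝ≥0∞) + rem E u v := by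
  induction l with
  | nil =>
    intro E A hE u v _
    simp only [List.foldl_nil]
    push_cast
    gcongr
    exact WS_le_rem hE u v
  | cons q l ih =>
    intro E A hE u v h
    have h0 := h 0 (by simp)
    simp only [List.getElem_cons_zero] at h0
    rw [List.foldl_cons]
    have e : stp (E, A) q = (E ||| 2 ^ (4 * (u 0 : ℕ) + (v 0 : ℕ)), A + mS (al E)) := by
      unfold stp
      rw [h0.1, h0.2]
    rw [e]
    have := ih _ (A + mS (al E)) (lor_lt hE (u 0) (v 0)) (fun t => u (t + 1))
      (fun t => v (t + 1)) (by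
        intro t ht
        have := h (t + 1) (by simpa using ht)
        simpa using this)
    refine this.trans ?_
    rw [rem_succ E u v]
    push_cast
    rw [add_assoc]

/-- The permutation number `p`. -/
noncomputable def permOf (p : Fin 24) : Equiv.Perm (Fin 4) :=
  Equiv.ofBijective (fun b : Fin 4 => (⟨pv p b % 4, Nat.mod_lt _ (by norm_num)⟩ : Fin 4))
    (by revert p; decide)

theorem permOf_val (p : Fin 24) (b : Fin 4) : ((permOf p b : Fin 4) : ℕ) = pv p b := by
  unfold permOf
  rw [Equiv.ofBijective_apply]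
  revert p b
  decide

theorem permOf_injective : Function.Injective permOf := by
  intro p q h
  have h1 : ∀ b : Fin 4, pv p b = pv q b := fun b => by
    rw [← permOf_val, ← permOf_val, h]
  revert p q
  have key : ∀ p q : Fin 24, (∀ b : Fin 4, pv p b = pv q b) → p = q := by decide
  intro p q _ h1
  exact key p q h1

theorem rem_zero_le (u v : ℕ → Fin 4) : rem 0 u v ≤ cost u v := by
  unfold rem cost
  rw [Finset.sum_range]
  have h1 : ∀ p : Fin 24, (al 0 (p : ℕ) : ℝ≥0∞) *
      meetTime (fun t => ((u t : Fin 4) : ℕ)) (fun t => pv p (v t)) =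
      meetTime u (fun t => permOf p (v t)) := by
    intro p
    have h2 : al 0 (p : ℕ) = 1 := by revert p; decide
    rw [h2, Nat.cast_one, one_mul]
    unfold meetTime
    refine iInf_congr fun t => ?_
    have h3 : (((u t : Fin 4) : ℕ) = pv p (v t)) ↔ (u t = permOf p (v t)) := by
      rw [← permOf_val, Fin.val_inj]
    simp only [h3]
  rw [Finset.sum_congr rfl fun p _ => h1 p]
  calc ∑ p : Fin 24, meetTime u (fun t => permOf p (v t))
      = ∑ π ∈ Finset.univ.image permOf, meetTime u (fun t => π (v t)) := by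
        rw [Finset.sum_image fun p _ q _ h => permOf_injective h]
    _ ≤ ∑ π : Equiv.Perm (Fin 4), meetTime u (fun t => π (v t)) :=
        Finset.sum_le_sum_of_subset (Finset.subset_univ _)

/-- The lower bound for the cost of two sequences from finitely many of their values. -/
theorem AS_le_cost (u v : ℕ → Fin 4) (hu : u 0 = 0) (hv : v 0 = 0) (as bs : List ℕ)
    (ha : ∀ (t : ℕ) (ht : t < as.length), ((u (t + 1) : Fin 4) : ℕ) = as[t])
    (hb : ∀ (t : ℕ) (ht : t < bs.length), ((v (t + 1) : Fin 4) : ℕ) = bs[t]) :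
    ((24 + AS as bs : ℕ) : ℝ≥0∞) ≤ cost u v := by
  refine le_trans ?_ (rem_zero_le u v)
  rw [rem_succ, hu, hv]
  have h1 := foldl_le (List.zip as bs) 1 0 (by norm_num) (fun t => u (t + 1))
    (fun t => v (t + 1)) (by
      intro t ht
      rw [List.length_zip] at ht
      rw [List.getElem_zip]
      exact ⟨ha t (by omega), hb t (by omega)⟩)
  have h2 : mS (al 0) = 24 := by decide
  rw [h2]
  push_cast
  have e : (0 : ℕ) ||| 2 ^ (4 * ((0 : Fin 4) : ℕ) + ((0 : Fin 4) : ℕ)) = 1 := by decide
  rw [e]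
  gcongr
  unfold AS stf
  simpa using h1

theorem cost_comm {C : Type} [Fintype C] [DecidableEq C] (x y : ℕ → C) : cost x y = cost y x := by
  unfold cost
  rw [← Equiv.sum_comp (Equiv.inv (Equiv.Perm C))]
  refine Finset.sum_congr rfl fun π _ => ?_
  unfold meetTime
  refine iInf_congr fun t => ?_
  have h : (x t = (Equiv.inv (Equiv.Perm C)) π (y t)) ↔ (y t = π (x t)) := by
    rw [Equiv.inv_apply, Equiv.Perm.eq_inv_iff_eq]
    exact eq_comm
  simp only [h]

end Pool.Agent.H86.Cafe
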