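import Mathlib

/-!
# Café rendezvous: definitions

`meetTime x y` is the day of the first meeting of two players whose sequences of (true) café
positions are `x` and `y` (day `t + 1` is index `t`); it is `∞` if they never meet.
`expectedTime G μ` is the expected meeting time when both players draw their sequences from `μ`
and relabel the cafés by independent uniform elements of `G`.
-/

set_option autoImplicit false

open MeasureTheory
open scoped ENNReal

namespace Pool.Agent.H86.Cafe

/-- The first day on which the two sequences agree (day `t + 1` for the index `t`). -/
noncomputable def meetTime {C : Type} (x y : ℕ → C) : ℝ≥0∞ :=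
  ⨅ (t : ℕ) (_ : x t = y t), ((t : ℝ≥0∞) + 1)

/-- The expected meeting time of two players who both use the law `μ` on sequences of labels and
whose labellings are independent uniform elements of `G`. -/
noncomputable def expectedTime {C : Type} [MeasurableSpace C] (G : Finset (Equiv.Perm C))
    (μ : Measure (ℕ → C)) : ℝ≥0∞ :=
  ∫⁻ x, ∫⁻ y, (∑ σ ∈ G, ∑ τ ∈ G, meetTime (fun t => σ (x t)) (fun t => τ (y t))) /
    (G.card : ℝ≥0∞) ^ 2 ∂μ ∂μ

/-- Sum of the meeting times over all relative relabellings. -/
noncomputable def cost {C : Type} [Fintype C] [DecidableEq C] (x y : ℕ → C) : ℝ≥0∞ :=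
  ∑ π : Equiv.Perm C, meetTime x (fun t => π (y t))

/-- Restricted growth: every label smaller than `u t` has occurred before time `t`. -/
def RG (u : ℕ → Fin 4) : Prop := ∀ (t : ℕ) (c : Fin 4), c < u t → ∃ s < t, u s = c

open Classical in
/-- The rank of `x t` in the order of first appearance: the number of distinct values taken
strictly before the first visit of `x t`. -/
noncomputable def rk {C : Type} (x : ℕ → C) (t : ℕ) : ℕ :=
  ((Finset.range (Nat.find (⟨t, rfl⟩ : ∃ s, x s = x t))).image x).card

end Pool.Agent.H86.Cafe
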