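import Pool.Agent.H86.Cafe.Defs

/-!
# Café rendezvous: normal form of a sequence

Every sequence in a set of four cafés can be relabelled by a bijection to `Fin 4` in the order of
first appearance; the label of `x t` is then the rank `rk x t`.
-/

set_option autoImplicit false

namespace Pool.Agent.H86.Cafe

open Classical in
/-- First hitting time of `c`. -/
private noncomputable def normTau {C : Type} (x : ℕ → C) (c : C) : ℕ∞ :=
  if h : ∃ s, x s = c then ((Nat.find h : ℕ) : ℕ∞) else ⊤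

open Classical in
private theorem normTau_self {C : Type} (x : ℕ → C) (t : ℕ) :
    normTau x (x t) = ((Nat.find (⟨t, rfl⟩ : ∃ s, x s = x t) : ℕ) : ℕ∞) := by
  unfold normTau
  rw [dif_pos ⟨t, rfl⟩]

open Classical in
private theorem normTau_lt {C : Type} (x : ℕ → C) (t s : ℕ)
    (hs : s < Nat.find (⟨t, rfl⟩ : ∃ s, x s = x t)) : normTau x (x s) < normTau x (x t) := by
  rw [normTau_self x t, normTau_self x s]
  have h1 : Nat.find (⟨s, rfl⟩ : ∃ s', x s' = x s) ≤ s := Nat.find_min' _ rfl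
  exact_mod_cast lt_of_le_of_lt h1 hs

open Classical in
private theorem norm_mem {C : Type} (x : ℕ → C) (t : ℕ) (c : C)
    (hc : normTau x c ≤ normTau x (x t)) (hne : c ≠ x t) :
    ∃ s < Nat.find (⟨t, rfl⟩ : ∃ s, x s = x t), x s = c := by
  rw [normTau_self x t] at hc
  unfold normTau at hc
  by_cases h : ∃ s, x s = c
  · rw [dif_pos h] at hc
    have hc' : Nat.find h ≤ Nat.find (⟨t, rfl⟩ : ∃ s, x s = x t) := by exact_mod_cast hc
    refine ⟨Nat.find h, lt_of_le_of_ne hc' ?_, Nat.find_spec h⟩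
    intro heq
    apply hne
    rw [← Nat.find_spec h, heq]
    exact Nat.find_spec (⟨t, rfl⟩ : ∃ s, x s = x t)
  · rw [dif_neg h] at hc
    simp at hc

open Classical in
theorem exists_relabel {C : Type} [Fintype C] (hC : Fintype.card C = 4) (x : ℕ → C) :
    ∃ ρ : C ≃ Fin 4, (∀ t, ((ρ (x t) : Fin 4) : ℕ) = rk x t) ∧ RG (fun t => ρ (x t)) := by
  set e : C ≃ Fin 4 := Fintype.equivFinOfCardEq hC
  set σ : Equiv.Perm (Fin 4) := Tuple.sort (normTau x ∘ e.symm) with hσ
  have hmono : Monotone ((normTau x ∘ e.symm) ∘ σ) := Tuple.monotone_sort _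
  set ρ : C ≃ Fin 4 := e.trans σ.symm with hρ
  have hinv : ∀ c, e.symm (σ (ρ c)) = c := fun c => by simp [hρ]
  have hle : ∀ c c', ρ c ≤ ρ c' → normTau x c ≤ normTau x c' := by
    intro c c' h
    have h1 := hmono h
    simp only [Function.comp_apply, hinv] at h1
    exact h1
  have hlt : ∀ c c', normTau x c < normTau x c' → ρ c < ρ c' := by
    intro c c' h
    by_contra h1
    exact absurd (hle c' c (not_lt.1 h1)) (not_le.2 h)
  have hiff : ∀ t c, ρ c < ρ (x t) ↔
      ∃ s < Nat.find (⟨t, rfl⟩ : ∃ s, x s = x t), x s = c := by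
    intro t c
    constructor
    · intro h
      exact norm_mem x t c (hle _ _ h.le) (fun h' => by rw [h'] at h; exact lt_irrefl _ h)
    · rintro ⟨s, hs, rfl⟩
      exact hlt _ _ (normTau_lt x t s hs)
  refine ⟨ρ, fun t => ?_, ?_⟩
  · unfold rk
    have h1 : (Finset.range (Nat.find (⟨t, rfl⟩ : ∃ s, x s = x t))).image x =
        (Finset.Iio (ρ (x t))).map ρ.symm.toEmbedding := by
      ext c
      simp only [Finset.mem_image, Finset.mem_range, Finset.mem_map, Finset.mem_Iio,
        Equiv.coe_toEmbedding]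
      constructor
      · intro h
        exact ⟨ρ c, (hiff t c).2 h, ρ.symm_apply_apply c⟩
      · rintro ⟨i, hi, rfl⟩
        refine (hiff t _).1 ?_
        rwa [ρ.apply_symm_apply]
    rw [h1, Finset.card_map, Fin.card_Iio]
  · intro t c hc
    have h1 : ρ (ρ.symm c) < ρ (x t) := by rwa [ρ.apply_symm_apply]
    obtain ⟨s, hs, hxs⟩ := (hiff t _).1 h1
    refine ⟨s, lt_of_lt_of_le hs (Nat.find_min' _ rfl), ?_⟩
    show ρ (x s) = c
    rw [hxs, ρ.apply_symm_apply]

open Classical in
theorem rk_congr {C : Type} (x y : ℕ → C) (t : ℕ) (h : ∀ s ≤ t, x s = y s) :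
    rk x t = rk y t := by
  unfold rk
  have hfx : Nat.find (⟨t, rfl⟩ : ∃ s, x s = x t) ≤ t := Nat.find_min' _ rfl
  have hfy : Nat.find (⟨t, rfl⟩ : ∃ s, y s = y t) ≤ t := Nat.find_min' _ rfl
  have hsx := Nat.find_spec (⟨t, rfl⟩ : ∃ s, x s = x t)
  have hsy := Nat.find_spec (⟨t, rfl⟩ : ∃ s, y s = y t)
  have heq : Nat.find (⟨t, rfl⟩ : ∃ s, x s = x t) = Nat.find (⟨t, rfl⟩ : ∃ s, y s = y t) := by
    apply le_antisymm
    · apply Nat.find_min'
      rw [h _ hfy, h t le_rfl]
      exact hsy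
    · apply Nat.find_min'
      rw [← h _ hfx, ← h t le_rfl]
      exact hsx
  rw [heq]
  congr 1
  refine Finset.image_congr fun s hs => ?_
  exact h s (le_trans (Finset.mem_range.1 hs).le hfy)

end Pool.Agent.H86.Cafe
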