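import Pool.Agent.H86.Cafe.Tree
import Pool.Agent.H86.Cafe.Norm

/-!
# The leaf of a sequence
-/

set_option autoImplicit false

open MeasureTheory

namespace Pool.Agent.H86.Cafe

/-- The number of the leaf reached by the sequence `w`. -/
noncomputable def T.find (t : T) : (ℕ → ℕ) → ℕ :=
  T.rec (motive := fun _ => (ℕ → ℕ) → ℕ) (fun _ => 0) (fun _ => 0)
    (fun a b c _ fa fb fc fd w =>
      if w 0 = 0 then fa (fun s => w (s + 1)) else
      if w 0 = 1 then a.size + fb (fun s => w (s + 1)) else
      if w 0 = 2 then a.size + b.size + fc (fun s => w (s + 1)) else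
        a.size + b.size + c.size + fd (fun s => w (s + 1))) t

theorem T.find_n (a b c d : T) (w : ℕ → ℕ) : (T.n a b c d).find w =
    if w 0 = 0 then a.find (fun s => w (s + 1)) else
      if w 0 = 1 then a.size + b.find (fun s => w (s + 1)) else
      if w 0 = 2 then a.size + b.size + c.find (fun s => w (s + 1)) else
        a.size + b.size + c.size + d.find (fun s => w (s + 1)) := rfl

/-- All sequences compatible with `k` labels already used reach a leaf. -/
noncomputable def T.wf (t : T) : ℕ → Bool :=
  T.rec (motive := fun _ => ℕ → Bool) (fun _ => false) (fun _ => true)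
    (fun _ _ _ _ wa wb wc wd k =>
      and (wa k) (and (wb (cond (Nat.ble 2 k) k 2)) (and
        (cond (Nat.ble 2 k) (wc (cond (Nat.ble 3 k) k 3)) true)
        (cond (Nat.ble 3 k) (wd 4) true)))) t

/-- Restricted growth of a sequence of numbers if `k` labels have already been used. -/
structure RGk (k : ℕ) (w : ℕ → ℕ) : Prop where
  lt : ∀ t, w t < 4
  rg : ∀ t c, c < w t → c < k ∨ ∃ s < t, w s = c

theorem RGk.zero_le {k : ℕ} {w : ℕ → ℕ} (h : RGk k w) : w 0 ≤ k := by
  by_contra hcon
  push Not at hcon
  rcases h.rg 0 k hcon with h1 | ⟨s, hs, _⟩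
  · omega
  · omega

theorem RGk.shift {k k' : ℕ} {w : ℕ → ℕ} (h : RGk k w) (h1 : k ≤ k') (h2 : w 0 < k') :
    RGk k' (fun s => w (s + 1)) := by
  refine ⟨fun t => h.lt (t + 1), ?_⟩
  intro t c hc
  rcases h.rg (t + 1) c hc with h3 | ⟨s, hs, h4⟩
  · left; omega
  · rcases s with _ | s
    · left; omega
    · right; exact ⟨s, by omega, h4⟩

theorem T.find_spec (t : T) : ∀ (k : ℕ) (w : ℕ → ℕ), 1 ≤ k → k ≤ 4 → t.wf k = true → RGk k w →
    t.find w < t.size ∧ ∀ (s : ℕ) (hs : s < (t.path (t.find w)).length),
      (t.path (t.find w))[s] = w s := by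
  induction t with
  | e => intro k w _ _ hw _; exact absurd hw (by simp [T.wf])
  | l =>
    intro k w _ _ _ _
    refine ⟨Nat.zero_lt_one, ?_⟩
    intro s hs
    simp [T.path, T.leaves, T.find] at hs
  | n a b c d ha hb hc hd =>
    intro k w hk1 hk4 hw hrg
    have hw' : and (a.wf k) (and (b.wf (cond (Nat.ble 2 k) k 2)) (and
        (cond (Nat.ble 2 k) (c.wf (cond (Nat.ble 3 k) k 3)) true)
        (cond (Nat.ble 3 k) (d.wf 4) true))) = true := hw
    simp only [Bool.and_eq_true] at hw'
    obtain ⟨wa, wb, wc, wd⟩ := hw'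
    have h0 := hrg.zero_le
    have h4 := hrg.lt 0
    have ble_t : ∀ x y : ℕ, x ≤ y → Nat.ble x y = true := fun x y h => by
      rw [Nat.ble_eq]; exact h
    have ble_f : ∀ x y : ℕ, y < x → Nat.ble x y = false := fun x y h => by
      rw [← Bool.not_eq_true, Nat.ble_eq]; omega
    -- the child is determined by `w 0`
    have hcase : w 0 = 0 ∨ w 0 = 1 ∨ w 0 = 2 ∨ w 0 = 3 := by omega
    rcases hcase with h | h | h | h
    · have e : (T.n a b c d).find w = a.find (fun s => w (s + 1)) := by
        rw [T.find_n]; simp [h]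
      obtain ⟨g1, g2⟩ := ha k (fun s => w (s + 1)) hk1 hk4 wa (hrg.shift le_rfl (by omega))
      rw [e]
      have hlt : a.find (fun s => w (s + 1)) < (T.n a b c d).size := by
        rw [T.size_n]; omega
      refine ⟨hlt, ?_⟩
      have hp := T.path_n a b c d _ hlt
      rw [if_pos g1] at hp
      rw [hp]
      intro s hs
      rcases s with _ | s
      · simp [h]
      · simp only [List.getElem_cons_succ]
        exact g2 s (by simpa using hs)
    · have e : (T.n a b c d).find w = a.size + b.find (fun s => w (s + 1)) := by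
        rw [T.find_n]; simp [h]
      have wb' : ∃ k', k ≤ k' ∧ 2 ≤ k' ∧ k' ≤ 4 ∧ b.wf k' = true := by
        by_cases h2 : 2 ≤ k
        · rw [ble_t 2 k h2] at wb
          exact ⟨k, le_rfl, h2, hk4, wb⟩
        · rw [ble_f 2 k (by omega)] at wb
          exact ⟨2, by omega, le_rfl, by norm_num, wb⟩
      obtain ⟨k', e1, e2, e3, e4⟩ := wb'
      obtain ⟨g1, g2⟩ := hb k' (fun s => w (s + 1)) (by omega) e3 e4 (hrg.shift e1 (by omega))
      rw [e]
      have hlt : a.size + b.find (fun s => w (s + 1)) < (T.n a b c d).size := by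
        rw [T.size_n]; omega
      refine ⟨hlt, ?_⟩
      have hp := T.path_n a b c d _ hlt
      rw [if_neg (by omega), if_pos (by omega),
        show a.size + b.find (fun s => w (s + 1)) - a.size = b.find (fun s => w (s + 1)) by
          omega] at hp
      rw [hp]
      intro s hs
      rcases s with _ | s
      · simp [h]
      · simp only [List.getElem_cons_succ]
        exact g2 s (by simpa using hs)
    · have e : (T.n a b c d).find w = a.size + b.size + c.find (fun s => w (s + 1)) := by
        rw [T.find_n]; simp [h]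
      have wc' : ∃ k', k ≤ k' ∧ 3 ≤ k' ∧ k' ≤ 4 ∧ c.wf k' = true := by
        rw [ble_t 2 k (by omega)] at wc
        simp only [cond_true] at wc
        by_cases h3 : 3 ≤ k
        · rw [ble_t 3 k h3] at wc
          exact ⟨k, le_rfl, h3, hk4, wc⟩
        · rw [ble_f 3 k (by omega)] at wc
          exact ⟨3, by omega, le_rfl, by norm_num, wc⟩
      obtain ⟨k', e1, e2, e3, e4⟩ := wc'
      obtain ⟨g1, g2⟩ := hc k' (fun s => w (s + 1)) (by omega) e3 e4 (hrg.shift e1 (by omega))
      rw [e]
      have hlt : a.size + b.size + c.find (fun s => w (s + 1)) < (T.n a b c d).size := by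
        rw [T.size_n]; omega
      refine ⟨hlt, ?_⟩
      have hp := T.path_n a b c d _ hlt
      rw [if_neg (by omega), if_neg (by omega), if_pos (by omega),
        show a.size + b.size + c.find (fun s => w (s + 1)) - a.size - b.size =
          c.find (fun s => w (s + 1)) by omega] at hp
      rw [hp]
      intro s hs
      rcases s with _ | s
      · simp [h]
      · simp only [List.getElem_cons_succ]
        exact g2 s (by simpa using hs)
    · have e : (T.n a b c d).find w = a.size + b.size + c.size + d.find (fun s => w (s + 1)) := by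
        rw [T.find_n]; simp [h]
      rw [ble_t 3 k (by omega)] at wd
      simp only [cond_true] at wd
      obtain ⟨g1, g2⟩ := hd 4 (fun s => w (s + 1)) (by norm_num) le_rfl wd
        (hrg.shift hk4 (by omega))
      rw [e]
      have hlt : a.size + b.size + c.size + d.find (fun s => w (s + 1)) <
          (T.n a b c d).size := by
        rw [T.size_n]; omega
      refine ⟨hlt, ?_⟩
      have hp := T.path_n a b c d _ hlt
      rw [if_neg (by omega), if_neg (by omega), if_neg (by omega),
        show a.size + b.size + c.size + d.find (fun s => w (s + 1)) - a.size - b.size - c.size =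
          d.find (fun s => w (s + 1)) by omega] at hp
      rw [hp]
      intro s hs
      rcases s with _ | s
      · simp [h]
      · simp only [List.getElem_cons_succ]
        exact g2 s (by simpa using hs)

/-- Depth of a tree. -/
noncomputable def T.dep (t : T) : ℕ :=
  T.rec 0 0 (fun _ _ _ _ a b c d => (a + b + c + d) + 1) t

theorem T.find_congr (t : T) : ∀ w w' : ℕ → ℕ, (∀ s < t.dep, w s = w' s) →
    t.find w = t.find w' := by
  induction t with
  | e => intro w w' _; rfl
  | l => intro w w' _; rfl
  | n a b c d ha hb hc hd =>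
    intro w w' h
    have hdep : (T.n a b c d).dep = (a.dep + b.dep + c.dep + d.dep) + 1 := rfl
    rw [T.find_n, T.find_n, h 0 (by omega)]
    rw [ha _ (fun s => w' (s + 1)) fun s hs => h (s + 1) (by omega),
      hb _ (fun s => w' (s + 1)) fun s hs => h (s + 1) (by omega),
      hc _ (fun s => w' (s + 1)) fun s hs => h (s + 1) (by omega),
      hd _ (fun s => w' (s + 1)) fun s hs => h (s + 1) (by omega)]

/-- A function of finitely many coordinates is measurable. -/
theorem measurable_of_coords {C : Type} [Finite C] [MeasurableSpace C]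
    [MeasurableSingletonClass C] (f : (ℕ → C) → ℕ) (n : ℕ)
    (h : ∀ x y : ℕ → C, (∀ s ≤ n, x s = y s) → f x = f y) : Measurable f := by
  have h1 : f = (fun z : Fin (n + 1) → C => f fun t => z ⟨min t n, by omega⟩) ∘
      (fun x : ℕ → C => fun i : Fin (n + 1) => x i) := by
    funext x
    simp only [Function.comp_apply]
    apply h
    intro s hs
    simp [min_eq_left hs]
  rw [h1]
  refine Measurable.comp (measurable_of_countable _) ?_
  exact measurable_pi_lambda _ fun i => measurable_pi_apply _

/-- The leaf of a sequence. -/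
noncomputable def T.idx {C : Type} (t : T) (x : ℕ → C) : ℕ := t.find fun s => rk x (s + 1)

theorem T.idx_measurable {C : Type} [Finite C] [MeasurableSpace C] [MeasurableSingletonClass C]
    (t : T) : Measurable (fun x : ℕ → C => t.idx x) := by
  refine measurable_of_coords _ t.dep ?_
  intro x y h
  unfold T.idx
  apply t.find_congr
  intro s hs
  exact rk_congr x y (s + 1) fun s' hs' => h s' (by omega)

theorem RG.zero {u : ℕ → Fin 4} (h : RG u) : u 0 = 0 := by
  by_contra hcon
  obtain ⟨s, hs, _⟩ := h 0 0 (Fin.pos_of_ne_zero hcon)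
  omega

theorem RG.rgk {u : ℕ → Fin 4} (h : RG u) : RGk 1 (fun s => ((u (s + 1) : Fin 4) : ℕ)) := by
  refine ⟨fun t => (u (t + 1)).2, ?_⟩
  intro t c hc
  have hc4 : c < 4 := lt_trans hc (u (t + 1)).2
  obtain ⟨s, hs, h1⟩ := h (t + 1) ⟨c, hc4⟩ hc
  rcases s with _ | s
  · left
    rw [h.zero] at h1
    have : (0 : ℕ) = c := congrArg Fin.val h1
    omega
  · right
    exact ⟨s, by omega, by rw [h1]⟩

/-- The bound of the leaves is a bound of the cost. -/
theorem T.AS_le {C : Type} [Fintype C] [DecidableEq C] (hC : Fintype.card C = 4) (t : T)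
    (hw : t.wf 1 = true) (x y : ℕ → C) :
    t.idx x < t.size ∧
    ((24 + AS (t.path (t.idx x)) (t.path (t.idx y)) : ℕ) : ENNReal) ≤ cost x y := by
  obtain ⟨ρ, h1, h2⟩ := exists_relabel hC x
  obtain ⟨ρ', h1', h2'⟩ := exists_relabel hC y
  have e : t.idx x = t.find (fun s => ((ρ (x (s + 1)) : Fin 4) : ℕ)) := by
    unfold T.idx
    congr 1
    funext s
    exact (h1 (s + 1)).symm
  have e' : t.idx y = t.find (fun s => ((ρ' (y (s + 1)) : Fin 4) : ℕ)) := by
    unfold T.idx
    congr 1
    funext s
    exact (h1' (s + 1)).symm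
  have f1 := t.find_spec 1 _ le_rfl (by norm_num) hw h2.rgk
  have f2 := t.find_spec 1 _ le_rfl (by norm_num) hw h2'.rgk
  rw [e, e']
  refine ⟨f1.1, ?_⟩
  rw [cost_relabel ρ ρ' x y]
  refine AS_le_cost (fun t => ρ (x t)) (fun t => ρ' (y t)) h2.zero h2'.zero _ _ ?_ ?_
  · intro s hs
    exact (f1.2 s hs).symm
  · intro s hs
    exact (f2.2 s hs).symm

end Pool.Agent.H86.Cafe
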