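import Mathlib

/-!
# Packed natural numbers

`Rep w N x f`: the number `x < 2 ^ (w N)` consists of the `N` fields `f j < 2 ^ w` of width `w`.
-/

set_option autoImplicit false

namespace Pool.Agent.H86.Cafe

/-- The field `j` of width `w`. -/
def fld (w x j : ℕ) : ℕ := x / 2 ^ (w * j) % 2 ^ w

structure Rep (w N x : ℕ) (f : ℕ → ℕ) : Prop where
  lt : x < 2 ^ (w * N)
  eq : ∀ j < N, fld w x j = f j

variable {w N x y : ℕ} {f g : ℕ → ℕ}

theorem fld_lt (w x j : ℕ) : fld w x j < 2 ^ w := Nat.mod_lt _ (by positivity)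

theorem Rep.f_lt (h : Rep w N x f) {j : ℕ} (hj : j < N) : f j < 2 ^ w := by
  rw [← h.eq j hj]; exact fld_lt w x j

theorem Rep.congr (h : Rep w N x f) (hfg : ∀ j < N, f j = g j) : Rep w N x g :=
  ⟨h.lt, fun j hj => (h.eq j hj).trans (hfg j hj)⟩

theorem rep_self (h : x < 2 ^ (w * N)) : Rep w N x (fld w x) := ⟨h, fun _ _ => rfl⟩

theorem Rep.unique (h : Rep w N x f) (h' : Rep w N x g) {j : ℕ} (hj : j < N) : f j = g j := by
  rw [← h.eq j hj, h'.eq j hj]

/-- The value of a packed number. -/
theorem Rep.sum (h : Rep w N x f) : x = ∑ j ∈ Finset.range N, f j * 2 ^ (w * j) := by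
  have key : ∀ M : ℕ, ∀ x : ℕ, x < 2 ^ (w * M) →
      x = ∑ j ∈ Finset.range M, fld w x j * 2 ^ (w * j) := by
    intro M
    induction M with
    | zero => intro x hx; simpa using hx
    | succ M ih =>
      intro x hx
      rw [Finset.sum_range_succ]
      have h1 := ih (x % 2 ^ (w * M)) (Nat.mod_lt _ (by positivity))
      have h2 : ∀ j < M, fld w (x % 2 ^ (w * M)) j = fld w x j := by
        intro j hj
        unfold fld
        have h3 : w * M = w * j + w * (M - j) := by rw [← Nat.mul_add]; congr 1; omega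
        rw [h3, pow_add, Nat.mod_mul_right_div_self]
        have h4 : w * (M - j) = w + w * (M - j - 1) := by
          have : M - j = (M - j - 1) + 1 := by omega
          conv_lhs => rw [this]
          ring
        rw [h4, pow_add, Nat.mod_mul_right_mod]
      rw [Finset.sum_congr rfl fun j hj => by rw [h2 j (Finset.mem_range.1 hj)]] at h1
      have h5 : fld w x M = x / 2 ^ (w * M) := by
        unfold fld
        apply Nat.mod_eq_of_lt
        rw [Nat.div_lt_iff_lt_mul (by positivity), ← pow_add]
        calc x < 2 ^ (w * (M + 1)) := hx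
          _ = 2 ^ (w + w * M) := by congr 1; ring
      rw [← h1, h5]
      exact (Nat.mod_add_div' x (2 ^ (w * M))).symm
  rw [key N x h.lt]
  exact Finset.sum_congr rfl fun j hj => by rw [h.eq j (Finset.mem_range.1 hj)]

theorem sum_lt_pow (N : ℕ) (f : ℕ → ℕ) (hf : ∀ j < N, f j < 2 ^ w) :
    ∑ j ∈ Finset.range N, f j * 2 ^ (w * j) < 2 ^ (w * N) := by
  induction N with
  | zero => simp
  | succ N ih =>
    rw [Finset.sum_range_succ]
    have h1 := ih (fun j hj => hf j (by omega))
    have h2 := hf N (by omega)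
    calc _ < 2 ^ (w * N) + f N * 2 ^ (w * N) := by omega
      _ = (f N + 1) * 2 ^ (w * N) := by ring
      _ ≤ 2 ^ w * 2 ^ (w * N) := by gcongr; omega
      _ = 2 ^ (w * (N + 1)) := by rw [← pow_add]; congr 1; ring

theorem rep_of_sum (N : ℕ) (f : ℕ → ℕ) (hf : ∀ j < N, f j < 2 ^ w) :
    Rep w N (∑ j ∈ Finset.range N, f j * 2 ^ (w * j)) f := by
  refine ⟨sum_lt_pow N f hf, ?_⟩
  intro j hj
  unfold fld
  -- split the sum at `j`
  have h1 : ∑ i ∈ Finset.range N, f i * 2 ^ (w * i) =
      ∑ i ∈ Finset.range j, f i * 2 ^ (w * i) +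
        (f j + 2 ^ w * ∑ i ∈ Finset.range (N - j - 1), f (j + 1 + i) * 2 ^ (w * i)) *
          2 ^ (w * j) := by
    have h2 : N = j + (1 + (N - j - 1)) := by omega
    conv_lhs => rw [h2, Finset.sum_range_add, Finset.sum_range_add]
    simp only [Finset.range_one, Finset.sum_singleton, add_zero]
    rw [Nat.add_mul, Finset.mul_sum, Finset.sum_mul]
    congr 2
    refine Finset.sum_congr rfl fun i _ => ?_
    have h3 : w * (j + (1 + i)) = w + w * i + w * j := by ring
    rw [h3, pow_add, pow_add, show j + (1 + i) = j + 1 + i by ring]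
    ring
  have h4 := sum_lt_pow (w := w) j f (fun i hi => hf i (by omega))
  rw [h1, Nat.add_mul_div_right _ _ (by positivity), Nat.div_eq_of_lt h4, zero_add,
    Nat.add_mul_mod_self_left, Nat.mod_eq_of_lt (hf j hj)]

theorem Rep.add (hx : Rep w N x f) (hy : Rep w N y g) (h : ∀ j < N, f j + g j < 2 ^ w) :
    Rep w N (x + y) (fun j => f j + g j) := by
  rw [hx.sum, hy.sum, ← Finset.sum_add_distrib]
  simp only [← Nat.add_mul]
  exact rep_of_sum N (fun j => f j + g j) h

theorem Rep.mul_const (c : ℕ) (hx : Rep w N x f) (h : ∀ j < N, c * f j < 2 ^ w) :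
    Rep w N (c * x) (fun j => c * f j) := by
  rw [hx.sum, Finset.mul_sum]
  simp only [← Nat.mul_assoc]
  exact rep_of_sum N (fun j => c * f j) h

theorem Rep.sub (hx : Rep w N x f) (hy : Rep w N y g) (h : ∀ j < N, g j ≤ f j) :
    Rep w N (x - y) (fun j => f j - g j) := by
  have h1 : Rep w N (∑ j ∈ Finset.range N, (f j - g j) * 2 ^ (w * j)) (fun j => f j - g j) :=
    rep_of_sum N _ fun j hj => lt_of_le_of_lt (Nat.sub_le _ _) (hx.f_lt hj)
  have h2 : x = (∑ j ∈ Finset.range N, (f j - g j) * 2 ^ (w * j)) + y := by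
    rw [hx.sum, hy.sum, ← Finset.sum_add_distrib]
    refine Finset.sum_congr rfl fun j hj => ?_
    rw [← Nat.add_mul, Nat.sub_add_cancel (h j (Finset.mem_range.1 hj))]
  rw [h2, Nat.add_sub_cancel]
  exact h1

theorem testBit_fld (w x j b : ℕ) (hb : b < w) :
    (fld w x j).testBit b = x.testBit (w * j + b) := by
  unfold fld
  rw [Nat.testBit_mod_two_pow, ← Nat.shiftRight_eq_div_pow, Nat.testBit_shiftRight]
  simp [hb]

theorem fld_land (w x y j : ℕ) : fld w (x &&& y) j = fld w x j &&& fld w y j := by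
  apply Nat.eq_of_testBit_eq
  intro b
  by_cases hb : b < w
  · rw [testBit_fld w _ j b hb, Nat.testBit_and, Nat.testBit_and, testBit_fld w _ j b hb,
      testBit_fld w _ j b hb]
  · have h1 : ∀ z : ℕ, (fld w z j).testBit b = false := fun z =>
      Nat.testBit_lt_two_pow (lt_of_lt_of_le (fld_lt w z j)
        (Nat.pow_le_pow_right (by norm_num) (by omega)))
    rw [h1, Nat.testBit_and, h1, h1]
    rfl

theorem fld_lor (w x y j : ℕ) : fld w (x ||| y) j = fld w x j ||| fld w y j := by
  apply Nat.eq_of_testBit_eq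
  intro b
  by_cases hb : b < w
  · rw [testBit_fld w _ j b hb, Nat.testBit_or, Nat.testBit_or, testBit_fld w _ j b hb,
      testBit_fld w _ j b hb]
  · have h1 : ∀ z : ℕ, (fld w z j).testBit b = false := fun z =>
      Nat.testBit_lt_two_pow (lt_of_lt_of_le (fld_lt w z j)
        (Nat.pow_le_pow_right (by norm_num) (by omega)))
    rw [h1, Nat.testBit_or, h1, h1]
    rfl

theorem Rep.land (hx : Rep w N x f) (hy : Rep w N y g) :
    Rep w N (x &&& y) (fun j => f j &&& g j) :=
  ⟨Nat.and_lt_two_pow _ hy.lt, fun j hj => by rw [fld_land, hx.eq j hj, hy.eq j hj]⟩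

/-- only one of the two numbers has to be bounded -/
theorem Rep.land_any (hx : Rep w N x f) (y : ℕ) :
    Rep w N (x &&& y) (fun j => f j &&& fld w y j) :=
  ⟨lt_of_le_of_lt Nat.and_le_left hx.lt, fun j hj => by rw [fld_land, hx.eq j hj]⟩

theorem Rep.lor (hx : Rep w N x f) (hy : Rep w N y g) :
    Rep w N (x ||| y) (fun j => f j ||| g j) :=
  ⟨Nat.or_lt_two_pow hx.lt hy.lt, fun j hj => by rw [fld_lor, hx.eq j hj, hy.eq j hj]⟩

/-- removing the `K` lowest fields -/
theorem Rep.shiftRight {K L : ℕ} (hx : Rep w (K + L) x f) :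
    Rep w L (x >>> (w * K)) (fun j => f (K + j)) := by
  constructor
  · rw [Nat.shiftRight_eq_div_pow, Nat.div_lt_iff_lt_mul (by positivity), ← pow_add]
    calc x < 2 ^ (w * (K + L)) := hx.lt
      _ = 2 ^ (w * L + w * K) := by congr 1; ring
  · intro j hj
    rw [← hx.eq (K + j) (by omega)]
    unfold fld
    rw [Nat.shiftRight_eq_div_pow, Nat.div_div_eq_div_mul, ← pow_add, Nat.mul_add]

/-- keeping the `K` lowest fields -/
theorem Rep.low {K L : ℕ} (hx : Rep w (K + L) x f) :
    Rep w K (x &&& (2 ^ (w * K) - 1)) f := by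
  rw [Nat.and_two_pow_sub_one_eq_mod]
  constructor
  · exact Nat.mod_lt _ (by positivity)
  · intro j hj
    rw [← hx.eq j (by omega)]
    apply Nat.eq_of_testBit_eq
    intro b
    by_cases hb : b < w
    · rw [testBit_fld w _ j b hb, testBit_fld w _ j b hb, Nat.testBit_mod_two_pow]
      have : w * j + b < w * K := by
        calc w * j + b < w * j + w := by omega
          _ = w * (j + 1) := by ring
          _ ≤ w * K := Nat.mul_le_mul_left w (by omega)
      simp [this]
    · have h1 : ∀ z : ℕ, (fld w z j).testBit b = false := fun z =>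
        Nat.testBit_lt_two_pow (lt_of_lt_of_le (fld_lt w z j)
          (Nat.pow_le_pow_right (by norm_num) (by omega)))
      rw [h1, h1]

/-- concatenation -/
theorem Rep.append {K L : ℕ} (hx : Rep w K x f) (hy : Rep w L y g) :
    Rep w (K + L) (x + y * 2 ^ (w * K)) (fun j => if j < K then f j else g (j - K)) := by
  have h1 := rep_of_sum (w := w) (K + L) (fun j => if j < K then f j else g (j - K)) (by
    intro j hj
    by_cases h : j < K
    · simp only [h, if_true]; exact hx.f_lt h
    · simp only [h, if_false]; exact hy.f_lt (by omega))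
  have h2 : ∑ j ∈ Finset.range (K + L), (if j < K then f j else g (j - K)) * 2 ^ (w * j) =
      x + y * 2 ^ (w * K) := by
    rw [Finset.sum_range_add]
    congr 1
    · rw [hx.sum]
      exact Finset.sum_congr rfl fun j hj => by rw [if_pos (Finset.mem_range.1 hj)]
    · rw [hy.sum, Finset.sum_mul]
      refine Finset.sum_congr rfl fun j _ => ?_
      rw [if_neg (by omega), show K + j - K = j by omega, Nat.mul_add, pow_add]
      ring
  rw [h2] at h1
  exact h1

/-- field-wise right shift with a mask which keeps only bits of the same field -/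
theorem Rep.shiftMask {M : ℕ} {c : ℕ → ℕ} (b : ℕ) (hx : Rep w N x f) (hM : Rep w N M c)
    (hb : b ≤ w) (hc : ∀ j < N, c j < 2 ^ (w - b)) :
    Rep w N ((x >>> b) &&& M) (fun j => (f j >>> b) &&& c j) := by
  constructor
  · exact Nat.and_lt_two_pow _ hM.lt
  · intro j hj
    apply Nat.eq_of_testBit_eq
    intro i
    by_cases hi : i < w - b
    · have hiw : i < w := by omega
      rw [testBit_fld w _ j i hiw, Nat.testBit_and, Nat.testBit_and, Nat.testBit_shiftRight,
        Nat.testBit_shiftRight, ← hx.eq j hj, ← hM.eq j hj, testBit_fld w _ j i hiw,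
        testBit_fld w _ j (b + i) (by omega)]
      congr 2
      ring
    · have h2 : (c j).testBit i = false := Nat.testBit_lt_two_pow
        (lt_of_lt_of_le (hc j hj) (Nat.pow_le_pow_right (by norm_num) (by omega)))
      rw [Nat.testBit_and, h2, Bool.and_false]
      by_cases hiw : i < w
      · rw [testBit_fld w _ j i hiw, Nat.testBit_and, ← testBit_fld w M j i hiw, hM.eq j hj, h2,
          Bool.and_false]
      · exact Nat.testBit_lt_two_pow (lt_of_lt_of_le (fld_lt w _ j)
          (Nat.pow_le_pow_right (by norm_num) (by omega)))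

/-- every `G`-th field of width `w`, starting from the field `g0`, as fields of width `G w` -/
theorem Rep.stride {G M : ℕ} {c : ℕ → ℕ} (g0 : ℕ) (hg : g0 < G) (hx : Rep w (G * N) x f)
    (hM : Rep (G * w) N M c) (hc : ∀ j < N, c j = 2 ^ w - 1) :
    Rep (G * w) N ((x >>> (w * g0)) &&& M) (fun j => f (G * j + g0)) := by
  constructor
  · exact Nat.and_lt_two_pow _ hM.lt
  · intro j hj
    have hj' : G * j + g0 < G * N := by
      calc G * j + g0 < G * j + G := by omega
        _ = G * (j + 1) := by ring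
        _ ≤ G * N := Nat.mul_le_mul_left G (by omega)
    apply Nat.eq_of_testBit_eq
    intro i
    by_cases hi : i < w
    · have hiw : i < G * w := lt_of_lt_of_le hi (Nat.le_mul_of_pos_left w (by omega))
      rw [testBit_fld _ _ j i hiw, Nat.testBit_and, ← testBit_fld _ M j i hiw, hM.eq j hj,
        hc j hj, Nat.testBit_two_pow_sub_one, Nat.testBit_shiftRight, ← hx.eq _ hj',
        testBit_fld w _ _ i hi]
      simp only [hi, decide_true, Bool.and_true]
      congr 1
      ring
    · have h2 : (f (G * j + g0)).testBit i = false := Nat.testBit_lt_two_pow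
        (lt_of_lt_of_le (hx.f_lt hj') (Nat.pow_le_pow_right (by norm_num) (by omega)))
      rw [h2]
      by_cases hiw : i < G * w
      · rw [testBit_fld _ _ j i hiw, Nat.testBit_and, ← testBit_fld _ M j i hiw, hM.eq j hj,
          hc j hj, Nat.testBit_two_pow_sub_one]
        simp [hi]
      · exact Nat.testBit_lt_two_pow (lt_of_lt_of_le (fld_lt _ _ j)
          (Nat.pow_le_pow_right (by norm_num) (by omega)))

end Pool.Agent.H86.Cafe
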