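import Pool.Agent.H86.Cafe.Circuit

/-!
# Packed numbers: concatenation and comparison
-/

set_option autoImplicit false

namespace Pool.Agent.H86.Cafe

variable {w N x y : ℕ} {f g : ℕ → ℕ}

theorem Rep.extend (h : Rep w N x f) (K : ℕ) :
    Rep w (N + K) x (fun j => if j < N then f j else 0) := by
  have h0 : Rep w K 0 (fun _ => 0) := ⟨by positivity, fun j _ => by simp [fld]⟩
  have := h.append h0
  simpa using this

/-- Concatenation of blocks of `W` bits. -/
def concat (W : ℕ) (l : List ℕ) : ℕ :=
  l.foldr (fun a s => Nat.add a (Nat.mul s (Nat.pow 2 W))) 0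

theorem concat_rep (N : ℕ) (F : ℕ → ℕ → ℕ) (l : List ℕ)
    (h : ∀ (p : ℕ) (hp : p < l.length), Rep 8 N (l[p]) (F p)) :
    ∃ G : ℕ → ℕ, Rep 8 (l.length * N) (concat (Nat.mul 8 N) l) G ∧
      ∀ p < l.length, ∀ j < N, G (N * p + j) = F p j := by
  induction l generalizing F with
  | nil => exact ⟨fun _ => 0, ⟨by simp [concat], fun j hj => by simp at hj⟩, by simp⟩
  | cons a l ih =>
    obtain ⟨G, hG, hGF⟩ := ih (fun p => F (p + 1)) (fun p hp => h (p + 1) (by simpa using hp))
    have ha := h 0 (by simp)
    simp only [List.getElem_cons_zero] at ha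
    have happ := ha.append hG
    refine ⟨fun j => if j < N then F 0 j else G (j - N), ?_, ?_⟩
    · have e : (a :: l).length * N = N + l.length * N := by
        simp only [List.length_cons]; ring
      rw [e]
      exact happ
    · intro p hp j hj
      rcases Nat.eq_zero_or_pos p with rfl | hp0
      · simp [hj]
      · have h1 : ¬ (N * p + j < N) := by
          have : N * 1 ≤ N * p := Nat.mul_le_mul_left N hp0
          omega
        simp only [h1, if_false]
        have h2 : N * p + j - N = N * (p - 1) + j := by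
          have : N * p = N * (p - 1) + N := by
            conv_lhs => rw [show p = (p - 1) + 1 by omega]
            ring
          omega
        rw [h2, hGF (p - 1) (by simp at hp; omega) j hj]
        congr 1
        omega

/-- Field-wise comparison with the help of the top bit. -/
def chkGE (o a b : ℕ) : Bool := Nat.beq (Nat.land (Nat.sub (Nat.add a o) b) o) o

theorem chkGE_sound {o a b : ℕ} (hw : 1 ≤ w) (ho : Rep w N o (fun _ => 2 ^ (w - 1)))
    (ha : Rep w N a f) (hb : Rep w N b g) (hf : ∀ j < N, f j < 2 ^ (w - 1))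
    (hg : ∀ j < N, g j ≤ 2 ^ (w - 1)) (h : chkGE o a b = true) : ∀ j < N, g j ≤ f j := by
  intro j hj
  have hw2 : 2 ^ w = 2 ^ (w - 1) + 2 ^ (w - 1) := by
    conv_lhs => rw [show w = (w - 1) + 1 by omega]
    rw [pow_succ]; ring
  have h1 := ha.add ho (by
    intro j hj
    have := hf j hj
    rw [hw2]; omega)
  have h2 := h1.sub hb (by
    intro j hj
    have := hg j hj
    omega)
  have h3 := h2.land ho
  have h4 : Nat.land (Nat.sub (Nat.add a o) b) o = o := Nat.eq_of_beq_eq_true h
  have h5 : (a + o - b) &&& o = o := h4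
  rw [h5] at h3
  have h6 := h3.unique ho hj
  by_contra hlt
  push Not at hlt
  have h7 : f j + 2 ^ (w - 1) - g j < 2 ^ (w - 1) := by
    have := hg j hj
    omega
  have h8 : (f j + 2 ^ (w - 1) - g j) &&& 2 ^ (w - 1) ≤ f j + 2 ^ (w - 1) - g j :=
    Nat.and_le_left
  omega

theorem const8_rep (N c : ℕ) (hc : c < 256) : Rep 8 N (Nat.mul c (ones N)) (fun _ => c) :=
  const_rep N c hc

end Pool.Agent.H86.Cafe
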