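import Pool.Agent.H86.Cafe.Defs
import Pool.Agent.H86.Cafe.Game

/-!
# Café rendezvous: from a quadratic form on finitely many classes to the expected time
-/

set_option autoImplicit false

open MeasureTheory
open scoped ENNReal

namespace Pool.Agent.H86.Cafe

private theorem quad_lintegral {Ω : Type} [MeasurableSpace Ω] (μ : Measure Ω) (idx : Ω → ℕ)
    (hm : Measurable idx) (n : ℕ) (hn : ∀ x, idx x < n) (g : ℕ → ℝ≥0∞) :
    ∫⁻ x, g (idx x) ∂μ = ∑ i ∈ Finset.range n, g i * μ (idx ⁻¹' {i}) := by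
  have h1 : ∫⁻ x, g (idx x) ∂μ = ∫⁻ i, g i ∂(μ.map idx) :=
    (lintegral_map (measurable_of_countable g) hm).symm
  rw [h1, lintegral_countable', tsum_eq_sum (s := Finset.range n)]
  · refine Finset.sum_congr rfl fun i _ => ?_
    rw [Measure.map_apply hm (measurableSet_singleton i)]
  · intro i hi
    have h2 : idx ⁻¹' {i} = ∅ := by
      ext x
      simp only [Set.mem_preimage, Set.mem_singleton_iff, Set.mem_empty_iff_false, iff_false]
      intro hx
      exact hi (Finset.mem_range.2 (hx ▸ hn x))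
    rw [Measure.map_apply hm (measurableSet_singleton i), h2, measure_empty, mul_zero]

private theorem quad_real (n r : ℕ) (A : ℕ → ℕ → ℕ) (S : ℕ) (Λ : ℕ) (L : ℕ → ℕ → ℤ)
    (hL : ∀ i < n, ∀ j < n, (Λ : ℤ) + ∑ k ∈ Finset.range r, L i k * L j k ≤ S * A i j)
    (p : ℕ → ℝ) (hp : ∀ i, 0 ≤ p i) (hsum : ∑ i ∈ Finset.range n, p i = 1) :
    (Λ : ℝ) ≤ S * ∑ i ∈ Finset.range n, ∑ j ∈ Finset.range n, (A i j : ℝ) * p j * p i := by
  have h1 : ∑ i ∈ Finset.range n, ∑ j ∈ Finset.range n,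
      ((Λ : ℝ) + ∑ k ∈ Finset.range r, (L i k : ℝ) * L j k) * p j * p i ≤
      S * ∑ i ∈ Finset.range n, ∑ j ∈ Finset.range n, (A i j : ℝ) * p j * p i := by
    rw [Finset.mul_sum]
    refine Finset.sum_le_sum fun i hi => ?_
    rw [Finset.mul_sum]
    refine Finset.sum_le_sum fun j hj => ?_
    have h2 : ((Λ : ℝ) + ∑ k ∈ Finset.range r, (L i k : ℝ) * L j k) ≤ S * A i j := by
      have := hL i (Finset.mem_range.1 hi) j (Finset.mem_range.1 hj)
      exact_mod_cast this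
    have h3 : 0 ≤ p j * p i := mul_nonneg (hp j) (hp i)
    calc ((Λ : ℝ) + ∑ k ∈ Finset.range r, (L i k : ℝ) * L j k) * p j * p i
        = ((Λ : ℝ) + ∑ k ∈ Finset.range r, (L i k : ℝ) * L j k) * (p j * p i) := by ring
      _ ≤ (S * A i j) * (p j * p i) := mul_le_mul_of_nonneg_right h2 h3
      _ = S * ((A i j : ℝ) * p j * p i) := by ring
  have h4 : ∑ i ∈ Finset.range n, ∑ j ∈ Finset.range n,
      ((Λ : ℝ) + ∑ k ∈ Finset.range r, (L i k : ℝ) * L j k) * p j * p i =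
      Λ * ((∑ i ∈ Finset.range n, p i) * ∑ j ∈ Finset.range n, p j) +
        ∑ k ∈ Finset.range r, (∑ i ∈ Finset.range n, p i * L i k) ^ 2 := by
    have h5 : ∀ k, (∑ i ∈ Finset.range n, p i * (L i k : ℝ)) ^ 2 =
        ∑ i ∈ Finset.range n, ∑ j ∈ Finset.range n, (L i k : ℝ) * L j k * (p j * p i) := by
      intro k
      rw [sq, Finset.sum_mul_sum]
      refine Finset.sum_congr rfl fun i _ => Finset.sum_congr rfl fun j _ => ?_
      ring
    simp only [h5]
    rw [Finset.sum_mul_sum, Finset.mul_sum, Finset.sum_comm (s := Finset.range r),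
      ← Finset.sum_add_distrib]
    refine Finset.sum_congr rfl fun i _ => ?_
    rw [Finset.mul_sum, Finset.sum_comm (s := Finset.range r), ← Finset.sum_add_distrib]
    refine Finset.sum_congr rfl fun j _ => ?_
    rw [add_mul, add_mul, Finset.sum_mul, Finset.sum_mul]
    congr 1
    · ring
    · refine Finset.sum_congr rfl fun k _ => ?_
      ring
  rw [h4, hsum] at h1
  have h6 : 0 ≤ ∑ k ∈ Finset.range r, (∑ i ∈ Finset.range n, p i * (L i k : ℝ)) ^ 2 :=
    Finset.sum_nonneg fun k _ => sq_nonneg _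
  linarith

/-- If the cost of two sequences is at least `A (idx x) (idx y)`, where `idx` is a measurable class
of a sequence with values below `n`, and `S A i j ≥ Λ + ∑ L i k L j k`, then the expected meeting
time is at least `Λ / (24 S)`. -/
theorem expectedTime_ge {C : Type} [Fintype C] [DecidableEq C] [MeasurableSpace C]
    (hC : Fintype.card C = 4) (idx : (ℕ → C) → ℕ) (hm : Measurable idx) (n r : ℕ)
    (hn : ∀ x, idx x < n) (A : ℕ → ℕ → ℕ)
    (hA : ∀ x y : ℕ → C, (A (idx x) (idx y) : ℝ≥0∞) ≤ cost x y)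
    (S : ℕ) (hS : 0 < S) (Λ : ℕ) (L : ℕ → ℕ → ℤ)
    (hL : ∀ i < n, ∀ j < n, (Λ : ℤ) + ∑ k ∈ Finset.range r, L i k * L j k ≤ S * A i j)
    (μ : Measure (ℕ → C)) [IsProbabilityMeasure μ] :
    ENNReal.ofReal ((Λ : ℝ) / (24 * S)) ≤
      expectedTime (Finset.univ : Finset (Equiv.Perm C)) μ := by
  have hcard : Fintype.card (Equiv.Perm C) = 24 := by
    rw [Fintype.card_perm, hC]
    rfl
  rw [expectedTime_univ, hcard]
  set p : ℕ → ℝ := fun i => μ.real (idx ⁻¹' {i}) with hp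
  have hpP : ∀ i, μ (idx ⁻¹' {i}) = ENNReal.ofReal (p i) := fun i => by
    rw [hp]
    simp only [Measure.real]
    exact (ENNReal.ofReal_toReal (measure_ne_top _ _)).symm
  have hp0 : ∀ i, 0 ≤ p i := fun i => ENNReal.toReal_nonneg
  have hsumP : ∑ i ∈ Finset.range n, μ (idx ⁻¹' {i}) = 1 := by
    have h := quad_lintegral μ idx hm n hn (fun _ => 1)
    simp only [lintegral_const, measure_univ, mul_one, one_mul] at h
    exact h.symm
  have hsum : ∑ i ∈ Finset.range n, p i = 1 := by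
    have h1 : ENNReal.ofReal (∑ i ∈ Finset.range n, p i) = 1 := by
      rw [ENNReal.ofReal_sum_of_nonneg fun i _ => hp0 i, ← hsumP]
      exact Finset.sum_congr rfl fun i _ => (hpP i).symm
    have h2 : 0 ≤ ∑ i ∈ Finset.range n, p i := Finset.sum_nonneg fun i _ => hp0 i
    have h3 := congrArg ENNReal.toReal h1
    rwa [ENNReal.toReal_ofReal h2, ENNReal.toReal_one] at h3
  have hq := quad_real n r A S Λ L hL p hp0 hsum
  have hlow : ∫⁻ x, ∫⁻ y, (A (idx x) (idx y) : ℝ≥0∞) / ((24 : ℕ) : ℝ≥0∞) ∂μ ∂μ ≤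
      ∫⁻ x, ∫⁻ y, cost x y / ((24 : ℕ) : ℝ≥0∞) ∂μ ∂μ :=
    lintegral_mono fun x => lintegral_mono fun y => ENNReal.div_le_div_right (hA x y) _
  refine le_trans ?_ hlow
  have hin : ∀ x, ∫⁻ y, (A (idx x) (idx y) : ℝ≥0∞) / ((24 : ℕ) : ℝ≥0∞) ∂μ =
      ∑ j ∈ Finset.range n, (A (idx x) j : ℝ≥0∞) / ((24 : ℕ) : ℝ≥0∞) * μ (idx ⁻¹' {j}) :=
    fun x => quad_lintegral μ idx hm n hn (fun j => (A (idx x) j : ℝ≥0∞) / ((24 : ℕ) : ℝ≥0∞))
  simp only [hin]
  rw [quad_lintegral μ idx hm n hn (fun i => ∑ j ∈ Finset.range n,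
    (A i j : ℝ≥0∞) / ((24 : ℕ) : ℝ≥0∞) * μ (idx ⁻¹' {j}))]
  have hfin : ∑ i ∈ Finset.range n, (∑ j ∈ Finset.range n,
      (A i j : ℝ≥0∞) / ((24 : ℕ) : ℝ≥0∞) * μ (idx ⁻¹' {j})) * μ (idx ⁻¹' {i}) =
      ENNReal.ofReal (∑ i ∈ Finset.range n, (∑ j ∈ Finset.range n,
        (A i j : ℝ) / 24 * p j) * p i) := by
    rw [ENNReal.ofReal_sum_of_nonneg fun i _ => mul_nonneg (Finset.sum_nonneg fun j _ =>
      mul_nonneg (by positivity) (hp0 j)) (hp0 i)]
    refine Finset.sum_congr rfl fun i _ => ?_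
    rw [ENNReal.ofReal_mul (Finset.sum_nonneg fun j _ => mul_nonneg (by positivity) (hp0 j)),
      ← hpP i, ENNReal.ofReal_sum_of_nonneg fun j _ => mul_nonneg (by positivity) (hp0 j)]
    congr 1
    refine Finset.sum_congr rfl fun j _ => ?_
    rw [ENNReal.ofReal_mul (by positivity), ← hpP j, ENNReal.ofReal_div_of_pos (by norm_num),
      ENNReal.ofReal_natCast]
    norm_num
  rw [hfin]
  refine ENNReal.ofReal_le_ofReal ?_
  have hSr : (0 : ℝ) < S := by exact_mod_cast hS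
  have hre : ∑ i ∈ Finset.range n, (∑ j ∈ Finset.range n, (A i j : ℝ) / 24 * p j) * p i =
      (∑ i ∈ Finset.range n, ∑ j ∈ Finset.range n, (A i j : ℝ) * p j * p i) / 24 := by
    rw [Finset.sum_div]
    refine Finset.sum_congr rfl fun i _ => ?_
    rw [Finset.sum_mul, Finset.sum_div]
    refine Finset.sum_congr rfl fun j _ => ?_
    ring
  rw [hre, div_le_div_iff₀ (by positivity) (by norm_num)]
  nlinarith [hq]

end Pool.Agent.H86.Cafe
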