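import Pool.Agent.H86.Cafe.Block
import Pool.Agent.H86.Cafe.Game

/-!
# The block strategy for the river problem with four cafés
-/

set_option autoImplicit false

open MeasureTheory
open scoped ENNReal

namespace Pool.Agent.H86.Cafe

/-- The café with the label `d`. -/
def dec (d : ℕ) : Fin 2 × Fin 2 :=
  if d = 0 then (0, 0) else if d = 1 then (0, 1) else if d = 2 then (1, 0) else (1, 1)

theorem dec_inj : ∀ a < 4, ∀ b < 4, dec a = dec b → a = b := by decide

/-- `dn` for every day, the first included, on which no meeting has happened before, and `vn` if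
there is no meeting at all. -/
noncomputable def sv (dn vn : ℕ) (as : List ℕ) : List ℕ → ℕ :=
  List.rec (motive := fun _ => List ℕ → ℕ) (fun _ => vn)
    (fun a _ ih bs => List.rec (motive := fun _ => ℕ) vn
      (fun b bs' _ => Nat.add dn (cond (Nat.beq a b) 0 (ih bs'))) bs) as

/-- Weighted sum over the second sequence. -/
noncomputable def inn (dn vn : ℕ) (as : List ℕ) (tl : List ℕ) (l : List (List ℕ × ℕ)) : ℕ :=
  List.rec 0 (fun q _ ih =>
    Nat.add (Nat.mul q.2 (sv dn vn as (q.1.map fun d => tl.getD d 0))) ih) l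

/-- Weighted sum over both sequences. -/
noncomputable def outr (dn vn : ℕ) (tl : List ℕ) (l l' : List (List ℕ × ℕ)) : ℕ :=
  List.rec 0 (fun q _ ih => Nat.add (Nat.mul q.2 (inn dn vn q.1 tl l')) ih) l

theorem sv_cons (dn vn a b : ℕ) (as bs : List ℕ) : sv dn vn (a :: as) (b :: bs) =
    dn + (if a = b then 0 else sv dn vn as bs) := by
  change dn + cond (Nat.beq a b) 0 (sv dn vn as bs) = _
  by_cases h : a = b
  · have : Nat.beq a b = true := by rw [h]; exact Nat.beq_refl b
    rw [this, if_pos h]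
    rfl
  · have : Nat.beq a b = false := by
      rw [← Bool.not_eq_true]
      intro h'
      exact h (Nat.eq_of_beq_eq_true h')
    rw [this, if_neg h]
    rfl

open Classical in
theorem sv_eq (dn vn : ℕ) (as bs : List ℕ) (h : as.length = bs.length) : sv dn vn as bs =
    dn * (∑ r ∈ Finset.range as.length,
      if (∀ s < r, as.getD s 0 ≠ bs.getD s 0) then 1 else 0) +
    vn * (if (∀ s < as.length, as.getD s 0 ≠ bs.getD s 0) then 1 else 0) := by
  induction as generalizing bs with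
  | nil => simp [sv]
  | cons a as ih =>
    cases bs with
    | nil => simp at h
    | cons b bs =>
      rw [sv_cons, ih bs (by simpa using h), List.length_cons, Finset.sum_range_succ']
      have key : ∀ r, (∀ s < r + 1, (a :: as).getD s 0 ≠ (b :: bs).getD s 0) ↔
          (a ≠ b ∧ ∀ s < r, as.getD s 0 ≠ bs.getD s 0) := by
        intro r
        constructor
        · intro h1
          refine ⟨by simpa using h1 0 (by omega), fun s hs => ?_⟩
          have := h1 (s + 1) (by omega)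
          simpa using this
        · rintro ⟨h1, h2⟩ s hs
          rcases s with _ | s
          · simpa using h1
          · have := h2 s (by omega)
            simpa using this
      simp only [key]
      by_cases hab : a = b
      · simp [hab]
      · simp only [hab, ne_eq, not_false_eq_true, true_and, if_false, not_lt_zero, false_imp_iff,
          implies_true, if_true]
        ring

theorem inn_eq (dn vn : ℕ) (as tl : List ℕ) (l : List (List ℕ × ℕ)) :
    inn dn vn as tl l =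
      ∑ j : Fin l.length, (l[j]).2 * sv dn vn as ((l[j]).1.map fun d => tl.getD d 0) := by
  induction l with
  | nil => simp [inn]
  | cons q l ih =>
    have e : inn dn vn as tl (q :: l) =
      q.2 * sv dn vn as (q.1.map fun d => tl.getD d 0) + inn dn vn as tl l := rfl
    rw [e, ih]
    simp only [List.length_cons]
    rw [Fin.sum_univ_succ]
    rfl

theorem outr_eq (dn vn : ℕ) (tl : List ℕ) (l l' : List (List ℕ × ℕ)) :
    outr dn vn tl l l' = ∑ i : Fin l.length, (l[i]).2 * inn dn vn (l[i]).1 tl l' := by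
  induction l with
  | nil => simp [outr]
  | cons q l ih =>
    have e : outr dn vn tl (q :: l) l' =
      q.2 * inn dn vn q.1 tl l' + outr dn vn tl l l' := rfl
    rw [e, ih]
    simp only [List.length_cons]
    rw [Fin.sum_univ_succ]
    rfl

/-- The block with given labels. -/
def toB (l : List ℕ) : Fin 10 → Fin 2 × Fin 2 := fun s => dec (l.getD s 0)

/-- The law of a block: the block `z i` has the probability `w i / D`. -/
noncomputable def nuB {n : ℕ} (z : Fin n → List ℕ) (w : Fin n → ℕ) (D : ℕ) :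
    Measure (Fin 10 → Fin 2 × Fin 2) :=
  ∑ i : Fin n, ((w i : ℝ≥0∞) / D) • Measure.dirac (toB (z i))

theorem nuB_prob {n : ℕ} (z : Fin n → List ℕ) (w : Fin n → ℕ) (D : ℕ) (hD : 0 < D)
    (hw : ∑ i, w i = D) : IsProbabilityMeasure (nuB z w D) := by
  refine ⟨?_⟩
  unfold nuB
  simp only [Measure.coe_finset_sum, Finset.sum_apply, Measure.smul_apply, measure_univ,
    smul_eq_mul, mul_one]
  simp only [div_eq_mul_inv]
  have h1 : (D : ℝ≥0∞) ≠ 0 := by exact_mod_cast hD.ne'
  rw [← Finset.sum_mul, ← Nat.cast_sum, hw, ENNReal.mul_inv_cancel h1 (ENNReal.natCast_ne_top _)]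

open Classical in
/-- The double sum for the law of two blocks. -/
theorem nuB_prod {n : ℕ} (z : Fin n → List ℕ) (w : Fin n → ℕ) (D : ℕ) (hD : 0 < D)
    (hw : ∑ i, w i = D)
    (A : Set ((Fin 10 → Fin 2 × Fin 2) × (Fin 10 → Fin 2 × Fin 2))) :
    ((nuB z w D).prod (nuB z w D)) A = ∑ i : Fin n, ∑ j : Fin n,
      ((w i : ℝ≥0∞) / D) * ((w j : ℝ≥0∞) / D) *
        (if (toB (z i), toB (z j)) ∈ A then 1 else 0) := by
  have hp := nuB_prob z w D hD hw
  have hA : MeasurableSet A := (Set.toFinite A).measurableSet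
  rw [Measure.prod_apply hA]
  have h1 : ∀ x, (nuB z w D) (Prod.mk x ⁻¹' A) = ∑ j : Fin n,
      ((w j : ℝ≥0∞) / D) * (if (x, toB (z j)) ∈ A then 1 else 0) := by
    intro x
    unfold nuB
    simp only [Measure.coe_finset_sum, Finset.sum_apply, Measure.smul_apply, smul_eq_mul]
    refine Finset.sum_congr rfl fun j _ => ?_
    rw [Measure.dirac_apply' _ (Set.toFinite _).measurableSet]
    congr 1
  simp only [h1]
  conv_lhs => rw [nuB]
  rw [lintegral_finset_sum_measure]
  refine Finset.sum_congr rfl fun i _ => ?_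
  rw [lintegral_smul_measure, lintegral_dirac, smul_eq_mul, Finset.mul_sum]
  refine Finset.sum_congr rfl fun j _ => ?_
  rw [mul_assoc]

open Classical in
/-- The main inequality: `S + Q v ≤ v` with `v = vn / dn`. -/
theorem block_bound {n : ℕ} (z : Fin n → List ℕ) (w : Fin n → ℕ) (D : ℕ) (hD : 0 < D)
    (hw : ∑ i, w i = D) (hz : ∀ i, (z i).length = 10 ∧ ∀ d ∈ z i, d < 4)
    (dn vn : ℕ) (hdn : 0 < dn) (t : ℕ → ℕ) (π : Equiv.Perm (Fin 2 × Fin 2))
    (ht : ∀ d < 4, t d < 4 ∧ dec (t d) = π (dec d))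
    (hc : ∑ i, ∑ j, w i * (w j * sv dn vn (z i) ((z j).map t)) ≤ vn * (D * D)) :
    (∑ r ∈ Finset.range 10, noMeet 10 (nuB z w D) π r) * (1 - noMeet 10 (nuB z w D) π 10)⁻¹ ≤
      (vn : ℝ≥0∞) / dn := by
  have hp := nuB_prob z w D hD hw
  have hdn0 : (dn : ℝ≥0∞) ≠ 0 := by exact_mod_cast hdn.ne'
  have hdnt : (dn : ℝ≥0∞) ≠ ⊤ := ENNReal.natCast_ne_top _
  have hD0 : (D : ℝ≥0∞) ≠ 0 := by exact_mod_cast hD.ne'
  have hDt : (D : ℝ≥0∞) ≠ ⊤ := ENNReal.natCast_ne_top _
  -- the indicator of no meeting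
  let I : Fin n → Fin n → ℕ → ℕ := fun i j r =>
    if (∀ s < r, (z i).getD s 0 ≠ ((z j).map t).getD s 0) then 1 else 0
  have hmem : ∀ (i j : Fin n) (r : ℕ), r ≤ 10 →
      ((toB (z i), toB (z j)) ∈ {p : (Fin 10 → Fin 2 × Fin 2) × (Fin 10 → Fin 2 × Fin 2) |
        ∀ s : Fin 10, (s : ℕ) < r → p.1 s ≠ π (p.2 s)} ↔
      ∀ s < r, (z i).getD s 0 ≠ ((z j).map t).getD s 0) := by
    intro i j r hr
    obtain ⟨li, di⟩ := hz i
    obtain ⟨lj, dj⟩ := hz j
    have hdi : ∀ s, s < 10 → (z i).getD s 0 < 4 := by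
      intro s hs
      rw [List.getD_eq_getElem _ _ (by rw [li]; exact hs)]
      exact di _ (List.getElem_mem _)
    have hdj : ∀ s, s < 10 → (z j).getD s 0 < 4 := by
      intro s hs
      rw [List.getD_eq_getElem _ _ (by rw [lj]; exact hs)]
      exact dj _ (List.getElem_mem _)
    have hmap : ∀ s, s < 10 → ((z j).map t).getD s 0 = t ((z j).getD s 0) := by
      intro s hs
      have h1 : s < (z j).length := by rw [lj]; exact hs
      have h2 : s < ((z j).map t).length := by rw [List.length_map]; exact h1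
      rw [List.getD_eq_getElem ((z j).map t) 0 h2, List.getElem_map,
        List.getD_eq_getElem (z j) 0 h1]
    have hiff : ∀ s, s < 10 → ((z i).getD s 0 = ((z j).map t).getD s 0 ↔
        dec ((z i).getD s 0) = π (dec ((z j).getD s 0))) := by
      intro s hs
      rw [hmap s hs, ← (ht _ (hdj s hs)).2]
      constructor
      · intro h; rw [h]
      · intro h; exact dec_inj _ (hdi s hs) _ (ht _ (hdj s hs)).1 h
    simp only [Set.mem_setOf_eq]
    constructor
    · intro h s hs h1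
      exact h ⟨s, by omega⟩ hs ((hiff s (by omega)).1 h1)
    · intro h s hs h1
      exact h s hs ((hiff s s.2).2 h1)
  -- natural number form
  have hnat : ∑ i, ∑ j, w i * (w j * (dn * (∑ r ∈ Finset.range 10, I i j r) +
      vn * I i j 10)) ≤ vn * (D * D) := by
    refine le_trans (le_of_eq ?_) hc
    refine Finset.sum_congr rfl fun i _ => Finset.sum_congr rfl fun j _ => ?_
    obtain ⟨li, di⟩ := hz i
    obtain ⟨lj, dj⟩ := hz j
    rw [sv_eq dn vn (z i) ((z j).map t) (by rw [List.length_map, li, lj]), li]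
  have hno : ∀ r ≤ 10, noMeet 10 (nuB z w D) π r = ∑ i : Fin n, ∑ j : Fin n,
      ((w i : ℝ≥0∞) / D) * ((w j : ℝ≥0∞) / D) * (I i j r : ℝ≥0∞) := by
    intro r hr
    unfold noMeet
    rw [nuB_prod z w D hD hw]
    refine Finset.sum_congr rfl fun i _ => Finset.sum_congr rfl fun j _ => ?_
    simp only [hmem i j r hr, I]
    push_cast
    rfl
  generalize hS : ∑ r ∈ Finset.range 10, noMeet 10 (nuB z w D) π r = S
  generalize hQ : noMeet 10 (nuB z w D) π 10 = Q
  have hSQ : (dn : ℝ≥0∞) * S + vn * Q ≤ vn := by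
    have e1 : (dn : ℝ≥0∞) * S + vn * Q = ∑ i : Fin n, ∑ j : Fin n,
        ((w i : ℝ≥0∞) / D) * ((w j : ℝ≥0∞) / D) *
        ((dn : ℝ≥0∞) * (∑ r ∈ Finset.range 10, (I i j r : ℝ≥0∞)) +
          vn * (I i j 10 : ℝ≥0∞)) := by
      rw [← hS, ← hQ, hno 10 le_rfl, Finset.sum_congr rfl fun r hr =>
        hno r (Finset.mem_range.1 hr).le]
      rw [Finset.sum_comm, Finset.mul_sum, Finset.mul_sum, ← Finset.sum_add_distrib]
      refine Finset.sum_congr rfl fun i _ => ?_
      rw [Finset.sum_comm, Finset.mul_sum, Finset.mul_sum, ← Finset.sum_add_distrib]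
      refine Finset.sum_congr rfl fun j _ => ?_
      rw [← Finset.mul_sum]
      ring
    have e2 : ∑ i : Fin n, ∑ j : Fin n,
        ((w i : ℝ≥0∞) / D) * ((w j : ℝ≥0∞) / D) *
        ((dn : ℝ≥0∞) * (∑ r ∈ Finset.range 10, (I i j r : ℝ≥0∞)) +
          vn * (I i j 10 : ℝ≥0∞)) =
        ((∑ i, ∑ j, w i * (w j * (dn * (∑ r ∈ Finset.range 10, I i j r) +
          vn * I i j 10)) : ℕ) : ℝ≥0∞) * ((D : ℝ≥0∞)⁻¹ * (D : ℝ≥0∞)⁻¹) := by
      push_cast
      rw [Finset.sum_mul]
      refine Finset.sum_congr rfl fun i _ => ?_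
      rw [Finset.sum_mul]
      refine Finset.sum_congr rfl fun j _ => ?_
      simp only [div_eq_mul_inv]
      ring
    rw [e1, e2]
    calc _ ≤ ((vn * (D * D) : ℕ) : ℝ≥0∞) * ((D : ℝ≥0∞)⁻¹ * (D : ℝ≥0∞)⁻¹) := by
          gcongr
      _ = vn * ((D : ℝ≥0∞) * (D : ℝ≥0∞)⁻¹ * ((D : ℝ≥0∞) * (D : ℝ≥0∞)⁻¹)) := by
          push_cast
          ring
      _ = vn := by
          rw [ENNReal.mul_inv_cancel hD0 hDt]
          ring
  have hQle : Q ≤ 1 := by
    rw [← hQ]
    unfold noMeet
    exact prob_le_one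
  have hvt : (vn : ℝ≥0∞) ≠ ⊤ := ENNReal.natCast_ne_top _
  have hQt : Q ≠ ⊤ := ne_top_of_le_ne_top ENNReal.one_ne_top hQle
  have h3 : (dn : ℝ≥0∞) * S ≤ vn * (1 - Q) := by
    rw [ENNReal.mul_sub (fun _ _ => hvt), mul_one]
    exact ENNReal.le_sub_of_add_le_right (ENNReal.mul_ne_top hvt hQt) hSQ
  have h4 : S ≤ (vn : ℝ≥0∞) / dn * (1 - Q) := by
    rw [ENNReal.div_eq_inv_mul, mul_assoc]
    calc S = (dn : ℝ≥0∞)⁻¹ * ((dn : ℝ≥0∞) * S) := by
          rw [← mul_assoc, ENNReal.inv_mul_cancel hdn0 hdnt, one_mul]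
      _ ≤ _ := by gcongr
  calc S * (1 - Q)⁻¹ ≤ (vn : ℝ≥0∞) / dn * (1 - Q) * (1 - Q)⁻¹ := by gcongr
    _ = (vn : ℝ≥0∞) / dn * ((1 - Q) * (1 - Q)⁻¹) := by ring
    _ ≤ (vn : ℝ≥0∞) / dn * 1 := by
        gcongr
        exact ENNReal.mul_inv_le_one _
    _ = _ := mul_one _

end Pool.Agent.H86.Cafe
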