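import Mathlib

/-!
# Data: the law of a block
-/

set_option autoImplicit false

namespace Pool.Agent.H86.Cafe

/-- Sequences of ten labels with their weights (total weight 2002). -/
def sp : List (List ℕ × ℕ) := [
  ([1, 2, 0, 0, 3, 3, 0, 3, 3, 1], 12),
  ([1, 3, 0, 0, 2, 2, 0, 2, 2, 1], 12),
  ([1, 2, 0, 2, 1, 2, 2, 0, 0, 3], 11),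
  ([1, 3, 0, 3, 1, 3, 3, 0, 0, 2], 11),
  ([0, 0, 2, 3, 1, 1, 3, 2, 3, 1], 21),
  ([0, 0, 3, 2, 1, 1, 2, 3, 2, 1], 21),
  ([1, 2, 0, 3, 2, 0, 1, 3, 3, 3], 13),
  ([1, 3, 0, 2, 3, 0, 1, 2, 2, 2], 13),
  ([2, 1, 1, 1, 1, 0, 1, 2, 2, 1], 19),
  ([3, 1, 1, 1, 1, 0, 1, 3, 3, 1], 19),
  ([0, 0, 2, 3, 1, 1, 0, 0, 2, 2], 14),
  ([0, 0, 3, 2, 1, 1, 0, 0, 3, 3], 14),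
  ([1, 2, 0, 2, 1, 2, 2, 3, 2, 2], 18),
  ([1, 3, 0, 3, 1, 3, 3, 2, 3, 3], 18),
  ([1, 2, 0, 0, 0, 1, 1, 3, 3, 3], 19),
  ([1, 3, 0, 0, 0, 1, 1, 2, 2, 2], 19),
  ([2, 3, 2, 1, 0, 2, 3, 3, 2, 2], 20),
  ([3, 2, 3, 1, 0, 3, 2, 2, 3, 3], 20),
  ([0, 0, 2, 3, 1, 1, 3, 1, 1, 0], 18),
  ([0, 0, 3, 2, 1, 1, 2, 1, 1, 0], 18),
  ([1, 2, 0, 0, 3, 3, 0, 0, 1, 0], 18),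
  ([1, 3, 0, 0, 2, 2, 0, 0, 1, 0], 18),
  ([1, 2, 0, 3, 2, 0, 1, 1, 0, 2], 19),
  ([1, 3, 0, 2, 3, 0, 1, 1, 0, 3], 19),
  ([1, 2, 0, 0, 0, 1, 1, 0, 1, 2], 21),
  ([1, 3, 0, 0, 0, 1, 1, 0, 1, 3], 21),
  ([2, 1, 1, 1, 3, 3, 0, 2, 2, 1], 12),
  ([3, 1, 1, 1, 2, 2, 0, 3, 3, 1], 12),
  ([0, 0, 2, 0, 0, 2, 2, 3, 1, 1], 10),
  ([0, 0, 3, 0, 0, 3, 3, 2, 1, 1], 10),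
  ([0, 0, 2, 1, 3, 0, 2, 1, 1, 3], 16),
  ([0, 0, 3, 1, 2, 0, 3, 1, 1, 2], 16),
  ([1, 2, 0, 0, 3, 3, 2, 1, 2, 2], 8),
  ([1, 3, 0, 0, 2, 2, 3, 1, 3, 3], 8),
  ([0, 0, 2, 1, 3, 0, 2, 3, 2, 2], 17),
  ([0, 0, 3, 1, 2, 0, 3, 2, 3, 3], 17),
  ([1, 2, 0, 0, 0, 1, 3, 1, 2, 0], 20),
  ([1, 3, 0, 0, 0, 1, 2, 1, 3, 0], 20),
  ([2, 3, 2, 0, 3, 0, 2, 0, 3, 0], 13),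
  ([3, 2, 3, 0, 2, 0, 3, 0, 2, 0], 13),
  ([0, 0, 2, 0, 0, 2, 1, 1, 0, 1], 19),
  ([0, 0, 3, 0, 0, 3, 1, 1, 0, 1], 19),
  ([0, 0, 2, 3, 1, 1, 1, 3, 0, 3], 17),
  ([0, 0, 3, 2, 1, 1, 1, 2, 0, 2], 17),
  ([2, 1, 1, 2, 0, 2, 2, 1, 1, 1], 3),
  ([3, 1, 1, 3, 0, 3, 3, 1, 1, 1], 3),
  ([0, 0, 2, 0, 0, 2, 1, 1, 0, 3], 2),
  ([0, 0, 3, 0, 0, 3, 1, 1, 0, 2], 2),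
  ([2, 3, 2, 0, 3, 0, 0, 1, 0, 2], 18),
  ([3, 2, 3, 0, 2, 0, 0, 1, 0, 3], 18),
  ([0, 0, 2, 0, 0, 2, 3, 0, 3, 0], 8),
  ([0, 0, 3, 0, 0, 3, 2, 0, 2, 0], 8),
  ([2, 3, 2, 0, 3, 0, 0, 2, 2, 3], 17),
  ([3, 2, 3, 0, 2, 0, 0, 3, 3, 2], 17),
  ([2, 3, 2, 0, 3, 0, 3, 3, 1, 1], 5),
  ([3, 2, 3, 0, 2, 0, 2, 2, 1, 1], 5),
  ([2, 1, 1, 3, 2, 1, 0, 0, 1, 3], 16),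
  ([3, 1, 1, 2, 3, 1, 0, 0, 1, 2], 16),
  ([2, 1, 1, 2, 0, 2, 2, 3, 2, 0], 7),
  ([3, 1, 1, 3, 0, 3, 3, 2, 3, 0], 7),
  ([2, 3, 2, 1, 0, 2, 3, 1, 1, 3], 18),
  ([3, 2, 3, 1, 0, 3, 2, 1, 1, 2], 18),
  ([2, 3, 2, 1, 0, 2, 1, 0, 3, 3], 6),
  ([3, 2, 3, 1, 0, 3, 1, 0, 2, 2], 6),
  ([1, 2, 0, 3, 2, 0, 2, 0, 2, 0], 17),
  ([1, 3, 0, 2, 3, 0, 3, 0, 3, 0], 17),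
  ([2, 3, 2, 1, 0, 2, 0, 2, 0, 1], 7),
  ([3, 2, 3, 1, 0, 3, 0, 3, 0, 1], 7),
  ([1, 2, 0, 2, 1, 2, 1, 1, 3, 3], 14),
  ([1, 3, 0, 3, 1, 3, 1, 1, 2, 2], 14),
  ([2, 1, 1, 3, 2, 1, 0, 3, 3, 2], 18),
  ([3, 1, 1, 2, 3, 1, 0, 2, 2, 3], 18),
  ([0, 0, 2, 0, 0, 2, 1, 2, 2, 0], 13),
  ([0, 0, 3, 0, 0, 3, 1, 3, 3, 0], 13),
  ([2, 1, 1, 3, 2, 1, 3, 2, 0, 0], 19),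
  ([3, 1, 1, 2, 3, 1, 2, 3, 0, 0], 19),
  ([0, 0, 2, 1, 3, 0, 0, 0, 3, 3], 9),
  ([0, 0, 3, 1, 2, 0, 0, 0, 2, 2], 9),
  ([0, 0, 2, 3, 1, 1, 1, 3, 0, 1], 2),
  ([0, 0, 3, 2, 1, 1, 1, 2, 0, 1], 2),
  ([1, 2, 0, 2, 1, 2, 0, 2, 1, 0], 2),
  ([1, 3, 0, 3, 1, 3, 0, 3, 1, 0], 2),
  ([2, 1, 1, 2, 0, 2, 1, 2, 0, 2], 3),
  ([3, 1, 1, 3, 0, 3, 1, 3, 0, 3], 3),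
  ([0, 0, 2, 1, 3, 0, 0, 0, 1, 0], 4),
  ([0, 0, 3, 1, 2, 0, 0, 0, 1, 0], 4),
  ([0, 0, 2, 3, 2, 3, 2, 2, 3, 2], 6),
  ([0, 0, 3, 2, 3, 2, 3, 3, 2, 3], 6),
  ([0, 0, 2, 3, 2, 3, 0, 3, 0, 3], 16),
  ([0, 0, 3, 2, 3, 2, 0, 2, 0, 2], 16),
  ([0, 0, 2, 3, 2, 3, 1, 0, 2, 1], 5),
  ([0, 0, 3, 2, 3, 2, 1, 0, 3, 1], 5),
  ([0, 0, 2, 3, 2, 3, 2, 2, 3, 1], 15),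
  ([0, 0, 3, 2, 3, 2, 3, 3, 2, 1], 15),
  ([0, 0, 2, 3, 2, 3, 3, 1, 1, 0], 5),
  ([0, 0, 3, 2, 3, 2, 2, 1, 1, 0], 5),
  ([0, 0, 2, 3, 2, 3, 1, 0, 2, 2], 17),
  ([0, 0, 3, 2, 3, 2, 1, 0, 3, 3], 17),
  ([0, 0, 2, 0, 0, 2, 1, 2, 2, 3], 5),
  ([0, 0, 3, 0, 0, 3, 1, 3, 3, 2], 5),
  ([2, 1, 1, 2, 0, 2, 0, 0, 3, 1], 14),
  ([3, 1, 1, 3, 0, 3, 0, 0, 2, 1], 14),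
  ([2, 1, 1, 2, 0, 2, 2, 1, 1, 2], 15),
  ([3, 1, 1, 3, 0, 3, 3, 1, 1, 3], 15),
  ([2, 1, 1, 2, 0, 2, 2, 3, 2, 3], 12),
  ([3, 1, 1, 3, 0, 3, 3, 2, 3, 2], 12),
  ([0, 0, 2, 3, 2, 3, 2, 2, 3, 0], 1),
  ([0, 0, 3, 2, 3, 2, 3, 3, 2, 0], 1),
  ([0, 0, 2, 3, 2, 3, 0, 3, 0, 1], 6),
  ([0, 0, 3, 2, 3, 2, 0, 2, 0, 1], 6),
  ([2, 1, 1, 1, 3, 3, 0, 2, 2, 3], 5),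
  ([3, 1, 1, 1, 2, 2, 0, 3, 3, 2], 5),
  ([1, 2, 0, 0, 3, 3, 3, 2, 0, 1], 17),
  ([1, 3, 0, 0, 2, 2, 2, 3, 0, 1], 17),
  ([2, 3, 2, 2, 1, 1, 1, 0, 1, 1], 20),
  ([3, 2, 3, 3, 1, 1, 1, 0, 1, 1], 20),
  ([2, 3, 2, 2, 1, 1, 1, 2, 2, 0], 20),
  ([3, 2, 3, 3, 1, 1, 1, 3, 3, 0], 20),
  ([2, 3, 2, 2, 1, 1, 3, 3, 0, 3], 15),
  ([3, 2, 3, 3, 1, 1, 2, 2, 0, 2], 15),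
  ([1, 2, 0, 0, 0, 1, 2, 2, 0, 2], 11),
  ([1, 3, 0, 0, 0, 1, 3, 3, 0, 3], 11),
  ([2, 3, 2, 1, 0, 2, 1, 0, 3, 1], 7),
  ([3, 2, 3, 1, 0, 3, 1, 0, 2, 1], 7),
  ([2, 3, 2, 2, 2, 3, 2, 3, 0, 1], 11),
  ([3, 2, 3, 3, 3, 2, 3, 2, 0, 1], 11),
  ([2, 3, 2, 2, 2, 3, 3, 1, 3, 2], 9),
  ([3, 2, 3, 3, 3, 2, 2, 1, 2, 3], 9),
  ([1, 2, 0, 3, 2, 0, 3, 2, 1, 3], 9),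
  ([1, 3, 0, 2, 3, 0, 2, 3, 1, 2], 9),
  ([2, 3, 2, 2, 2, 3, 0, 2, 2, 2], 9),
  ([3, 2, 3, 3, 3, 2, 0, 3, 3, 3], 9),
  ([2, 3, 2, 2, 2, 3, 0, 0, 1, 3], 12),
  ([3, 2, 3, 3, 3, 2, 0, 0, 1, 2], 12),
  ([2, 3, 2, 2, 2, 3, 0, 2, 2, 0], 12),
  ([3, 2, 3, 3, 3, 2, 0, 3, 3, 0], 12),
  ([0, 0, 2, 3, 2, 3, 2, 1, 1, 0], 14),
  ([0, 0, 3, 2, 3, 2, 3, 1, 1, 0], 14),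
  ([0, 0, 2, 3, 2, 3, 2, 2, 3, 3], 6),
  ([0, 0, 3, 2, 3, 2, 3, 3, 2, 2], 6),
  ([1, 2, 0, 0, 0, 1, 1, 0, 1, 0], 3),
  ([1, 3, 0, 0, 0, 1, 1, 0, 1, 0], 3),
  ([2, 1, 1, 1, 3, 3, 0, 0, 1, 2], 9),
  ([3, 1, 1, 1, 2, 2, 0, 0, 1, 3], 9),
  ([2, 1, 1, 1, 3, 3, 3, 1, 3, 3], 7),
  ([3, 1, 1, 1, 2, 2, 2, 1, 2, 2], 7),
  ([2, 1, 1, 1, 3, 3, 0, 0, 1, 0], 12),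
  ([3, 1, 1, 1, 2, 2, 0, 0, 1, 0], 12),
  ([2, 3, 2, 2, 1, 1, 3, 1, 3, 2], 6),
  ([3, 2, 3, 3, 1, 1, 2, 1, 2, 3], 6),
  ([2, 3, 2, 2, 2, 3, 0, 0, 1, 1], 14),
  ([3, 2, 3, 3, 3, 2, 0, 0, 1, 1], 14),
  ([2, 1, 1, 1, 1, 0, 1, 0, 1, 0], 21),
  ([3, 1, 1, 1, 1, 0, 1, 0, 1, 0], 21),
  ([2, 1, 1, 1, 1, 0, 3, 3, 0, 0], 9),
  ([3, 1, 1, 1, 1, 0, 2, 2, 0, 0], 9),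
  ([2, 1, 1, 1, 1, 0, 3, 3, 0, 2], 13),
  ([3, 1, 1, 1, 1, 0, 2, 2, 0, 3], 13),
  ([2, 1, 1, 1, 3, 3, 2, 3, 0, 3], 15),
  ([3, 1, 1, 1, 2, 2, 3, 2, 0, 2], 15),
  ([2, 1, 1, 1, 1, 0, 2, 1, 3, 2], 9),
  ([3, 1, 1, 1, 1, 0, 3, 1, 2, 3], 9),
  ([1, 2, 0, 2, 1, 2, 0, 2, 1, 2], 6),
  ([1, 3, 0, 3, 1, 3, 0, 3, 1, 3], 6),
  ([2, 3, 2, 2, 2, 3, 2, 3, 0, 3], 7),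
  ([3, 2, 3, 3, 3, 2, 3, 2, 0, 2], 7),
  ([2, 1, 1, 3, 2, 1, 2, 1, 2, 1], 4),
  ([3, 1, 1, 2, 3, 1, 3, 1, 3, 1], 4),
  ([1, 2, 0, 0, 0, 1, 2, 2, 0, 0], 3),
  ([1, 3, 0, 0, 0, 1, 3, 3, 0, 0], 3),
  ([2, 1, 1, 1, 1, 0, 1, 0, 1, 2], 2),
  ([3, 1, 1, 1, 1, 0, 1, 0, 1, 3], 2),
  ([0, 0, 2, 3, 1, 1, 3, 2, 3, 2], 2),
  ([0, 0, 3, 2, 1, 1, 2, 3, 2, 3], 2),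
  ([1, 2, 0, 3, 2, 0, 1, 3, 3, 0], 2),
  ([1, 3, 0, 2, 3, 0, 1, 2, 2, 0], 2)]

end Pool.Agent.H86.Cafe
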