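import Pool.Agent.H86.Cafe.Defs

/-!
# Café rendezvous: the values of the two problems

The `2 n` cafés are the pairs `(b, i)` with the bank `b : Fin 2` and `i : Fin n`.
-/

set_option autoImplicit false

open MeasureTheory
open scoped ENNReal

namespace Pool.Agent.H86.Cafe

/-- The group of the permutations of the `2 n` cafés which preserve the partition into the two
banks (possibly swapping the banks): two cafés are on the same bank iff their images are. -/
def riverGroup (n : ℕ) : Finset (Equiv.Perm (Fin 2 × Fin n)) :=
  Finset.univ.filter fun σ => ∀ x y : Fin 2 × Fin n, x.1 = y.1 ↔ (σ x).1 = (σ y).1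

/-- The least expected meeting time: the infimum over all laws `μ` on sequences of cafés, used by
both players independently, if the two labellings are independent uniform elements of `G`. -/
noncomputable def value {C : Type} [MeasurableSpace C] (G : Finset (Equiv.Perm C)) : ℝ≥0∞ :=
  ⨅ (μ : Measure (ℕ → C)) (_ : IsProbabilityMeasure μ), expectedTime G μ

/-- `R_river(n)`. -/
noncomputable def Rriver (n : ℕ) : ℝ≥0∞ := value (riverGroup n)

/-- `R(2 n)`, the value of the regular problem with `2 n` cafés. -/
noncomputable def Rregular (n : ℕ) : ℝ≥0∞ :=
  value (Finset.univ : Finset (Equiv.Perm (Fin 2 × Fin n)))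

end Pool.Agent.H86.Cafe
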