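import Pool.Agent.H86.Cafe.River
import Pool.Agent.H86.Cafe.RiverData
import Pool.Agent.H86.Cafe.Value

/-!
# The river group and the block strategy
-/

set_option autoImplicit false

open MeasureTheory
open scoped ENNReal

namespace Pool.Agent.H86.Cafe

theorem expectedTime_group {C : Type} [Fintype C] [DecidableEq C] [MeasurableSpace C]
    [MeasurableSingletonClass C] (G : Finset (Equiv.Perm C)) (hne : G.Nonempty)
    (h1 : ∀ σ ∈ G, ∀ τ ∈ G, σ⁻¹ * τ ∈ G) (h2 : ∀ σ ∈ G, ∀ τ ∈ G, σ * τ ∈ G)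
    (μ : Measure (ℕ → C)) [IsProbabilityMeasure μ] :
    expectedTime G μ = (∑ π ∈ G, ∫⁻ x, ∫⁻ y, meetTime x (fun t => π (y t)) ∂μ ∂μ) /
      (G.card : ℝ≥0∞) := by
  have hc : (G.card : ℝ≥0∞) ≠ 0 := by
    simpa using hne.ne_empty
  have hct : (G.card : ℝ≥0∞) ≠ ∞ := ENNReal.natCast_ne_top _
  have hpt : ∀ x y : ℕ → C, (∑ σ ∈ G, ∑ τ ∈ G, meetTime (fun t => σ (x t)) (fun t => τ (y t))) /
      (G.card : ℝ≥0∞) ^ 2 = (∑ π ∈ G, meetTime x (fun t => π (y t))) * (G.card : ℝ≥0∞)⁻¹ := by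
    intro x y
    have h3 : ∀ σ ∈ G, ∑ τ ∈ G, meetTime (fun t => σ (x t)) (fun t => τ (y t)) =
        ∑ π ∈ G, meetTime x (fun t => π (y t)) := by
      intro σ hσ
      refine Finset.sum_nbij' (fun τ => σ⁻¹ * τ) (fun π => σ * π) (fun τ hτ => h1 σ hσ τ hτ)
        (fun π hπ => h2 σ hσ π hπ) (fun τ _ => by simp) (fun π _ => by simp) ?_
      intro τ _
      exact meetTime_perm σ τ x y
    rw [Finset.sum_congr rfl h3, Finset.sum_const, nsmul_eq_mul, sq,
      ENNReal.mul_div_mul_left _ _ hc hct, div_eq_mul_inv]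
  unfold expectedTime
  simp only [hpt]
  have hm : ∀ π : Equiv.Perm C, Measurable (fun p : (ℕ → C) × (ℕ → C) =>
      meetTime p.1 (fun t => π (p.2 t))) := fun π => block_measurable_meetTime π
  have hcinv : (G.card : ℝ≥0∞)⁻¹ ≠ ∞ := ENNReal.inv_ne_top.2 hc
  simp only [lintegral_mul_const' _ _ hcinv]
  rw [div_eq_mul_inv]
  congr 1
  have h4 : ∀ x : ℕ → C, ∫⁻ y, ∑ π ∈ G, meetTime x (fun t => π (y t)) ∂μ =
      ∑ π ∈ G, ∫⁻ y, meetTime x (fun t => π (y t)) ∂μ := by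
    intro x
    exact lintegral_finsetSum _ fun π _ => (hm π).comp measurable_prodMk_left
  simp only [h4]
  exact lintegral_finsetSum _ fun π _ => (hm π).lintegral_prod_right'

theorem riverGroup_mem {n : ℕ} (σ : Equiv.Perm (Fin 2 × Fin n)) : σ ∈ riverGroup n ↔
    ∀ x y : Fin 2 × Fin n, x.1 = y.1 ↔ (σ x).1 = (σ y).1 := by
  simp [riverGroup]

theorem riverGroup_mul {n : ℕ} (σ τ : Equiv.Perm (Fin 2 × Fin n)) (hσ : σ ∈ riverGroup n)
    (hτ : τ ∈ riverGroup n) : σ * τ ∈ riverGroup n := by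
  rw [riverGroup_mem] at *
  intro x y
  rw [hτ x y, hσ (τ x) (τ y)]
  rfl

theorem riverGroup_inv_mul {n : ℕ} (σ τ : Equiv.Perm (Fin 2 × Fin n)) (hσ : σ ∈ riverGroup n)
    (hτ : τ ∈ riverGroup n) : σ⁻¹ * τ ∈ riverGroup n := by
  rw [riverGroup_mem] at *
  intro x y
  rw [hτ x y, Equiv.Perm.mul_apply, Equiv.Perm.mul_apply, hσ (σ⁻¹ (τ x)) (σ⁻¹ (τ y))]
  simp

theorem riverGroup_one (n : ℕ) : (1 : Equiv.Perm (Fin 2 × Fin n)) ∈ riverGroup n := by
  rw [riverGroup_mem]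
  intro x y
  rfl

theorem tabs : ∀ π ∈ riverGroup 2, π (0, 0) = (0, 0) ∨
    (π (0, 0) = (0, 1) ∧ ∃ tl ∈ ([[1, 0, 2, 3], [1, 0, 3, 2]] : List (List ℕ)),
      ∀ d < 4, tl.getD d 0 < 4 ∧ dec (tl.getD d 0) = π (dec d)) ∨
    ((π (0, 0)).1 = 1 ∧
      ∃ tl ∈ ([[2, 3, 0, 1], [3, 2, 1, 0], [2, 3, 1, 0], [3, 2, 0, 1]] : List (List ℕ)),
      ∀ d < 4, tl.getD d 0 < 4 ∧ dec (tl.getD d 0) = π (dec d)) := by
  decide +kernel

theorem card_river : (riverGroup 2).card = 8 := by decide +kernel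

theorem card0 : ((riverGroup 2).filter fun π => π (0, 0) = (0, 0)).card = 2 := by decide +kernel

theorem card1 : ((riverGroup 2).filter fun π => π (0, 0) = (0, 1)).card = 2 := by decide +kernel

theorem card2 : ((riverGroup 2).filter fun π => (π (0, 0)).1 = 1).card = 4 := by decide +kernel

/-! ### The law of a block -/

theorem sp_sum : (Nat.beq (sp.map fun q => q.2).sum 2002) = true := by decide +kernel

theorem sp_digits : (sp.all fun q => (Nat.beq q.1.length 10) && q.1.all fun d => Nat.blt d 4) =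
    true := by decide +kernel

attribute [local irreducible] sp

def zz (i : Fin sp.length) : List ℕ := (sp[i]).1

def ww (i : Fin sp.length) : ℕ := (sp[i]).2

theorem zz_spec (i : Fin sp.length) : (zz i).length = 10 ∧ ∀ d ∈ zz i, d < 4 := by
  have h := sp_digits
  rw [List.all_eq_true] at h
  have h1 := h (sp[i]) (List.getElem_mem _)
  rw [Bool.and_eq_true, List.all_eq_true] at h1
  refine ⟨Nat.eq_of_beq_eq_true h1.1, fun d hd => ?_⟩
  exact Nat.lt_of_lt_of_le (Nat.lt_succ_self _) (Nat.le_of_ble_eq_true (h1.2 d hd))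

theorem ww_sum : ∑ i, ww i = 2002 := by
  have h := Nat.eq_of_beq_eq_true sp_sum
  rw [← h]
  exact Fin.sum_univ_fun_getElem sp fun q => q.2

/-- The law of a block of ten days. -/
noncomputable def nu : Measure (Fin 10 → Fin 2 × Fin 2) := nuB zz ww 2002

instance : IsProbabilityMeasure nu := nuB_prob zz ww 2002 (by norm_num) ww_sum

theorem nu_bound (vn : ℕ) (tl : List ℕ) (π : Equiv.Perm (Fin 2 × Fin 2))
    (htl : ∀ d < 4, tl.getD d 0 < 4 ∧ dec (tl.getD d 0) = π (dec d))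
    (hc : Nat.ble (outr 100000 vn tl sp sp) (Nat.mul vn (Nat.mul 2002 2002)) = true) :
    (∑ r ∈ Finset.range 10, noMeet 10 nu π r) * (1 - noMeet 10 nu π 10)⁻¹ ≤
      (vn : ℝ≥0∞) / (100000 : ℕ) := by
  refine block_bound zz ww 2002 (by norm_num) ww_sum zz_spec 100000 vn (by norm_num)
    (fun d => tl.getD d 0) π htl ?_
  have h1 : outr 100000 vn tl sp sp ≤ vn * (2002 * 2002) := Nat.le_of_ble_eq_true hc
  rw [outr_eq] at h1
  refine le_trans (le_of_eq ?_) h1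
  refine Finset.sum_congr rfl fun i _ => ?_
  rw [inn_eq, Finset.mul_sum]
  rfl

/-- The strategy. -/
noncomputable def muR : Measure (ℕ → Fin 2 × Fin 2) := blockLaw 10 (0, 0) nu

instance : IsProbabilityMeasure muR := by unfold muR; infer_instance

theorem I_fix (π : Equiv.Perm (Fin 2 × Fin 2)) (h : π (0, 0) = (0, 0)) :
    ∫⁻ x, ∫⁻ y, meetTime x (fun t => π (y t)) ∂muR ∂muR = 1 :=
  lintegral_meetTime_fix 10 (0, 0) nu π h

theorem I_move (π : Equiv.Perm (Fin 2 × Fin 2)) (h : π (0, 0) ≠ (0, 0)) (vn : ℕ)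
    (hb : (∑ r ∈ Finset.range 10, noMeet 10 nu π r) * (1 - noMeet 10 nu π 10)⁻¹ ≤
      (vn : ℝ≥0∞) / (100000 : ℕ)) :
    ∫⁻ x, ∫⁻ y, meetTime x (fun t => π (y t)) ∂muR ∂muR ≤ 1 + (vn : ℝ≥0∞) / (100000 : ℕ) := by
  have h1 := lintegral_meetTime_block 10 (0, 0) nu π h
  unfold muR
  rw [h1]
  gcongr

end Pool.Agent.H86.Cafe
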