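import Pool.Agent.H86.Cafe.Pack2

/-!
# Packed numbers: changing the width of the fields
-/

set_option autoImplicit false

namespace Pool.Agent.H86.Cafe

variable {w N x y : ℕ} {f g : ℕ → ℕ}

/-- The number whose `B` fields of width `W` are all `1`. -/
def repOnes (W B : ℕ) : ℕ := Nat.div (Nat.sub (Nat.pow 2 (Nat.mul W B)) 1) (Nat.sub (Nat.pow 2 W) 1)

theorem repOnes_rep (W B : ℕ) (hW : 1 ≤ W) : Rep W B (repOnes W B) (fun _ => 1) := by
  have hp : 2 ≤ 2 ^ W := by
    calc 2 = 2 ^ 1 := by norm_num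
      _ ≤ 2 ^ W := Nat.pow_le_pow_right (by norm_num) hW
  have h := rep_of_sum (w := W) B (fun _ => 1) (by intro j _; omega)
  have h2 : ∑ j ∈ Finset.range B, 1 * 2 ^ (W * j) = repOnes W B := by
    unfold repOnes
    change _ = (2 ^ (W * B) - 1) / (2 ^ W - 1)
    have h3 : (∑ j ∈ Finset.range B, 1 * 2 ^ (W * j)) * (2 ^ W - 1) = 2 ^ (W * B) - 1 := by
      have h4 := Nat.geomSum_eq (m := 2 ^ W) hp B
      have h5 : ∀ j, 1 * 2 ^ (W * j) = (2 ^ W) ^ j := fun j => by rw [pow_mul, one_mul]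
      simp only [h5]
      rw [h4, pow_mul 2 W B]
      apply Nat.div_mul_cancel
      have := Nat.sub_dvd_pow_sub_pow (2 ^ W) 1 B
      simpa using this
    rw [← h3, Nat.mul_div_cancel _ (by omega)]
  rw [h2] at h
  exact h

theorem repConst_rep (W B c : ℕ) (hW : 1 ≤ W) (hc : c < 2 ^ W) :
    Rep W B (Nat.mul c (repOnes W B)) (fun _ => c) := by
  have := (repOnes_rep W B hW).mul_const c (by intro j _; rw [mul_one]; exact hc)
  simpa using this

theorem Rep.restrict {K : ℕ} (h : Rep w (N + K) x f) (h0 : ∀ j, N ≤ j → j < N + K → f j = 0) :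
    Rep w N x f := by
  refine ⟨?_, fun j hj => h.eq j (by omega)⟩
  rw [h.sum, Finset.sum_range_add]
  have h1 : ∑ i ∈ Finset.range K, f (N + i) * 2 ^ (w * (N + i)) = 0 := by
    apply Finset.sum_eq_zero
    intro i hi
    rw [h0 (N + i) (by omega) (by have := Finset.mem_range.1 hi; omega), zero_mul]
  rw [h1, add_zero]
  exact sum_lt_pow N f fun j hj => h.f_lt (by omega)

/-- Fields of width `V` from fields of width `2 V`. -/
theorem Rep.refine {V B : ℕ} (h : Rep (2 * V) B x f) (hg : ∀ j < 2 * B, g j < 2 ^ V)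
    (hf : ∀ i < B, f i = g (2 * i) + g (2 * i + 1) * 2 ^ V) : Rep V (2 * B) x g := by
  have h1 := rep_of_sum (w := V) (2 * B) g hg
  have h2 : ∑ j ∈ Finset.range (2 * B), g j * 2 ^ (V * j) = x := by
    rw [h.sum]
    have key : ∀ M, ∑ j ∈ Finset.range (2 * M), g j * 2 ^ (V * j) =
        ∑ j ∈ Finset.range M, (g (2 * j) + g (2 * j + 1) * 2 ^ V) * 2 ^ (2 * V * j) := by
      intro M
      induction M with
      | zero => simp
      | succ M ih =>
        rw [show 2 * (M + 1) = 2 * M + 1 + 1 by ring, Finset.sum_range_succ,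
          Finset.sum_range_succ, ih, Finset.sum_range_succ, add_assoc]
        congr 1
        have e1 : V * (2 * M) = 2 * V * M := by ring
        have e2 : V * (2 * M + 1) = V + 2 * V * M := by ring
        rw [e1, e2, pow_add]
        ring
    rw [key B]
    exact Finset.sum_congr rfl fun i hi => by rw [hf i (Finset.mem_range.1 hi)]
  rw [h2] at h1
  exact h1

/-- One step of the conversion. -/
def sprStep (u V B x : ℕ) : ℕ :=
  Nat.land (Nat.mul (Nat.add (Nat.pow 2 (Nat.sub V u)) 1) x)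
    (Nat.mul (Nat.mul (Nat.sub (Nat.pow 2 u) 1) (Nat.add (Nat.pow 2 V) 1))
      (repOnes (Nat.mul 2 V) B))

theorem and_concat (A m h k V : ℕ) (hA : A < 2 ^ V) (hm : m < 2 ^ V) :
    (2 ^ V * h + A) &&& (2 ^ V * k + m) = 2 ^ V * (h &&& k) + (A &&& m) := by
  have hAm : A &&& m < 2 ^ V := Nat.and_lt_two_pow _ hm
  apply Nat.eq_of_testBit_eq
  intro i
  rw [Nat.testBit_and, Nat.testBit_two_pow_mul_add _ hA, Nat.testBit_two_pow_mul_add _ hm,
    Nat.testBit_two_pow_mul_add _ hAm]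
  split_ifs
  · rw [Nat.testBit_and]
  · rw [Nat.testBit_and]

theorem spr_land (lo hi u V : ℕ) (hu1 : 1 ≤ u) (hu : 3 * u ≤ V) (hlo : lo < 2 ^ u)
    (hhi : hi < 2 ^ u) :
    ((2 ^ (V - u) + 1) * (lo + hi * 2 ^ u)) &&& ((2 ^ u - 1) * (2 ^ V + 1)) =
      lo + hi * 2 ^ V := by
  have e1 : 2 ^ V = 2 ^ (V - u) * 2 ^ u := by rw [← pow_add]; congr 1; omega
  have e2 : 2 ^ (V - u) = 2 ^ (V - 2 * u) * 2 ^ u := by rw [← pow_add]; congr 1; omega
  have hA : lo + hi * 2 ^ u + 2 ^ (V - u) * lo < 2 ^ V := by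
    have h1 : lo + hi * 2 ^ u < 2 ^ (V - u) := by
      have h3 : lo + hi * 2 ^ u < 2 ^ u * 2 ^ u := by
        calc lo + hi * 2 ^ u < 2 ^ u + hi * 2 ^ u := by omega
          _ = (hi + 1) * 2 ^ u := by ring
          _ ≤ 2 ^ u * 2 ^ u := Nat.mul_le_mul_right _ (by omega)
      have h4 : 2 ^ u * 2 ^ u ≤ 2 ^ (V - u) := by
        rw [← pow_add]
        exact Nat.pow_le_pow_right (by norm_num) (by omega)
      omega
    have h2 : 2 ^ (V - u) * lo + 2 ^ (V - u) ≤ 2 ^ V := by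
      rw [e1, ← Nat.mul_succ]
      exact Nat.mul_le_mul_left _ hlo
    omega
  have hm : 2 ^ u - 1 < 2 ^ V := by
    have : 2 ^ u ≤ 2 ^ V := Nat.pow_le_pow_right (by norm_num) (by omega)
    have : 1 ≤ 2 ^ u := Nat.one_le_two_pow
    omega
  have l1 : (2 ^ (V - u) + 1) * (lo + hi * 2 ^ u) =
      2 ^ V * hi + (lo + hi * 2 ^ u + 2 ^ (V - u) * lo) := by
    rw [e1]; ring
  have l2 : (2 ^ u - 1) * (2 ^ V + 1) = 2 ^ V * (2 ^ u - 1) + (2 ^ u - 1) := by ring
  rw [l1, l2, and_concat _ _ _ _ V hA hm]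
  have l3 : (lo + hi * 2 ^ u + 2 ^ (V - u) * lo) &&& (2 ^ u - 1) = lo := by
    rw [Nat.and_two_pow_sub_one_eq_mod, e2]
    have : lo + hi * 2 ^ u + 2 ^ (V - 2 * u) * 2 ^ u * lo =
        lo + (hi + 2 ^ (V - 2 * u) * lo) * 2 ^ u := by ring
    rw [this, Nat.add_mul_mod_self_right, Nat.mod_eq_of_lt hlo]
  have l4 : hi &&& (2 ^ u - 1) = hi := by
    rw [Nat.and_two_pow_sub_one_eq_mod, Nat.mod_eq_of_lt hhi]
  rw [l3, l4]
  ring

theorem sprStep_rep {u V B : ℕ} {lo hi : ℕ → ℕ} (hu1 : 1 ≤ u) (hu : 3 * u ≤ V)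
    (h : Rep (2 * V) B x (fun i => lo i + hi i * 2 ^ u))
    (hlo : ∀ i < B, lo i < 2 ^ u) (hhi : ∀ i < B, hi i < 2 ^ u) :
    Rep (2 * V) B (sprStep u V B x) (fun i => lo i + hi i * 2 ^ V) := by
  have hpu : 1 ≤ 2 ^ u := Nat.one_le_two_pow
  have m1 := repConst_rep (2 * V) B ((2 ^ u - 1) * (2 ^ V + 1)) (by omega) (by
    have e : 2 ^ (2 * V) = 2 ^ V * 2 ^ V := by rw [← pow_add]; congr 1; ring
    have h1 : 2 ^ u * 2 ≤ 2 ^ V := by
      rw [← pow_succ]
      exact Nat.pow_le_pow_right (by norm_num) (by omega)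
    have h2 : 1 ≤ 2 ^ V := Nat.one_le_two_pow
    calc (2 ^ u - 1) * (2 ^ V + 1) < 2 ^ u * (2 ^ V + 2 ^ V) := by
          apply Nat.mul_lt_mul_of_lt_of_le (by omega) (by omega) (by positivity)
      _ = (2 ^ u * 2) * 2 ^ V := by ring
      _ ≤ 2 ^ V * 2 ^ V := Nat.mul_le_mul_right _ h1
      _ = _ := e.symm)
  have a1 := h.mul_const (2 ^ (V - u) + 1) (by
    intro j hj
    have h1 := hlo j hj
    have h2 := hhi j hj
    have h3 : lo j + hi j * 2 ^ u < 2 ^ u * 2 ^ u := by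
      calc lo j + hi j * 2 ^ u < 2 ^ u + hi j * 2 ^ u := by omega
        _ = (hi j + 1) * 2 ^ u := by ring
        _ ≤ 2 ^ u * 2 ^ u := Nat.mul_le_mul_right _ (by omega)
    have h4 : 2 ^ (V - u) + 1 ≤ 2 ^ (V - u) * 2 := by
      have : 1 ≤ 2 ^ (V - u) := Nat.one_le_two_pow
      omega
    calc (2 ^ (V - u) + 1) * (lo j + hi j * 2 ^ u)
        < (2 ^ (V - u) + 1) * (2 ^ u * 2 ^ u) := by
          apply Nat.mul_lt_mul_of_pos_left h3 (by positivity)
      _ ≤ (2 ^ (V - u) * 2) * (2 ^ u * 2 ^ u) := Nat.mul_le_mul_right _ h4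
      _ = 2 ^ (V - u + 1 + (u + u)) := by rw [pow_add, pow_succ, pow_add]
      _ ≤ 2 ^ (2 * V) := Nat.pow_le_pow_right (by norm_num) (by omega))
  refine Rep.congr (a1.land m1) ?_
  intro j hj
  exact spr_land _ _ _ _ hu1 hu (hlo j hj) (hhi j hj)

/-- The number made of `2 ^ t` fields of width `a`, starting from the field `i 2 ^ t`. -/
def pk (a : ℕ) (f : ℕ → ℕ) : ℕ → ℕ → ℕ
  | 0, i => f i
  | t + 1, i => pk a f t (2 * i) + pk a f t (2 * i + 1) * 2 ^ (a * 2 ^ t)

theorem pk_lt (a : ℕ) (f : ℕ → ℕ) (_n : ℕ) (t : ℕ) :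
    ∀ i, (∀ j < (i + 1) * 2 ^ t, f j < 2 ^ a) → pk a f t i < 2 ^ (a * 2 ^ t) := by
  induction t with
  | zero =>
    intro i h
    simp only [pow_zero, mul_one] at h ⊢
    exact h i (by omega)
  | succ t ih =>
    intro i h
    unfold pk
    have e : (i + 1) * 2 ^ (t + 1) = (2 * i + 2) * 2 ^ t := by ring
    have h1 := ih (2 * i) (fun j hj => h j (lt_of_lt_of_le hj (by
      rw [e]; exact Nat.mul_le_mul_right _ (by omega))))
    have h2 := ih (2 * i + 1) (fun j hj => h j (lt_of_lt_of_le hj (by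
      rw [e])))
    have e2 : 2 ^ (a * 2 ^ (t + 1)) = 2 ^ (a * 2 ^ t) * 2 ^ (a * 2 ^ t) := by
      rw [← pow_add]; congr 1; ring
    rw [e2]
    calc _ < 2 ^ (a * 2 ^ t) + pk a f t (2 * i + 1) * 2 ^ (a * 2 ^ t) := by omega
      _ = (pk a f t (2 * i + 1) + 1) * 2 ^ (a * 2 ^ t) := by ring
      _ ≤ _ := Nat.mul_le_mul_right _ (by omega)

theorem pk_eq_sum (a : ℕ) (f : ℕ → ℕ) (t : ℕ) :
    ∀ i, pk a f t i = ∑ j ∈ Finset.range (2 ^ t), f (i * 2 ^ t + j) * 2 ^ (a * j) := by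
  induction t with
  | zero => intro i; simp [pk]
  | succ t ih =>
    intro i
    unfold pk
    rw [ih, ih, pow_succ, Nat.mul_two, Finset.sum_range_add, Finset.sum_mul]
    congr 1
    · refine Finset.sum_congr rfl fun j _ => ?_
      congr 2
      ring
    · refine Finset.sum_congr rfl fun j _ => ?_
      rw [mul_assoc, ← pow_add]
      congr 2
      · ring
      · ring

/-- The conversion after `k` of `T` steps. -/
def sprN (a b T : ℕ) (x : ℕ) (k : ℕ) : ℕ :=
  Nat.rec x (fun k y => sprStep (Nat.mul a (Nat.pow 2 (Nat.sub (Nat.sub T 1) k)))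
    (Nat.mul b (Nat.pow 2 (Nat.sub (Nat.sub T 1) k))) (Nat.pow 2 k) y) k

theorem sprN_rep {a b T : ℕ} (ha : 1 ≤ a) (hab' : 3 * a ≤ b) (h : Rep a (2 ^ T) x f) (k : ℕ) :
    k ≤ T → Rep (b * 2 ^ (T - k)) (2 ^ k) (sprN a b T x k) (pk a f (T - k)) := by
  have hab : a ≤ b := by omega
  have hf : ∀ j < 2 ^ T, f j < 2 ^ a := fun j hj => h.f_lt hj
  induction k with
  | zero =>
    intro _
    have hx : x = pk a f T 0 := by
      rw [pk_eq_sum, h.sum]
      simp
    have hlt : pk a f T 0 < 2 ^ (b * 2 ^ T) := by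
      rw [← hx]
      refine lt_of_lt_of_le h.lt (Nat.pow_le_pow_right (by norm_num) ?_)
      exact Nat.mul_le_mul_right _ hab
    have h1 := rep_of_sum (w := b * 2 ^ (T - 0)) (2 ^ 0) (pk a f (T - 0)) (by
      intro j hj
      have : j = 0 := by simpa using hj
      subst this
      simpa using hlt)
    have h2 : ∑ j ∈ Finset.range (2 ^ 0), pk a f (T - 0) j * 2 ^ (b * 2 ^ (T - 0) * j) = x := by
      simp [hx]
    rw [h2] at h1
    exact h1
  | succ k ih =>
    intro hk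
    have h1 := ih (by omega)
    have e : T - k = (T - (k + 1)) + 1 := by omega
    have e' : T - 1 - k = T - (k + 1) := by omega
    rw [e] at h1
    have hsz : ∀ i < 2 ^ k, (2 * i + 2) * 2 ^ (T - (k + 1)) ≤ 2 ^ T := by
      intro i hi
      calc (2 * i + 2) * 2 ^ (T - (k + 1)) = (i + 1) * (2 ^ (T - (k + 1) + 1)) := by ring
        _ ≤ 2 ^ k * 2 ^ (T - (k + 1) + 1) := Nat.mul_le_mul_right _ (by omega)
        _ = 2 ^ T := by rw [← pow_add]; congr 1; omega
    have hlo : ∀ i < 2 ^ k, pk a f (T - (k + 1)) (2 * i) < 2 ^ (a * 2 ^ (T - (k + 1))) := by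
      intro i hi
      apply pk_lt a f 0
      intro j hj
      apply hf
      refine lt_of_lt_of_le hj (le_trans ?_ (hsz i hi))
      exact Nat.mul_le_mul_right _ (by omega)
    have hhi : ∀ i < 2 ^ k, pk a f (T - (k + 1)) (2 * i + 1) < 2 ^ (a * 2 ^ (T - (k + 1))) := by
      intro i hi
      apply pk_lt a f 0
      intro j hj
      apply hf
      exact lt_of_lt_of_le hj (hsz i hi)
    have hw : b * 2 ^ (T - (k + 1) + 1) = 2 * (b * 2 ^ (T - (k + 1))) := by ring
    rw [hw] at h1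
    have h2 := sprStep_rep (u := a * 2 ^ (T - (k + 1))) (V := b * 2 ^ (T - (k + 1)))
      (lo := fun i => pk a f (T - (k + 1)) (2 * i))
      (hi := fun i => pk a f (T - (k + 1)) (2 * i + 1))
      (Nat.mul_pos ha (by positivity)) (by
        rw [← Nat.mul_assoc]; exact Nat.mul_le_mul_right _ hab') h1 hlo hhi
    have h3 := Rep.refine (g := pk a f (T - (k + 1))) h2 (by
      intro j hj
      refine lt_of_lt_of_le (?_ : _ < 2 ^ (a * 2 ^ (T - (k + 1))))
        (Nat.pow_le_pow_right (by norm_num) (Nat.mul_le_mul_right _ hab))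
      apply pk_lt a f 0
      intro j' hj'
      apply hf
      refine lt_of_lt_of_le hj' ?_
      calc (j + 1) * 2 ^ (T - (k + 1)) ≤ (2 * 2 ^ k) * 2 ^ (T - (k + 1)) :=
            Nat.mul_le_mul_right _ (by omega)
        _ = 2 ^ (1 + k + (T - (k + 1))) := by rw [pow_add, pow_add]; ring
        _ = 2 ^ T := by congr 1; omega) (fun i _ => rfl)
    have e2 : 2 * 2 ^ k = 2 ^ (k + 1) := by ring
    rw [e2] at h3
    have e3 : sprN a b T x (k + 1) = sprStep (a * 2 ^ (T - (k + 1))) (b * 2 ^ (T - (k + 1)))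
        (2 ^ k) (sprN a b T x k) := by
      rw [← e']
      rfl
    rw [e3]
    exact h3

/-- Fields of width `8` to fields of width `32`, for at most `8192` fields. -/
def spread (x : ℕ) : ℕ := sprN 8 32 13 x 13

theorem spread_rep (hN : N ≤ 8192) (h : Rep 8 N x f) : Rep 32 N (spread x) f := by
  have h1 := h.extend (8192 - N)
  rw [show N + (8192 - N) = 2 ^ 13 by norm_num; omega] at h1
  have h2 := sprN_rep (a := 8) (b := 32) (T := 13) (by norm_num) (by norm_num) h1 13 le_rfl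
  simp only [Nat.sub_self, pow_zero, mul_one] at h2
  have h3 : Rep 32 (N + (8192 - N)) (spread x) (fun j => if j < N then f j else 0) := by
    rw [show N + (8192 - N) = 2 ^ 13 by norm_num; omega]
    exact h2
  have h4 := h3.restrict (by
    intro j hj _
    simp [show ¬ j < N by omega])
  exact h4.congr fun j hj => by simp [hj]

end Pool.Agent.H86.Cafe
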