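import Pool.Agent.H86.Cafe.Spread
import Pool.Agent.H86.Cafe.Cost

/-!
# Trees of finite sequences and their planes
-/

set_option autoImplicit false

namespace Pool.Agent.H86.Cafe

/-- Trees: `e` is empty, `l` is a leaf, `n` has the four children for the digits `0, 1, 2, 3`. -/
inductive T : Type
  | e : T
  | l : T
  | n : T → T → T → T → T

/-- Number of leaves. -/
noncomputable def T.size (t : T) : ℕ :=
  T.rec 0 1 (fun _ _ _ _ a b c d => Nat.add a (Nat.add b (Nat.add c d))) t

/-- The paths to the leaves in lexicographic order. -/
noncomputable def T.leaves (t : T) : List (List ℕ) :=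
  T.rec [] [[]] (fun _ _ _ _ a b c d => a.map (0 :: ·) ++ (b.map (1 :: ·) ++
    (c.map (2 :: ·) ++ d.map (3 :: ·)))) t

theorem T.leaves_n (a b c d : T) : (T.n a b c d).leaves =
    a.leaves.map (0 :: ·) ++ (b.leaves.map (1 :: ·) ++
    (c.leaves.map (2 :: ·) ++ d.leaves.map (3 :: ·))) := rfl

theorem T.size_n (a b c d : T) : (T.n a b c d).size = a.size + (b.size + (c.size + d.size)) := rfl

theorem T.length_leaves (t : T) : t.leaves.length = t.size := by
  induction t with
  | e => rfl
  | l => rfl
  | n a b c d ha hb hc hd =>
    rw [T.leaves_n, T.size_n]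
    simp [ha, hb, hc, hd]

/-- The path to the leaf number `j`. -/
noncomputable def T.path (t : T) (j : ℕ) : List ℕ := t.leaves.getD j []

theorem T.path_n (a b c d : T) (j : ℕ) (hj : j < (T.n a b c d).size) : (T.n a b c d).path j =
    if j < a.size then 0 :: a.path j else
    if j < a.size + b.size then 1 :: b.path (j - a.size) else
    if j < a.size + b.size + c.size then 2 :: c.path (j - a.size - b.size) else
      3 :: d.path (j - a.size - b.size - c.size) := by
  rw [T.size_n] at hj
  unfold T.path
  rw [T.leaves_n]
  have la := a.length_leaves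
  have lb := b.length_leaves
  have lc := c.length_leaves
  have ld := d.length_leaves
  split_ifs with h1 h2 h3
  · rw [List.getD_append _ _ _ _ (by simpa [la] using h1)]
    rw [List.getD_eq_getElem _ _ (by simpa [la] using h1),
      List.getD_eq_getElem _ _ (by simpa [la] using h1)]
    simp
  · rw [List.getD_append_right _ _ _ _ (by simp [la]; omega)]
    rw [List.getD_append _ _ _ _ (by simp [la, lb]; omega)]
    rw [List.getD_eq_getElem _ _ (by simp [la, lb]; omega),
      List.getD_eq_getElem _ _ (by rw [lb]; omega)]
    simp [la]
  · rw [List.getD_append_right _ _ _ _ (by simp [la]; omega)]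
    rw [List.getD_append_right _ _ _ _ (by simp [la, lb]; omega)]
    rw [List.getD_append _ _ _ _ (by simp [la, lb, lc]; omega)]
    rw [List.getD_eq_getElem _ _ (by simp [la, lb, lc]; omega),
      List.getD_eq_getElem _ _ (by rw [lc]; omega)]
    simp [la, lb]
  · rw [List.getD_append_right _ _ _ _ (by simp [la]; omega)]
    rw [List.getD_append_right _ _ _ _ (by simp [la, lb]; omega)]
    rw [List.getD_append_right _ _ _ _ (by simp [la, lb, lc]; omega)]
    rw [List.getD_eq_getElem _ _ (by simp [la, lb, lc, ld]; omega),
      List.getD_eq_getElem _ _ (by rw [ld]; omega)]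
    simp [la, lb, lc]

theorem T.path_digit (t : T) (j : ℕ) (s c : ℕ) (h : (t.path j)[s]? = some c) : c < 4 := by
  induction t generalizing j s with
  | e => simp [T.path, T.leaves] at h
  | l =>
    rcases Nat.eq_zero_or_pos j with rfl | hj
    · simp [T.path, T.leaves] at h
    · rw [T.path, List.getD_eq_default] at h
      · simp at h
      · exact hj
  | n a b c' d ha hb hc hd =>
    by_cases hj : j < (T.n a b c' d).size
    · rw [T.path_n a b c' d j hj] at h
      split_ifs at h
      all_goals
        rcases s with _ | s
        · simp at h; omega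
        · rw [List.getElem?_cons_succ] at h
          first
          | exact ha _ _ h
          | exact hb _ _ h
          | exact hc _ _ h
          | exact hd _ _ h
    · rw [T.path, List.getD_eq_default] at h
      · simp at h
      · rw [T.length_leaves]; omega

/-- Concatenation of four one-bit planes with `na`, `nb`, `nc`, … fields. -/
def cat4 (na nb nc x y z w : ℕ) : ℕ :=
  Nat.add x (Nat.mul (Nat.add y (Nat.mul (Nat.add z (Nat.mul w (Nat.pow 2 nc))) (Nat.pow 2 nb)))
    (Nat.pow 2 na))

theorem cat4_rep {na nb nc nd x y z w : ℕ} {f1 f2 f3 f4 : ℕ → ℕ} (h1 : Rep 1 na x f1)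
    (h2 : Rep 1 nb y f2) (h3 : Rep 1 nc z f3) (h4 : Rep 1 nd w f4) :
    Rep 1 (na + (nb + (nc + nd))) (cat4 na nb nc x y z w)
      (fun j => if j < na then f1 j else if j < na + nb then f2 (j - na) else
        if j < na + nb + nc then f3 (j - na - nb) else f4 (j - na - nb - nc)) := by
  have h := h1.append (h2.append (h3.append h4))
  simp only [one_mul] at h
  refine Rep.congr h ?_
  intro j hj
  by_cases a1 : j < na
  · simp [a1]
  · by_cases a2 : j < na + nb
    · simp [a1, a2, show j - na < nb by omega]
    · by_cases a3 : j < na + nb + nc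
      · simp [a1, a2, a3, show ¬ (j - na < nb) by omega, show j - na - nb < nc by omega]
      · simp [a1, a2, a3, show ¬ (j - na < nb) by omega, show ¬ (j - na - nb < nc) by omega]

/-- `n` ones. -/
def on1 (n : ℕ) : ℕ := Nat.sub (Nat.pow 2 n) 1

theorem on1_rep (n : ℕ) : Rep 1 n (on1 n) (fun _ => 1) := by
  have h := repOnes_rep 1 n le_rfl
  have : repOnes 1 n = on1 n := by
    unfold repOnes on1
    change (2 ^ (1 * n) - 1) / (2 ^ 1 - 1) = 2 ^ n - 1
    simp
  rw [this] at h
  exact h

theorem zero_rep (w n : ℕ) : Rep w n 0 (fun _ => 0) := ⟨by positivity, fun j _ => by simp [fld]⟩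

/-- The plane of the leaves whose digit number `s` is not `c`. -/
noncomputable def T.zpl (t : T) : ℕ → ℕ → ℕ :=
  T.rec (motive := fun _ => ℕ → ℕ → ℕ) (fun _ _ => 0) (fun _ _ => 1)
    (fun a b c d ra rb rc rd s ch =>
      Nat.rec (motive := fun _ => ℕ)
        (cat4 a.size b.size c.size (cond (Nat.beq ch 0) 0 (on1 a.size))
          (cond (Nat.beq ch 1) 0 (on1 b.size)) (cond (Nat.beq ch 2) 0 (on1 c.size))
          (cond (Nat.beq ch 3) 0 (on1 d.size)))
        (fun s' _ => cat4 a.size b.size c.size (ra s' ch) (rb s' ch) (rc s' ch) (rd s' ch)) s) t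

/-- The plane of the leaves with more than `s` digits. -/
noncomputable def T.apl (t : T) : ℕ → ℕ :=
  T.rec (motive := fun _ => ℕ → ℕ) (fun _ => 0) (fun _ => 0)
    (fun a b c d ra rb rc rd s =>
      Nat.rec (motive := fun _ => ℕ)
        (cat4 a.size b.size c.size (on1 a.size) (on1 b.size) (on1 c.size) (on1 d.size))
        (fun s' _ => cat4 a.size b.size c.size (ra s') (rb s') (rc s') (rd s')) s) t

theorem cond_on1_rep (n ch k : ℕ) :
    Rep 1 n (cond (Nat.beq ch k) 0 (on1 n)) (fun _ => if ch = k then 0 else 1) := by
  by_cases h : ch = k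
  · have : Nat.beq ch k = true := by rw [h]; exact Nat.beq_refl k
    rw [this]
    simp only [h, if_true, cond_true]
    exact zero_rep 1 n
  · have : Nat.beq ch k = false := by
      rw [← Bool.not_eq_true]
      intro h'
      exact h (Nat.eq_of_beq_eq_true h')
    rw [this]
    simp only [h, if_false, cond_false]
    exact on1_rep n

theorem T.zpl_rep (t : T) (s ch : ℕ) (hch : ch < 4) :
    Rep 1 t.size (t.zpl s ch) (fun j => if (t.path j)[s]? = some ch then 0 else 1) := by
  induction t generalizing s with
  | e => exact ⟨by simp [T.size, T.zpl], fun j hj => by simp [T.size] at hj⟩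
  | l =>
    refine Rep.congr (on1_rep 1) ?_
    intro j hj
    have : j = 0 := Nat.lt_one_iff.1 hj
    subst this
    simp [T.path, T.leaves]
  | n a b c d ha hb hc hd =>
    rcases s with _ | s
    · have h := cat4_rep (cond_on1_rep a.size ch 0) (cond_on1_rep b.size ch 1)
        (cond_on1_rep c.size ch 2) (cond_on1_rep d.size ch 3)
      refine Rep.congr h ?_
      intro j hj
      have hj' : j < (T.n a b c d).size := hj
      rw [T.path_n a b c d j hj']
      split_ifs <;> simp_all
    · have h := cat4_rep (ha s) (hb s) (hc s) (hd s)
      refine Rep.congr h ?_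
      intro j hj
      have hj' : j < (T.n a b c d).size := hj
      rw [T.path_n a b c d j hj']
      by_cases a1 : j < a.size
      · simp only [a1, if_true, List.getElem?_cons_succ]
      · by_cases a2 : j < a.size + b.size
        · simp only [a1, a2, if_true, if_false, List.getElem?_cons_succ]
        · by_cases a3 : j < a.size + b.size + c.size
          · simp only [a1, a2, a3, if_true, if_false, List.getElem?_cons_succ]
          · simp only [a1, a2, a3, if_false, List.getElem?_cons_succ]

theorem T.apl_rep (t : T) (s : ℕ) :
    Rep 1 t.size (t.apl s) (fun j => if s < (t.path j).length then 1 else 0) := by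
  induction t generalizing s with
  | e => exact ⟨by simp [T.size, T.apl], fun j hj => by simp [T.size] at hj⟩
  | l =>
    refine Rep.congr (zero_rep 1 1) ?_
    intro j hj
    have : j = 0 := Nat.lt_one_iff.1 hj
    subst this
    simp [T.path, T.leaves]
  | n a b c d ha hb hc hd =>
    rcases s with _ | s
    · have h := cat4_rep (on1_rep a.size) (on1_rep b.size) (on1_rep c.size) (on1_rep d.size)
      refine Rep.congr h ?_
      intro j hj
      have hj' : j < (T.n a b c d).size := hj
      rw [T.path_n a b c d j hj']
      split_ifs <;> simp_all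
    · have h := cat4_rep (ha s) (hb s) (hc s) (hd s)
      refine Rep.congr h ?_
      intro j hj
      have hj' : j < (T.n a b c d).size := hj
      rw [T.path_n a b c d j hj']
      by_cases a1 : j < a.size
      · simp only [a1, if_true, List.length_cons, Nat.add_lt_add_iff_right]
      · by_cases a2 : j < a.size + b.size
        · simp only [a1, a2, if_true, if_false, List.length_cons, Nat.add_lt_add_iff_right]
        · by_cases a3 : j < a.size + b.size + c.size
          · simp only [a1, a2, a3, if_true, if_false, List.length_cons, Nat.add_lt_add_iff_right]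
          · simp only [a1, a2, a3, if_false, List.length_cons, Nat.add_lt_add_iff_right]

end Pool.Agent.H86.Cafe
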