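import Pool.Agent.H86.Cafe.WTable

/-!
# The optimality inequality of `WS`
-/

set_option autoImplicit false

namespace Pool.Agent.H86.Cafe

theorem mS_le {a : ℕ → ℕ} (h : ∀ p < 24, a p ≤ 1) : mS a ≤ 24 :=
  (sumS_le_length (a := a) (l := all24) fun p hp => h p (all24_lt p hp)).trans (by decide)

theorem WS_le {a : ℕ → ℕ} (h : ∀ p < 24, a p ≤ 1) : WS a ≤ 72 := by
  have h1 := mS_le h
  have h9 := GS_le (mS a) 9
  have h11 := GS_le (mS a) 11
  have h14 := GS_le (mS a) 14
  have h18 := GS_le (mS a) 18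
  have h24 := GS_le (mS a) 24
  unfold WS
  omega

theorem WS_le' {a : ℕ → ℕ} (h : mS a ≤ 18) : WS a ≤ 48 := by
  have h9 := GS_le (mS a) 9
  have h11 := GS_le (mS a) 11
  have h14 := GS_le (mS a) 14
  have h18 := GS_le (mS a) 18
  have h24 : GS (mS a) 24 = 0 := by unfold GS; rw [if_neg]; omega
  unfold WS
  omega

theorem mS_congr {a a' : ℕ → ℕ} (h : ∀ p < 24, a p = a' p) : mS a = mS a' :=
  sumS_congr fun p hp => h p (all24_lt p hp)

theorem mP_rep {N x : ℕ} {F : ℕ → ℕ} (h : Rep 8 (24 * N) x F) (hF : ∀ q < 24 * N, F q ≤ 1) :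
    Rep 8 N (mP N x) (fun j => mS (fun p => F (N * p + j))) :=
  sumB_rep h hF all24 all24_lt (by decide)

attribute [local irreducible] nb ones alAll mP WP alPlane

theorem alAll_rep : ∃ G : ℕ → ℕ, Rep 8 (24 * 65536) alAll G ∧
    (∀ p < 24, ∀ E < 65536, G (65536 * p + E) = al E p) ∧ ∀ q < 24 * 65536, G q ≤ 1 := by
  obtain ⟨G, hG, hGF⟩ := concat_rep 65536 (fun p E => al E p) (all24.map alPlane) (by
    intro p hp
    rw [List.getElem_map]
    have hp' : p < 24 := by simpa [all24] using hp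
    have h24 : ∀ q : Fin 24, all24[q]'(by simp [all24]) = q := by decide
    have : all24[p]'(by simpa [all24] using hp) = p := h24 ⟨p, hp'⟩
    rw [this]
    exact alPlane_rep p)
  have e : (all24.map alPlane).length = 24 := by simp [all24]
  rw [e] at hG hGF
  refine ⟨G, by unfold alAll; exact hG, hGF, ?_⟩
  intro q hq
  have h1 : q = 65536 * (q / 65536) + q % 65536 := (Nat.div_add_mod q 65536).symm
  rw [h1, hGF (q / 65536) (by omega) (q % 65536) (Nat.mod_lt _ (by norm_num))]
  exact al_le _ _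

theorem WS_step (i : ℕ) (hc : chkBit i = true) (hi : i < 16) (E : ℕ) (hE : E < 65536)
    (hb : E.testBit i = false) : WS (al E) ≤ mS (al E) + WS (al (E + 2 ^ i)) := by
  obtain ⟨G, hG, hGF, hG1⟩ := alAll_rep
  have hW := WP_rep hG hG1
  have hm := mP_rep hG hG1
  have hW' : Rep 8 65536 (WP 65536 alAll) (fun j => WS (al j)) :=
    hW.congr fun j hj => WS_congr fun p hp => hGF p hp j hj
  have hm' : Rep 8 65536 (mP 65536 alAll) (fun j => mS (al j)) :=
    hm.congr fun j hj => mS_congr fun p hp => hGF p hp j hj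
  have hWb : ∀ j, WS (al j) ≤ 72 := fun j => WS_le fun p _ => al_le j p
  have hmb : ∀ j, mS (al j) ≤ 24 := fun j => mS_le fun p _ => al_le j p
  have h2i : 2 ^ i ≤ 65536 := by
    calc 2 ^ i ≤ 2 ^ 16 := Nat.pow_le_pow_right (by norm_num) (by omega)
      _ = 65536 := by norm_num
  have hsplit : 65536 = 2 ^ i + (65536 - 2 ^ i) := by omega
  have hW2 : Rep 8 (2 ^ i + (65536 - 2 ^ i)) (WP 65536 alAll) (fun j => WS (al j)) := by
    rw [← hsplit]; exact hW'
  have hsh := (hW2.shiftRight).extend (2 ^ i)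
  rw [show 65536 - 2 ^ i + 2 ^ i = 65536 by omega] at hsh
  have hadd := hm'.add hsh (by
    intro j hj
    have h1 := hmb j
    have h2 := hWb (2 ^ i + j)
    split_ifs
    · norm_num; omega
    · norm_num; omega)
  have hmask : Rep 8 65536 (Nat.mul 255 (nb i 16)) (fun E => if E.testBit i then 0 else 255) := by
    have := nb_rep i 16
    rw [show (2 : ℕ) ^ 16 = 65536 by norm_num] at this
    refine (this.mul_const 255 (by intro j _; split_ifs <;> norm_num)).congr ?_
    intro j _
    split_ifs <;> norm_num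
  have hA := hadd.land hmask
  have hB := hW'.land hmask
  have ho : Rep 8 65536 (Nat.mul 128 (ones 65536)) (fun _ => 2 ^ (8 - 1)) := by
    have := const8_rep 65536 128 (by norm_num)
    exact this
  have hkey := chkGE_sound (w := 8) (by norm_num) ho hA hB (by
    intro j hj
    refine lt_of_le_of_lt Nat.and_le_left ?_
    have h1 := hmb j
    have h2 := hWb (2 ^ i + j)
    split_ifs
    · norm_num; omega
    · norm_num; omega) (by
    intro j hj
    refine le_trans Nat.and_le_left ?_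
    have h2 := hWb j
    norm_num
    omega) hc E hE
  simp only [hb, Bool.false_eq_true, if_false] at hkey
  have hlt : E < 65536 - 2 ^ i := by
    by_contra hcon
    have hEp : E < 2 ^ 16 := by norm_num; exact hE
    -- the bit `i` of `E` would be set
    have h3 : E / 2 ^ i % 2 = 0 := by
      have := hb
      rw [Nat.testBit_eq_decide_div_mod_eq] at this
      simp at this
      exact this
    have h4 : 2 ^ 16 = 2 ^ i * 2 ^ (16 - i) := by rw [← pow_add]; congr 1; omega
    have h5 : E / 2 ^ i < 2 ^ (16 - i) := by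
      rw [Nat.div_lt_iff_lt_mul (by positivity), Nat.mul_comm, ← h4]
      exact hEp
    have h6 : 2 ^ (16 - i) ≤ E / 2 ^ i + 1 := by
      have h7 : 2 ^ i * (2 ^ (16 - i) - 1) ≤ E := by
        rw [Nat.mul_sub, ← h4, Nat.mul_one]
        norm_num
        omega
      have h8 : 2 ^ (16 - i) - 1 ≤ E / 2 ^ i := by
        rw [Nat.le_div_iff_mul_le (by positivity), Nat.mul_comm]
        exact h7
      omega
    have h9 : 2 ^ (16 - i) = 2 * 2 ^ (16 - i - 1) := by
      rw [← pow_succ']; congr 1; omega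
    omega
  rw [if_pos hlt] at hkey
  have hc1 : ∀ v : ℕ, v < 256 → v &&& 255 = v := by
    intro v hv
    have : (255 : ℕ) = 2 ^ 8 - 1 := by norm_num
    rw [this, Nat.and_two_pow_sub_one_eq_mod, Nat.mod_eq_of_lt]
    norm_num; exact hv
  have e1 := hWb E
  have e2 := hmb E
  have e3 := hWb (2 ^ i + E)
  rw [hc1 _ (by omega), hc1 _ (by omega)] at hkey
  rw [Nat.add_comm E]
  exact hkey

theorem lor_eq_add (E i : ℕ) (hb : E.testBit i = false) : E ||| 2 ^ i = E + 2 ^ i := by
  have hq : E / 2 ^ i % 2 = 0 := by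
    rw [Nat.testBit_eq_decide_div_mod_eq] at hb
    simpa using hb
  obtain ⟨r, hr⟩ : ∃ r, E / 2 ^ i = 2 ^ 1 * r := ⟨E / 2 ^ i / 2, by omega⟩
  have hE : E = 2 ^ i * (2 ^ 1 * r) + E % 2 ^ i := by
    rw [← hr]; exact (Nat.div_add_mod E (2 ^ i)).symm
  have hl : E % 2 ^ i < 2 ^ i := Nat.mod_lt _ (by positivity)
  generalize E % 2 ^ i = l at hE hl
  have h1 : E = 2 ^ i * (2 ^ 1 * r) ||| l := by
    rw [hE]; exact Nat.two_pow_add_eq_or_of_lt hl _
  have h2 : E + 2 ^ i = 2 ^ i * (2 ^ 1 * r + 1) ||| l := by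
    rw [← Nat.two_pow_add_eq_or_of_lt hl, hE]; ring
  rw [h2]
  conv_lhs => rw [h1]
  have h3 : 2 ^ 1 * r + 1 = 2 ^ 1 * r ||| 1 := Nat.two_pow_add_eq_or_of_lt (by norm_num) _
  rw [h3, Nat.or_assoc, Nat.or_comm l, ← Nat.or_assoc]
  congr 1
  rw [Nat.mul_comm (2 ^ i) (2 ^ 1 * r), Nat.mul_comm (2 ^ i) (2 ^ 1 * r ||| 1),
    ← Nat.shiftLeft_eq, ← Nat.shiftLeft_eq, Nat.shiftLeft_or_distrib]
  congr 1
  rw [Nat.shiftLeft_eq, one_mul]

attribute [local irreducible] chkBit

theorem WS_lor (E : ℕ) (hE : E < 65536) (i : ℕ) (hi : i < 16) :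
    WS (al E) ≤ mS (al E) + WS (al (E ||| 2 ^ i)) := by
  by_cases hb : E.testBit i = true
  · have : E ||| 2 ^ i = E := by
      apply Nat.eq_of_testBit_eq
      intro j
      rw [Nat.testBit_or, Nat.testBit_two_pow]
      by_cases hij : i = j
      · subst hij; simp [hb]
      · simp [hij]
    rw [this]
    omega
  · have hb' : E.testBit i = false := by simpa using hb
    rw [lor_eq_add E i hb']
    have hall := chk_all
    simp only [Bool.and_eq_true] at hall
    obtain ⟨h0, h1, h2, h3, h4, h5, h6, h7, h8, h9, h10, h11, h12, h13, h14, h15⟩ := hall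
    have hci : chkBit i = true := by
      interval_cases i <;> assumption
    exact WS_step i hci hi E hE hb'

end Pool.Agent.H86.Cafe
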