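import Pool.Agent.H86.Cafe.Pack2

/-!
# The bound `WS` satisfies the optimality inequality

The situations are the `65536` sets `E` of excluded pairs (bit `4 a + b`: the relabellings with
`b ↦ a` are excluded).  We check `WS (al E) ≤ mS (al E) + WS (al (E ||| 2 ^ i))`.
-/

set_option autoImplicit false

namespace Pool.Agent.H86.Cafe

/-- the value of the permutation number `p` at `b` -/
def pv (p b : ℕ) : ℕ := (perms.getD p []).getD b 0

/-- `1` if the relabelling number `p` is not excluded by `E`. -/
def al (E p : ℕ) : ℕ :=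
  (if E.testBit (4 * pv p 0 + 0) then 0 else 1) &&&
    ((if E.testBit (4 * pv p 1 + 1) then 0 else 1) &&&
      ((if E.testBit (4 * pv p 2 + 2) then 0 else 1) &&&
        (if E.testBit (4 * pv p 3 + 3) then 0 else 1)))

theorem al_le (E p : ℕ) : al E p ≤ 1 := by
  unfold al
  split_ifs <;> decide

/-- The plane of the sets `E < 2 ^ n` not containing `i`. -/
def nb (i : ℕ) : ℕ → ℕ
  | 0 => 1
  | n + 1 => if n = i then nb i n else Nat.add (nb i n) (Nat.mul (nb i n) (Nat.pow 2 (8 * 2 ^ n)))

theorem nb_rep (i n : ℕ) :
    Rep 8 (2 ^ n) (nb i n) (fun E => if E.testBit i then 0 else 1) := by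
  induction n with
  | zero =>
    constructor
    · norm_num [nb]
    · intro j hj
      have : j = 0 := by simpa using hj
      subst this
      simp [nb, fld]
  | succ n ih =>
    have e : 2 ^ (n + 1) = 2 ^ n + 2 ^ n := by ring
    rw [e]
    unfold nb
    by_cases hi : n = i
    · subst hi
      simp only [if_true]
      refine (ih.extend (2 ^ n)).congr ?_
      intro j hj
      by_cases hlt : j < 2 ^ n
      · simp [hlt]
      · have hb : j.testBit n = true := by
          have h1 : j = 2 ^ n + (j - 2 ^ n) := by omega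
          rw [h1, Nat.testBit_two_pow_add_eq]
          simp [Nat.testBit_lt_two_pow (show j - 2 ^ n < 2 ^ n by omega)]
        simp [hlt, hb]
    · simp only [if_neg hi]
      have h := ih.append ih
      change Rep 8 (2 ^ n + 2 ^ n) (nb i n + nb i n * 2 ^ (8 * 2 ^ n)) _
      refine h.congr ?_
      intro j hj
      by_cases hlt : j < 2 ^ n
      · simp [hlt]
      · have h1 : j = 2 ^ n + (j - 2 ^ n) := by omega
        have h2 : j.testBit i = (j - 2 ^ n).testBit i := by
          conv_lhs => rw [h1]
          by_cases hin : i < n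
          · rw [Nat.testBit_two_pow_add_gt hin]
          · have hin' : n < i := by omega
            rw [Nat.testBit_lt_two_pow, Nat.testBit_lt_two_pow]
            · calc j - 2 ^ n < 2 ^ n := by omega
                _ ≤ 2 ^ i := Nat.pow_le_pow_right (by norm_num) (by omega)
            · calc 2 ^ n + (j - 2 ^ n) < 2 ^ n + 2 ^ n := by omega
                _ = 2 ^ (n + 1) := by ring
                _ ≤ 2 ^ i := Nat.pow_le_pow_right (by norm_num) (by omega)
        simp only [hlt, if_false, h2]

/-- The alive planes over all `E`. -/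
def alPlane (p : ℕ) : ℕ :=
  Nat.land (nb (4 * pv p 0 + 0) 16) (Nat.land (nb (4 * pv p 1 + 1) 16)
    (Nat.land (nb (4 * pv p 2 + 2) 16) (nb (4 * pv p 3 + 3) 16)))

theorem alPlane_rep (p : ℕ) : Rep 8 65536 (alPlane p) (fun E => al E p) := by
  have h : ∀ i, Rep 8 65536 (nb i 16) (fun E => if E.testBit i then 0 else 1) := fun i => by
    have := nb_rep i 16
    norm_num at this
    exact this
  exact (h _).land ((h _).land ((h _).land (h _)))

def alAll : ℕ := concat (Nat.mul 8 65536) (all24.map alPlane)

/-- the check for the bit `i` -/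
def chkBit (i : ℕ) : Bool :=
  chkGE (Nat.mul 128 (ones 65536))
    (Nat.land (Nat.add (mP 65536 alAll) (Nat.shiftRight (WP 65536 alAll) (Nat.mul 8 (Nat.pow 2 i))))
      (Nat.mul 255 (nb i 16)))
    (Nat.land (WP 65536 alAll) (Nat.mul 255 (nb i 16)))

theorem chk_all : (and (chkBit 0) (and (chkBit 1) (and (chkBit 2) (and (chkBit 3)
    (and (chkBit 4) (and (chkBit 5) (and (chkBit 6) (and (chkBit 7) (and (chkBit 8)
    (and (chkBit 9) (and (chkBit 10) (and (chkBit 11) (and (chkBit 12) (and (chkBit 13)
    (and (chkBit 14) (chkBit 15)))))))))))))))) = true := by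
  decide +kernel

end Pool.Agent.H86.Cafe
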