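import Pool.Agent.H86.Cafe.Tree
import Pool.Agent.H86.Cafe.Circuit3

/-!
# Evaluation of the lower bounds along a tree
-/

set_option autoImplicit false

namespace Pool.Agent.H86.Cafe

/-- For `a = 0, 1, 2, 3` the digits `c` with `p(c) = a`, for all permutations `p`. -/
def ivT : List (List ℕ) :=
  [[0, 0, 0, 0, 0, 0, 1, 1, 2, 3, 2, 3, 1, 1, 2, 3, 2, 3, 1, 1, 2, 3, 2, 3],
   [1, 1, 2, 3, 2, 3, 0, 0, 0, 0, 0, 0, 2, 3, 1, 1, 3, 2, 2, 3, 1, 1, 3, 2],
   [2, 3, 1, 1, 3, 2, 2, 3, 1, 1, 3, 2, 0, 0, 0, 0, 0, 0, 3, 2, 3, 2, 1, 1],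
   [3, 2, 3, 2, 1, 1, 3, 2, 3, 2, 1, 1, 3, 2, 3, 2, 1, 1, 0, 0, 0, 0, 0, 0]]

theorem ivT_spec : ∀ a < 4, ∀ p < 24, ∀ c < 4,
    (c = (ivT.getD a []).getD p 0 ↔ pv p c = a) := by decide

theorem ivT_length : ∀ a < 4, (ivT.getD a []).length = 24 := by decide

theorem ivT_lt : ∀ a < 4, ∀ p < 24, (ivT.getD a []).getD p 0 < 4 := by decide

/-- The mask for the row digit `a`; `zb c` is the plane of the columns whose digit is not `c`. -/
def mskOf (Nb : ℕ) (zb : ℕ → ℕ) (a : ℕ) : ℕ := concat (Nat.mul 8 Nb) ((ivT.getD a []).map zb)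

theorem mskOf_rep (Nb : ℕ) (zb : ℕ → ℕ) (a : ℕ) (ha : a < 4) (D : ℕ → Option ℕ)
    (h : ∀ c < 4, Rep 8 Nb (zb c) (fun j => if D j = some c then 0 else 1)) :
    ∃ F, Rep 8 (24 * Nb) (mskOf Nb zb a) F ∧ ∀ p < 24, ∀ j < Nb,
      F (Nb * p + j) = if D j = some ((ivT.getD a []).getD p 0) then 0 else 1 := by
  have hl := ivT_length a ha
  obtain ⟨G, hG, hGF⟩ := concat_rep Nb
    (fun p j => if D j = some ((ivT.getD a []).getD p 0) then 0 else 1)
    ((ivT.getD a []).map zb) (by
      intro p hp
      have hp' : p < 24 := by rw [List.length_map, hl] at hp; exact hp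
      have e : (ivT.getD a [])[p]'(by rw [hl]; exact hp') = (ivT.getD a []).getD p 0 :=
        (List.getD_eq_getElem _ _ _).symm
      rw [List.getElem_map, e]
      exact h _ (ivT_lt a ha p hp'))
  rw [List.length_map, hl] at hG hGF
  exact ⟨G, hG, hGF⟩

/-- Walk along a tree of rows. `x` is the packed state of all columns, `acc` the accumulated cost;
only the leaves with numbers in `[b, b + m)` are tested by `lc`. -/
noncomputable def walk (Nb b m : ℕ) (msk : ℕ → ℕ → ℕ) (act : ℕ → ℕ) (lc : ℕ → ℕ → Bool) (t : T) :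
    ℕ → ℕ → ℕ → ℕ → Bool :=
  T.rec (motive := fun _ => ℕ → ℕ → ℕ → ℕ → Bool)
    (fun _ _ _ _ => true)
    (fun _ base x acc =>
      or (or (Nat.blt base b) (Nat.ble (Nat.add b m) base)) (lc base (Nat.add acc (WP2 Nb x))))
    (fun a b' c d ra rb rc rd s base x acc =>
      or (or (Nat.ble (Nat.add base (T.size (T.n a b' c d))) b) (Nat.ble (Nat.add b m) base))
        (and (Nat.ble s 10)
          (and (ra (Nat.succ s) base (Nat.land x (msk s 0))
            (Nat.add acc (Nat.land (mP2 Nb x) (act s))))
          (and (rb (Nat.succ s) (Nat.add base a.size) (Nat.land x (msk s 1))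
            (Nat.add acc (Nat.land (mP2 Nb x) (act s))))
          (and (rc (Nat.succ s) (Nat.add base (Nat.add a.size b'.size)) (Nat.land x (msk s 2))
            (Nat.add acc (Nat.land (mP2 Nb x) (act s))))
          (rd (Nat.succ s) (Nat.add base (Nat.add a.size (Nat.add b'.size c.size)))
            (Nat.land x (msk s 3)) (Nat.add acc (Nat.land (mP2 Nb x) (act s)))))))))
    t

/-! ## Soundness -/

theorem foldl_zip_snoc (as bs : List ℕ) (a : ℕ) (q : ℕ × ℕ) :
    (List.zip (as ++ [a]) bs).foldl stp q =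
      match bs[as.length]? with
      | some c => stp ((List.zip as bs).foldl stp q) (a, c)
      | none => (List.zip as bs).foldl stp q := by
  induction as generalizing bs q with
  | nil =>
    cases bs with
    | nil => simp
    | cons c bs => simp
  | cons x as ih =>
    cases bs with
    | nil => simp
    | cons c bs =>
      simp only [List.cons_append, List.zip_cons_cons, List.foldl_cons, List.length_cons,
        List.getElem?_cons_succ]
      exact ih bs _

theorem stf_snoc (as bs : List ℕ) (a : ℕ) :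
    stf (as ++ [a]) bs = match bs[as.length]? with
      | some c => stp (stf as bs) (a, c)
      | none => stf as bs := foldl_zip_snoc as bs a (1, 0)

theorem mS_al_le {E : ℕ} (h : E.testBit 0 = true) : mS (al E) ≤ 18 := by
  have h0 : ∀ p < 6, al E p = 0 := by
    intro p hp
    have : 4 * pv p 0 + 0 = 0 := by
      interval_cases p <;> rfl
    unfold al
    rw [this, h]
    simp
  have h1 : ∀ p, al E p ≤ 1 := al_le E
  rw [mS_eq, show (24 : ℕ) = 6 + 18 by norm_num, Finset.sum_range_add]
  have h2 : ∑ p ∈ Finset.range 6, al E p = 0 :=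
    Finset.sum_eq_zero fun p hp => h0 p (Finset.mem_range.1 hp)
  have h3 : ∑ p ∈ Finset.range 18, al E (6 + p) ≤ ∑ _p ∈ Finset.range 18, 1 :=
    Finset.sum_le_sum fun p _ => h1 _
  simp only [Finset.sum_const, Finset.card_range, smul_eq_mul] at h3
  omega

theorem foldl_bound (l : List (ℕ × ℕ)) : ∀ E A : ℕ, E.testBit 0 = true →
    ((l.foldl stp (E, A)).1.testBit 0 = true ∧ (l.foldl stp (E, A)).2 ≤ A + 18 * l.length) := by
  induction l with
  | nil => intro E A h; simp [h]
  | cons q l ih =>
    intro E A h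
    rw [List.foldl_cons]
    have e : stp (E, A) q = (E ||| 2 ^ (4 * q.1 + q.2), A + mS (al E)) := rfl
    rw [e]
    have h1 := ih (E ||| 2 ^ (4 * q.1 + q.2)) (A + mS (al E)) (by
      rw [Nat.testBit_or, h]; rfl)
    refine ⟨h1.1, h1.2.trans ?_⟩
    have h2 := mS_al_le h
    simp only [List.length_cons]
    omega

theorem stf_bit (as bs : List ℕ) : (stf as bs).1.testBit 0 = true :=
  (foldl_bound _ 1 0 (by decide)).1

theorem stf_le (as bs : List ℕ) : (stf as bs).2 ≤ 18 * as.length := by
  have h := (foldl_bound (List.zip as bs) 1 0 (by decide)).2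
  rw [List.length_zip] at h
  have h2 : (stf as bs).2 ≤ 0 + 18 * min as.length bs.length := h
  have h3 : min as.length bs.length ≤ as.length := min_le_left _ _
  omega

/-- The packed numbers `x`, `acc` describe the states of all columns after the row digits `as`. -/
structure Inv (Nb : ℕ) (col : ℕ → List ℕ) (as : List ℕ) (x acc : ℕ) : Prop where
  al : ∃ F, Rep 8 (24 * Nb) x F ∧ ∀ p < 24, ∀ j < Nb, F (Nb * p + j) = al (stf as (col j)).1 p
  acc : Rep 8 Nb acc (fun j => (stf as (col j)).2)

theorem field_le_one {Nb : ℕ} {F : ℕ → ℕ} {E : ℕ → ℕ}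
    (h : ∀ p < 24, ∀ j < Nb, F (Nb * p + j) = al (E j) p) : ∀ q < 24 * Nb, F q ≤ 1 := by
  intro q hq
  have hNb : 0 < Nb := by
    rcases Nat.eq_zero_or_pos Nb with rfl | h0
    · omega
    · exact h0
  have h1 : q = Nb * (q / Nb) + q % Nb := (Nat.div_add_mod q Nb).symm
  rw [h1, h (q / Nb) (by rw [Nat.div_lt_iff_lt_mul hNb]; exact hq) (q % Nb) (Nat.mod_lt _ hNb)]
  exact al_le _ _

theorem Inv.mS_rep {Nb : ℕ} {col : ℕ → List ℕ} {as : List ℕ} {x acc : ℕ}
    (h : Inv Nb col as x acc) : Rep 8 Nb (mP2 Nb x) (fun j => mS (Cafe.al (stf as (col j)).1)) := by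
  obtain ⟨F, hF, hF2⟩ := h.al
  exact (mP2_rep hF (field_le_one hF2)).congr fun j hj => mS_congr fun p hp => hF2 p hp j hj

theorem Inv.WS_rep {Nb : ℕ} {col : ℕ → List ℕ} {as : List ℕ} {x acc : ℕ}
    (h : Inv Nb col as x acc) : Rep 8 Nb (WP2 Nb x) (fun j => WS (Cafe.al (stf as (col j)).1)) := by
  obtain ⟨F, hF, hF2⟩ := h.al
  refine (WP2_rep hF (field_le_one hF2) ?_).congr fun j hj => WS_congr fun p hp => hF2 p hp j hj
  intro j hj
  rw [mS_congr fun p hp => hF2 p hp j hj]
  exact mS_al_le (stf_bit _ _)

theorem Inv.leaf {Nb : ℕ} {col : ℕ → List ℕ} {as : List ℕ} {x acc : ℕ}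
    (h : Inv Nb col as x acc) (hs : as.length ≤ 11) :
    Rep 8 Nb (Nat.add acc (WP2 Nb x)) (fun j => AS as (col j)) := by
  refine (h.acc.add h.WS_rep ?_).congr (fun j _ => rfl)
  intro j _
  have h1 := stf_le as (col j)
  have h2 := WS_le' (mS_al_le (stf_bit as (col j)))
  norm_num
  omega

theorem land255 {v : ℕ} (hv : v < 256) : v &&& 255 = v := by
  have : (255 : ℕ) = 2 ^ 8 - 1 := by norm_num
  rw [this, Nat.and_two_pow_sub_one_eq_mod, Nat.mod_eq_of_lt]
  norm_num; exact hv

theorem Inv.step {Nb : ℕ} {col : ℕ → List ℕ} {as : List ℕ} {x acc mk ac : ℕ}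
    (h : Inv Nb col as x acc) (hs : as.length ≤ 10) (a : ℕ) (ha : a < 4)
    (hcol : ∀ (j c : ℕ), (col j)[as.length]? = some c → c < 4)
    (hmk : ∃ F, Rep 8 (24 * Nb) mk F ∧ ∀ p < 24, ∀ j < Nb, F (Nb * p + j) =
      if (col j)[as.length]? = some ((ivT.getD a []).getD p 0) then 0 else 1)
    (hac : Rep 8 Nb ac (fun j => if as.length < (col j).length then 255 else 0)) :
    Inv Nb col (as ++ [a]) (Nat.land x mk) (Nat.add acc (Nat.land (mP2 Nb x) ac)) := by
  constructor
  · obtain ⟨F, hF, hF2⟩ := h.al
    obtain ⟨M, hM, hM2⟩ := hmk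
    refine ⟨_, hF.land hM, ?_⟩
    intro p hp j hj
    rw [hF2 p hp j hj, hM2 p hp j hj, stf_snoc]
    cases hc : (col j)[as.length]? with
    | none =>
      simp only [reduceCtorEq, if_false]
      rcases al_zero_or_one (stf as (col j)).1 p with h1 | h1 <;> rw [h1] <;> rfl
    | some c =>
      have hc4 := hcol j c hc
      have h1 := ivT_spec a ha p hp c hc4
      unfold stp
      simp only [Option.some.injEq, h1]
      rw [al_lor _ a c p ha hc4 hp]
  · have h1 := h.mS_rep.land hac
    have h2 := h.acc.add h1 (by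
      intro j _
      have h3 := stf_le as (col j)
      have h4 := mS_al_le (stf_bit as (col j))
      have h5 : mS (Cafe.al (stf as (col j)).1) &&&
        (if as.length < (col j).length then 255 else 0) ≤ mS (Cafe.al (stf as (col j)).1) :=
        Nat.and_le_left
      norm_num
      omega)
    refine Rep.congr h2 ?_
    intro j _
    rw [stf_snoc]
    cases hc : (col j)[as.length]? with
    | none =>
      have : ¬ as.length < (col j).length := by
        have := List.getElem?_eq_none_iff.1 hc
        omega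
      simp only [this, if_false]
      simp
    | some c =>
      have : as.length < (col j).length := by
        obtain ⟨h6, _⟩ := List.getElem?_eq_some_iff.1 hc
        exact h6
      simp only [this, if_true]
      have h4 := mS_al_le (stf_bit as (col j))
      rw [land255 (by omega)]
      rfl

theorem Inv.nil (Nb : ℕ) (col : ℕ → List ℕ) (x : ℕ)
    (hx : ∃ F, Rep 8 (24 * Nb) x F ∧ ∀ p < 24, ∀ j < Nb, F (Nb * p + j) = Cafe.al 1 p) :
    Inv Nb col [] x 0 := by
  constructor
  · obtain ⟨F, hF, hF2⟩ := hx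
    exact ⟨F, hF, fun p hp j hj => by rw [hF2 p hp j hj]; rfl⟩
  · exact Rep.congr (zero_rep 8 Nb) fun j _ => rfl

theorem walk_sound (Nb b m : ℕ) (col : ℕ → List ℕ) (msk : ℕ → ℕ → ℕ) (act : ℕ → ℕ)
    (lc : ℕ → ℕ → Bool) (hcol : ∀ (j s c : ℕ), (col j)[s]? = some c → c < 4)
    (hmk : ∀ s ≤ 10, ∀ a < 4, ∃ F, Rep 8 (24 * Nb) (msk s a) F ∧ ∀ p < 24, ∀ j < Nb,
      F (Nb * p + j) = if (col j)[s]? = some ((ivT.getD a []).getD p 0) then 0 else 1)
    (hac : ∀ s ≤ 10, Rep 8 Nb (act s) (fun j => if s < (col j).length then 255 else 0))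
    (t : T) : ∀ (s base x acc : ℕ) (as : List ℕ), as.length = s → s ≤ 11 →
      Inv Nb col as x acc → walk Nb b m msk act lc t s base x acc = true →
      ∀ i < t.size, b ≤ base + i → base + i < b + m →
        ∃ a8, lc (base + i) a8 = true ∧ Rep 8 Nb a8 (fun j => AS (as ++ t.path i) (col j)) := by
  induction t with
  | e =>
    intro s base x acc as _ _ _ _ i hi
    exact absurd hi (by simp [T.size])
  | l =>
    intro s base x acc as hs hs11 hinv hw i hi hb1 hb2
    have hi0 : i = 0 := Nat.lt_one_iff.1 hi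
    subst hi0
    have hw' : or (or (Nat.blt base b) (Nat.ble (Nat.add b m) base))
        (lc base (Nat.add acc (WP2 Nb x))) = true := hw
    have h1 : Nat.blt base b = false := by
      rw [← Bool.not_eq_true]
      intro h
      have : base < b := Nat.lt_of_lt_of_le (Nat.lt_succ_self _) (Nat.le_of_ble_eq_true h)
      omega
    have h2 : Nat.ble (Nat.add b m) base = false := by
      rw [← Bool.not_eq_true]
      intro h
      have : b + m ≤ base := Nat.le_of_ble_eq_true h
      omega
    rw [h1, h2] at hw'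
    refine ⟨_, hw', ?_⟩
    have h3 := hinv.leaf (by omega)
    refine Rep.congr h3 ?_
    intro j _
    simp [T.path, T.leaves]
  | n ta tb tc td iha ihb ihc ihd =>
    intro s base x acc as hs hs11 hinv hw i hi hb1 hb2
    have hw' : or (or (Nat.ble (Nat.add base (T.size (T.n ta tb tc td))) b)
        (Nat.ble (Nat.add b m) base))
        (and (Nat.ble s 10)
          (and (walk Nb b m msk act lc ta (Nat.succ s) base (Nat.land x (msk s 0))
            (Nat.add acc (Nat.land (mP2 Nb x) (act s))))
          (and (walk Nb b m msk act lc tb (Nat.succ s) (Nat.add base ta.size)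
            (Nat.land x (msk s 1)) (Nat.add acc (Nat.land (mP2 Nb x) (act s))))
          (and (walk Nb b m msk act lc tc (Nat.succ s) (Nat.add base (Nat.add ta.size tb.size))
            (Nat.land x (msk s 2)) (Nat.add acc (Nat.land (mP2 Nb x) (act s))))
          (walk Nb b m msk act lc td (Nat.succ s)
            (Nat.add base (Nat.add ta.size (Nat.add tb.size tc.size)))
            (Nat.land x (msk s 3)) (Nat.add acc (Nat.land (mP2 Nb x) (act s)))))))) = true := hw
    have h1 : Nat.ble (Nat.add base (T.size (T.n ta tb tc td))) b = false := by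
      rw [← Bool.not_eq_true]
      intro h
      have : base + (T.n ta tb tc td).size ≤ b := Nat.le_of_ble_eq_true h
      omega
    have h2 : Nat.ble (Nat.add b m) base = false := by
      rw [← Bool.not_eq_true]
      intro h
      have : b + m ≤ base := Nat.le_of_ble_eq_true h
      omega
    rw [h1, h2] at hw'
    simp only [Bool.or_self, Bool.false_or, Bool.and_eq_true] at hw'
    obtain ⟨hs10, wa, wb, wc, wd⟩ := hw'
    have hs10' : s ≤ 10 := Nat.le_of_ble_eq_true hs10
    have hstep : ∀ a < 4, Inv Nb col (as ++ [a]) (Nat.land x (msk s a))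
        (Nat.add acc (Nat.land (mP2 Nb x) (act s))) := by
      intro a ha
      subst hs
      exact hinv.step hs10' a ha (fun j c h => hcol j _ c h) (hmk _ hs10' a ha) (hac _ hs10')
    have hlen : ∀ a, (as ++ [a]).length = Nat.succ s := fun a => by simp [hs]
    rw [T.size_n] at hi
    have hpath := T.path_n ta tb tc td i (by rw [T.size_n]; exact hi)
    by_cases c1 : i < ta.size
    · obtain ⟨a8, r1, r2⟩ := iha (Nat.succ s) base _ _ (as ++ [0]) (hlen 0) (by omega)
        (hstep 0 (by norm_num)) wa i c1 hb1 hb2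
      refine ⟨a8, r1, Rep.congr r2 fun j _ => ?_⟩
      rw [hpath]
      simp [c1]
    · by_cases c2 : i < ta.size + tb.size
      · have e : base + i = Nat.add base ta.size + (i - ta.size) := by
          change base + i = base + ta.size + (i - ta.size)
          omega
        rw [e]
        rw [e] at hb1 hb2
        obtain ⟨a8, r1, r2⟩ := ihb (Nat.succ s) (Nat.add base ta.size) _ _ (as ++ [1]) (hlen 1)
          (by omega) (hstep 1 (by norm_num)) wb (i - ta.size) (by omega) hb1 hb2
        refine ⟨a8, r1, Rep.congr r2 fun j _ => ?_⟩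
        rw [hpath]
        simp [c1, c2]
      · by_cases c3 : i < ta.size + tb.size + tc.size
        · have e : base + i = Nat.add base (Nat.add ta.size tb.size) +
              (i - ta.size - tb.size) := by
            change base + i = base + (ta.size + tb.size) + (i - ta.size - tb.size)
            omega
          rw [e]
          rw [e] at hb1 hb2
          obtain ⟨a8, r1, r2⟩ := ihc (Nat.succ s) (Nat.add base (Nat.add ta.size tb.size)) _ _
            (as ++ [2]) (hlen 2) (by omega) (hstep 2 (by norm_num)) wc (i - ta.size - tb.size)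
            (by omega) hb1 hb2
          refine ⟨a8, r1, Rep.congr r2 fun j _ => ?_⟩
          rw [hpath]
          simp [c1, c2, c3]
        · have e : base + i = Nat.add base (Nat.add ta.size (Nat.add tb.size tc.size)) +
              (i - ta.size - tb.size - tc.size) := by
            change base + i = base + (ta.size + (tb.size + tc.size)) +
              (i - ta.size - tb.size - tc.size)
            omega
          rw [e]
          rw [e] at hb1 hb2
          obtain ⟨a8, r1, r2⟩ := ihd (Nat.succ s)
            (Nat.add base (Nat.add ta.size (Nat.add tb.size tc.size))) _ _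
            (as ++ [3]) (hlen 3) (by omega) (hstep 3 (by norm_num)) wd
            (i - ta.size - tb.size - tc.size)
            (by omega) hb1 hb2
          refine ⟨a8, r1, Rep.congr r2 fun j _ => ?_⟩
          rw [hpath]
          simp [c1, c2, c3]

end Pool.Agent.H86.Cafe
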